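import Pool.Agent.V7H69.EM.Im

/-!
# Images of level sets of convex maps into ordered spaces
-/

set_option autoImplicit false

namespace Pool.Agent.V7H69.EM

open MeasureTheory Set Filter Topology
open scoped ENNReal InnerProductSpace
open Pool.Agent.R754.KG (E un sl Rv)
open Pool.Agent.R755.KF
open Pool.Agent.R755.KS
open Pool.Agent.N483.KM (Cy)

variable {r m n : ℕ} {C : Set (E r)} {S : E m → E r}

/-- convex maps with a nonnegative functional `η` such that all functionals become coercive if a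
multiple of `η` is added -/
structure Cf (C : Set (E r)) (S : E m → E r) (η : E r) : Prop where
  cont : Continuous S
  cvx : ∀ θ ∈ Du C, ConvexOn ℝ univ fun x => ⟪θ, S x⟫_ℝ
  mem : η ∈ Du C
  nn : ∀ x, 0 ≤ ⟪η, S x⟫_ℝ
  coer : ∀ θ ∈ Du C, ∀ τ : ℝ, 0 < τ → ∀ e : ℝ, Bornology.IsBounded {x | ⟪θ + τ • η, S x⟫_ℝ ≤ e}

theorem Du.zero : (0 : E r) ∈ Du C := fun v _ => by rw [inner_zero_left]

theorem Cf.bdd {η : E r} (hS : Cf C S η) (s : E r) : Bornology.IsBounded (Lv C S s) := by
  refine (hS.coer 0 Du.zero 1 one_pos ⟪η, s⟫_ℝ).subset fun x hx => ?_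
  have h1 := hS.mem _ hx
  rw [inner_sub_right] at h1
  change ⟪0 + (1 : ℝ) • η, S x⟫_ℝ ≤ ⟪η, s⟫_ℝ
  rw [zero_add, one_smul]
  linarith

theorem Cf.comp {η : E r} (hC : Cn C) (hS : Cf C S η) (s : E r) : IsCompact (Lv C S s) :=
  Metric.isCompact_of_isClosed_isBounded (lv_closed hC hS.cont s) (hS.bdd s)

/-- the volume of the images of the level sets -/
noncomputable def vlT (C : Set (E r)) (S : E m → E r) (T : E m →ₗ[ℝ] E n) (s : E r) : ℝ :=
  (volume (T '' Lv C S s)).toReal

theorem imT_fin {η : E r} (hC : Cn C) (hS : Cf C S η) (T : E m →ₗ[ℝ] E n) (s : E r) :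
    volume (T '' Lv C S s) ≠ ⊤ :=
  ((hS.comp hC s).image T.continuous_of_finiteDimensional).measure_lt_top.ne

theorem vlT_lc {η : E r} (hC : Cn C) (hS : Cf C S η) (T : E m →ₗ[ℝ] E n) : LC (vlT C S T) := by
  refine ⟨fun w => ENNReal.toReal_nonneg, fun w w' t ht0 ht1 => ?_⟩
  have hmeas : ∀ s, MeasurableSet (T '' Lv C S s) := fun s =>
    ((hS.comp hC s).image T.continuous_of_finiteDimensional).isClosed.measurableSet
  have h1 := Pool.Agent.N603.KM.PLset (volume : Measure (E n)) t ht0 ht1 (T '' Lv C S w)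
    (T '' Lv C S w') (T '' Lv C S ((1 - t) • w + t • w')) (hmeas _) (hmeas _) (hmeas _)
    (fun x hx y hy => by
      obtain ⟨x', hx', rfl⟩ := hx
      obtain ⟨y', hy', rfl⟩ := hy
      refine ⟨(1 - t) • x' + t • y', lv_comb hC hS.cvx (by linarith) ht0.le (by ring) hx' hy', ?_⟩
      rw [map_add, map_smul, map_smul])
  have h2 := ENNReal.toReal_mono (imT_fin hC hS T _) h1
  rwa [ENNReal.toReal_mul, ← ENNReal.toReal_rpow, ← ENNReal.toReal_rpow] at h2

/-- images of decreasing sequences of compact sets -/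
theorem inter_im {K : ℕ → Set (E m)} (hK : ∀ k, IsCompact (K k)) (ha : Antitone K)
    (T : E m →ₗ[ℝ] E n) : ⋂ k, T '' K k = T '' ⋂ k, K k := by
  apply Subset.antisymm
  · intro y hy
    have hTc : Continuous T := T.continuous_of_finiteDimensional
    have h1 : (⋂ k, (K k ∩ {x | T x = y})).Nonempty := by
      refine IsCompact.nonempty_iInter_of_sequence_nonempty_isCompact_isClosed
        (fun k => K k ∩ {x | T x = y})
        (fun k => inter_subset_inter_left _ (ha (Nat.le_succ k))) (fun k => ?_)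
        ((hK 0).inter_right (isClosed_eq hTc continuous_const))
        (fun k => (hK k).isClosed.inter (isClosed_eq hTc continuous_const))
      obtain ⟨x, hx, hxy⟩ := mem_iInter.1 hy k
      exact ⟨x, hx, hxy⟩
    obtain ⟨x, hx⟩ := h1
    exact ⟨x, mem_iInter.2 fun k => (mem_iInter.1 hx k).1, (mem_iInter.1 hx 0).2⟩
  · rintro _ ⟨x, hx, rfl⟩
    exact mem_iInter.2 fun k => ⟨x, mem_iInter.1 hx k, rfl⟩

/-- the volumes of the images of a decreasing sequence of compact sets -/
theorem vol_im {K : ℕ → Set (E m)} (hK : ∀ k, IsCompact (K k)) (ha : Antitone K)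
    (T : E m →ₗ[ℝ] E n) (h0 : volume (T '' ⋂ k, K k) ≠ 0) :
    ∃ k, volume (T '' K k) ≤ 2 * volume (T '' ⋂ k, K k) := by
  have hTc : Continuous T := T.continuous_of_finiteDimensional
  have ht := tendsto_measure_iInter_atTop (μ := (volume : Measure (E n)))
    (fun k => (((hK k).image hTc).isClosed.measurableSet.nullMeasurableSet))
    (fun a b hab => image_mono (ha hab)) ⟨0, ((hK 0).image hTc).measure_lt_top.ne⟩
  rw [inter_im hK ha T] at ht
  have hfin : volume (T '' ⋂ k, K k) ≠ ⊤ := by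
    have h1 : T '' ⋂ k, K k ⊆ T '' K 0 := image_mono (iInter_subset _ 0)
    exact ((measure_mono h1).trans_lt ((hK 0).image hTc).measure_lt_top).ne
  have h1 : volume (T '' ⋂ k, K k) < 2 * volume (T '' ⋂ k, K k) := by
    have h2 := ENNReal.mul_lt_mul_left h0 hfin (show (1 : ℝ≥0∞) < 2 by norm_num)
    rwa [one_mul] at h2
  obtain ⟨k, hk⟩ := (ht.eventually (gt_mem_nhds h1)).exists
  exact ⟨k, le_of_lt hk⟩

/-- a larger level set with an image of almost the same volume -/
theorem nearT {η : E r} (hC : Cn C) (hS : Cf C S η) (T : E m →ₗ[ℝ] E n) {s₀ : E r}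
    (hp : volume (T '' Lv C S s₀) ≠ 0) :
    ∃ s₁, s₁ - s₀ ∈ interior C ∧ vlT C S T s₁ ≤ 2 * vlT C S T s₀ := by
  obtain ⟨v, hv⟩ := hC.int
  let s : ℕ → E r := fun k => s₀ + (1 / ((k : ℝ) + 1)) • v
  have hn : ∀ k : ℕ, 0 < 1 / ((k : ℝ) + 1) := fun k => by positivity
  have hanti : Antitone fun k => Lv C S (s k) := by
    intro a b hab
    refine lv_mono hC ?_
    have e1 : s a - s b = (1 / ((a : ℝ) + 1) - 1 / ((b : ℝ) + 1)) • v := by
      change s₀ + (1 / ((a : ℝ) + 1)) • v - (s₀ + (1 / ((b : ℝ) + 1)) • v) = _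
      module
    rw [e1]
    refine hC.smul _ ?_ v (interior_subset hv)
    have h1 : (a : ℝ) ≤ b := by exact_mod_cast hab
    have h2 : 1 / ((b : ℝ) + 1) ≤ 1 / ((a : ℝ) + 1) := by
      apply one_div_le_one_div_of_le <;> [positivity; linarith]
    linarith
  have hint : ⋂ k, Lv C S (s k) = Lv C S s₀ := by
    ext x
    constructor
    · intro hx
      have h1 : ∀ k, s k - S x ∈ C := fun k => mem_iInter.1 hx k
      have h2 : Tendsto (fun k => s k - S x) atTop (𝓝 (s₀ + (0 : ℝ) • v - S x)) := by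
        refine Tendsto.sub_const ?_ _
        exact tendsto_const_nhds.add (tendsto_one_div_add_atTop_nhds_zero_nat.smul_const v)
      rw [zero_smul, add_zero] at h2
      exact hC.closed.mem_of_tendsto h2 (Eventually.of_forall h1)
    · intro hx
      refine mem_iInter.2 fun k => lv_mono hC ?_ hx
      have e1 : s k - s₀ = (1 / ((k : ℝ) + 1)) • v := by
        change s₀ + (1 / ((k : ℝ) + 1)) • v - s₀ = _
        abel
      rw [e1]
      exact hC.smul _ (hn k).le v (interior_subset hv)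
  obtain ⟨k, hk⟩ := vol_im (fun k => hS.comp hC (s k)) hanti T (by rw [hint]; exact hp)
  rw [hint] at hk
  refine ⟨s k, ?_, ?_⟩
  · have e1 : s k - s₀ = (1 / ((k : ℝ) + 1)) • v := by
      change s₀ + (1 / ((k : ℝ) + 1)) • v - s₀ = _
      abel
    rw [e1]
    exact hC.smul_int (hn k) hv
  · have h3 := ENNReal.toReal_mono (ENNReal.mul_ne_top ENNReal.ofNat_ne_top (imT_fin hC hS T s₀)) hk
    rwa [ENNReal.toReal_mul, ENNReal.toReal_ofNat] at h3

/-- images of bodies in products -/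
theorem img_body {B : Set (E m × E r)} (T : E m →ₗ[ℝ] E n) (hT : Function.Surjective T)
    (h1 : IsCompact B) (h2 : Convex ℝ B) (h3 : (interior B).Nonempty) :
    IsCompact ((T.prodMap LinearMap.id) '' B) ∧ Convex ℝ ((T.prodMap LinearMap.id) '' B) ∧
      (interior ((T.prodMap (LinearMap.id : E r →ₗ[ℝ] E r)) '' B)).Nonempty := by
  have hM : Function.Surjective (T.prodMap (LinearMap.id : E r →ₗ[ℝ] E r)) := by
    rintro ⟨y, s⟩
    obtain ⟨x, rfl⟩ := hT y
    exact ⟨(x, s), rfl⟩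
  refine ⟨h1.image (LinearMap.continuous_of_finiteDimensional _), h2.linear_image _, ?_⟩
  have ho : IsOpenMap (T.prodMap (LinearMap.id : E r →ₗ[ℝ] E r)) :=
    (LinearMap.toContinuousLinearMap (T.prodMap (LinearMap.id : E r →ₗ[ℝ] E r))).isOpenMap hM
  obtain ⟨z, hz⟩ := h3
  exact ⟨_, interior_maximal (image_mono interior_subset) (ho _ isOpen_interior) ⟨z, hz, rfl⟩⟩

theorem img_sl (B : Set (E m × E r)) (T : E m →ₗ[ℝ] E n) (s : E r) :
    sl ((T.prodMap LinearMap.id) '' B) s = T '' {x | (x, s) ∈ B} := by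
  ext y
  constructor
  · rintro ⟨⟨x, s'⟩, hz, hz'⟩
    obtain ⟨h1, h2⟩ := Prod.ext_iff.1 hz'
    have h3 : s' = s := h2
    rw [h3] at hz
    exact ⟨x, hz, h1⟩
  · rintro ⟨x, hx, rfl⟩
    exact ⟨(x, s), hx, rfl⟩

theorem img_fst (B : Set (E m × E r)) (T : E m →ₗ[ℝ] E n) :
    Prod.fst '' ((T.prodMap (LinearMap.id : E r →ₗ[ℝ] E r)) '' B) = T '' (Prod.fst '' B) := by
  rw [image_image, image_image]
  rfl

end Pool.Agent.V7H69.EM
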