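import Pool.Agent.V7H69.EM.CoT

/-!
# Images of level sets of convex maps into ordered spaces: the main step
-/

set_option autoImplicit false

namespace Pool.Agent.V7H69.EM

open MeasureTheory Set Filter Topology
open scoped ENNReal InnerProductSpace
open Pool.Agent.R754.KG (E un sl Rv)
open Pool.Agent.R755.KF
open Pool.Agent.R755.KS
open Pool.Agent.N483.KM (Cy)

variable {r m n : ℕ} {C : Set (E r)} {S : E m → E r}

/-- **Cones.** The images of the level sets of `S` are large sections of liftings of images of level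
sets of functionals of `S`. -/
theorem coreT {A : ℝ → ℝ} {Q ε : ℝ} {d p h : ℕ} (hC : Cn C) {η : E r} (hS : Cf C S η)
    (T : E m →ₗ[ℝ] E n) (hT : Function.Surjective T)
    (hε : ε ≤ (2 * Real.exp 2)⁻¹) (hd : r ≤ d) (hp : r ≤ p)
    (hbase : ∀ θ ∈ Du C, ∀ e : ℝ, Bornology.IsBounded {x | ⟪θ, S x⟫_ℝ ≤ e} →
      (interior (T '' {x | ⟪θ, S x⟫_ℝ ≤ e})).Nonempty →
      Cy A Q ε d p h n (T '' {x | ⟪θ, S x⟫_ℝ ≤ e}))
    (s₀ : E r) (hi : (interior (T '' Lv C S s₀)).Nonempty) :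
    Cy A Q ε d p (h + 2) n (T '' Lv C S s₀) := by
  have hf : ∀ s, volume (T '' Lv C S s) ≠ ⊤ := fun s => imT_fin hC hS T s
  have hv0 : volume (T '' Lv C S s₀) ≠ 0 := by
    have h1 := isOpen_interior.measure_pos (volume : Measure (E n)) hi
    exact (h1.trans_le (measure_mono interior_subset)).ne'
  have hR0 : 0 < vlT C S T s₀ := ENNReal.toReal_pos hv0 (hf s₀)
  obtain ⟨s₁, hs1, hs2⟩ := nearT hC hS T hv0
  -- the supporting functional
  have hnear : ∀ᶠ w in 𝓝 s₁, vlT C S T s₀ ≤ vlT C S T w := by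
    have h1 : {w : E r | w - s₀ ∈ interior C} ∈ 𝓝 s₁ :=
      (isOpen_interior.preimage (continuous_id.sub continuous_const)).mem_nhds hs1
    filter_upwards [h1] with w hw
    exact ENNReal.toReal_mono (hf w)
      (measure_mono (image_mono (lv_mono hC (interior_subset hw))))
  obtain ⟨g, hg⟩ := (vlT_lc hC hS T).supp hR0 hnear
  obtain ⟨lam, hlam⟩ : ∃ lam : E r, ∀ w, g w = ⟪lam, w⟫_ℝ :=
    ⟨(InnerProductSpace.toDual ℝ (E r)).symm g, fun w => by
      rw [InnerProductSpace.toDual_symm_apply]⟩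
  have hR1 : 0 < vlT C S T s₁ := hR0.trans_le hnear.self_of_nhds
  have hlD : lam ∈ Du C := by
    intro v hv
    have h1 : vlT C S T s₁ ≤ vlT C S T (s₁ + v) :=
      ENNReal.toReal_mono (hf _)
        (measure_mono (image_mono (lv_mono hC (by rwa [add_sub_cancel_left]))))
    have h2 := hg (s₁ + v)
    rw [map_add, add_sub_cancel_left, hlam] at h2
    have h3 : vlT C S T s₁ * 1 ≤ vlT C S T s₁ * Real.exp ⟪lam, v⟫_ℝ := by
      rw [mul_one]
      exact h1.trans h2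
    have h4 := le_of_mul_le_mul_left h3 hR1
    exact Real.one_le_exp_iff.1 h4
  -- perturbation
  obtain ⟨x₀, hx1⟩ : ∃ x₀, x₀ ∈ Lv C S s₀ := by
    obtain ⟨y, hy⟩ := hi
    obtain ⟨x₀, hx₀, -⟩ := interior_subset hy
    exact ⟨x₀, hx₀⟩
  have hx2 : x₀ ∈ Lv C S s₁ := lv_mono hC (interior_subset hs1) hx1
  have hη3 : 0 ≤ ⟪η, s₁⟫_ℝ := by
    have h1 := hS.mem _ hx2
    rw [inner_sub_right] at h1
    have h2 := hS.nn x₀
    linarith
  obtain ⟨τ, hτ⟩ : ∃ τ : ℝ, τ = 1 / (1 + ⟪η, s₁⟫_ℝ) := ⟨_, rfl⟩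
  have hτ0 : 0 < τ := by rw [hτ]; positivity
  have hτ1 : τ * ⟪η, s₁⟫_ℝ ≤ 1 := by
    rw [hτ, div_mul_eq_mul_div, one_mul, div_le_one (by positivity)]
    linarith
  obtain ⟨l', hl'⟩ : ∃ l' : E r, l' = lam + τ • η := ⟨_, rfl⟩
  have hl'D : l' ∈ Du C := by
    rw [hl']
    exact Du.add hlD (Du.smul hτ0.le hS.mem)
  have hl'i : ∀ w, ⟪l', w⟫_ℝ = ⟪lam, w⟫_ℝ + τ * ⟪η, w⟫_ℝ := by
    intro w
    rw [hl', inner_add_left, real_inner_smul_left]
  obtain ⟨e₁, he₁⟩ : ∃ e₁ : ℝ, e₁ = ⟪l', s₁⟫_ℝ + 1 := ⟨_, rfl⟩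
  have hvol : ∀ s, ⟪l', s⟫_ℝ ≤ e₁ → vlT C S T s ≤ 2 * Real.exp 2 * vlT C S T s₀ := by
    intro s hs
    rcases (Lv C S s).eq_empty_or_nonempty with h0 | ⟨y, hy⟩
    · unfold vlT
      rw [h0, image_empty, measure_empty, ENNReal.toReal_zero]
      positivity
    have h1 : 0 ≤ ⟪η, s⟫_ℝ := by
      have h1 := hS.mem _ hy
      rw [inner_sub_right] at h1
      have h2 := hS.nn y
      linarith
    have h2 : g s - g s₁ ≤ 2 := by
      rw [hlam, hlam]
      rw [he₁, hl'i, hl'i] at hs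
      have h3 : 0 ≤ τ * ⟪η, s⟫_ℝ := by positivity
      linarith
    calc vlT C S T s ≤ vlT C S T s₁ * Real.exp (g s - g s₁) := hg s
      _ ≤ (2 * vlT C S T s₀) * Real.exp 2 := by gcongr
      _ = _ := by ring
  -- the level set of the functional
  have hK1b : Bornology.IsBounded {x | ⟪l', S x⟫_ℝ ≤ e₁} := by
    rw [hl']
    exact hS.coer lam hlD τ hτ0 e₁
  have hK1s : Lv C S s₀ ⊆ {x | ⟪l', S x⟫_ℝ ≤ e₁} := by
    intro x hx
    have h1 := hl'D _ (lv_mono hC (interior_subset hs1) hx)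
    rw [inner_sub_right] at h1
    change ⟪l', S x⟫_ℝ ≤ e₁
    linarith
  have hK1 := hbase l' hl'D e₁ hK1b (hi.mono (interior_mono (image_mono hK1s)))
  -- a bound for the parameters
  obtain ⟨M, hM⟩ : ∃ M : ℝ, ∀ x, ⟪l', S x⟫_ℝ ≤ e₁ → ‖S x‖ ≤ M := by
    have h1 : IsClosed {x | ⟪l', S x⟫_ℝ ≤ e₁} :=
      isClosed_le (continuous_const.inner hS.cont) continuous_const
    have h2 := Metric.isCompact_of_isClosed_isBounded h1 hK1b
    obtain ⟨M, hM⟩ := (h2.image hS.cont).isBounded.exists_norm_le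
    exact ⟨M, fun x hx => hM _ ⟨x, hx, rfl⟩⟩
  obtain ⟨ρ, hρ⟩ : ∃ ρ : ℝ, ρ = max M (max ‖s₀‖ (‖s₁‖ + 1)) := ⟨_, rfl⟩
  have hρM : M ≤ ρ := by rw [hρ]; exact le_max_left _ _
  have hρ0 : ‖s₀‖ ≤ ρ := by rw [hρ]; exact (le_max_left _ _).trans (le_max_right _ _)
  have hρ1 : ‖s₁‖ < ρ := by
    have h1 : ‖s₁‖ + 1 ≤ ρ := by rw [hρ]; exact (le_max_right _ _).trans (le_max_right _ _)
    linarith
  -- the body
  have b1 : IsCompact (Bd C S l' e₁ ρ) := by
    refine Metric.isCompact_of_isClosed_isBounded ?_ ?_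
    · have c1 : IsClosed {z : E m × E r | z.2 - S z.1 ∈ C} :=
        hC.closed.preimage (continuous_snd.sub (hS.cont.comp continuous_fst))
      have c2 : IsClosed {z : E m × E r | ⟪l', z.2⟫_ℝ ≤ e₁} :=
        isClosed_le (continuous_const.inner continuous_snd) continuous_const
      have c3 : IsClosed {z : E m × E r | ‖z.2‖ ≤ ρ} :=
        isClosed_le continuous_snd.norm continuous_const
      exact c1.inter (c2.inter c3)
    · obtain ⟨R, hR⟩ := hK1b.exists_norm_le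
      rw [isBounded_iff_forall_norm_le]
      refine ⟨max R ρ, fun z hz => ?_⟩
      rw [Prod.norm_def]
      refine max_le_max (hR z.1 ?_) hz.2.2
      have h1 := hl'D _ hz.1
      rw [inner_sub_right] at h1
      change ⟪l', S z.1⟫_ℝ ≤ e₁
      linarith [hz.2.1]
  have b2 : Convex ℝ (Bd C S l' e₁ ρ) := by
    intro z hz z' hz' a b ha hb' hab
    refine ⟨?_, ?_, ?_⟩
    · exact lv_comb hC hS.cvx ha hb' hab (s := z.2) (s' := z'.2) hz.1 hz'.1
    · change ⟪l', a • z.2 + b • z'.2⟫_ℝ ≤ e₁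
      rw [inner_add_right, inner_smul_right, inner_smul_right]
      have h1 := mul_le_mul_of_nonneg_left hz.2.1 ha
      have h2 := mul_le_mul_of_nonneg_left hz'.2.1 hb'
      have h3 : a * e₁ + b * e₁ = e₁ := by rw [← add_mul, hab, one_mul]
      linarith
    · change ‖a • z.2 + b • z'.2‖ ≤ ρ
      refine (norm_add_le _ _).trans ?_
      rw [norm_smul, norm_smul, Real.norm_of_nonneg ha, Real.norm_of_nonneg hb']
      have h1 := mul_le_mul_of_nonneg_left hz.2.2 ha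
      have h2 := mul_le_mul_of_nonneg_left hz'.2.2 hb'
      have h3 : a * ρ + b * ρ = ρ := by rw [← add_mul, hab, one_mul]
      linarith
  have b3 : (interior (Bd C S l' e₁ ρ)).Nonempty := by
    have c1 : IsOpen {z : E m × E r | z.2 - S z.1 ∈ interior C} :=
      isOpen_interior.preimage (continuous_snd.sub (hS.cont.comp continuous_fst))
    have c2 : IsOpen {z : E m × E r | ⟪l', z.2⟫_ℝ < e₁} :=
      isOpen_lt (continuous_const.inner continuous_snd) continuous_const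
    have c3 : IsOpen {z : E m × E r | ‖z.2‖ < ρ} :=
      isOpen_lt continuous_snd.norm continuous_const
    have hmem : ((x₀, s₁) : E m × E r) ∈ {z : E m × E r | z.2 - S z.1 ∈ interior C} ∩
        ({z : E m × E r | ⟪l', z.2⟫_ℝ < e₁} ∩ {z : E m × E r | ‖z.2‖ < ρ}) := by
      refine ⟨?_, ?_, hρ1⟩
      · have h1 := hC.add_int hx1 hs1
        have e1 : s₀ - S x₀ + (s₁ - s₀) = s₁ - S x₀ := by abel
        rw [e1] at h1
        exact h1
      · change ⟪l', s₁⟫_ℝ < e₁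
        linarith
    have hsub : {z : E m × E r | z.2 - S z.1 ∈ interior C} ∩
        ({z : E m × E r | ⟪l', z.2⟫_ℝ < e₁} ∩ {z : E m × E r | ‖z.2‖ < ρ}) ⊆ Bd C S l' e₁ ρ := by
      rintro z ⟨hz1, hz2, hz3⟩
      exact ⟨interior_subset hz1, le_of_lt hz2, le_of_lt hz3⟩
    exact ⟨(x₀, s₁), interior_maximal hsub (c1.inter (c2.inter c3)) hmem⟩
  obtain ⟨BT, hBT⟩ : ∃ BT : Set (E n × E r), BT = (T.prodMap LinearMap.id) '' Bd C S l' e₁ ρ :=
    ⟨_, rfl⟩
  obtain ⟨d1, d2, d3⟩ := img_body T hT b1 b2 b3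
  rw [← hBT] at d1 d2 d3
  obtain ⟨c1, c2, c3⟩ := prl_body d1 d2 d3
  have himg : prj n r '' (prl n r '' BT) = T '' {x | ⟪l', S x⟫_ℝ ≤ e₁} := by
    rw [prj_image, hBT, img_fst]
    congr 1
    ext x
    constructor
    · rintro ⟨z, hz, rfl⟩
      have h1 := hl'D _ hz.1
      rw [inner_sub_right] at h1
      change ⟪l', S z.1⟫_ℝ ≤ e₁
      linarith [hz.2.1]
    · intro hx
      refine ⟨(x, S x), ⟨?_, hx, (hM x hx).trans hρM⟩, rfl⟩
      change S x - S x ∈ C
      rw [sub_self]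
      exact hC.zero
  have hB : Cy A Q ε d p (h + 1) (n + r) (prl n r '' BT) := by
    refine .lift h (n + r) n _ (prj n r) (by omega) (prj_surj n r) c1 c2 c3 ?_
    rw [himg]
    exact hK1
  have hpre : prl n r ⁻¹' (prl n r '' BT) = BT := preimage_image_eq _ (prl n r).injective
  have hsl : sl (prl n r ⁻¹' (prl n r '' BT)) s₀ = T '' Lv C S s₀ := by
    rw [hpre, hBT, img_sl]
    congr 1
    ext x
    constructor
    · intro hx
      exact hx.1
    · intro hx
      refine ⟨hx, ?_, hρ0⟩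
      have h1 := hl'D _ (interior_subset hs1)
      rw [inner_sub_right] at h1
      change ⟪l', s₀⟫_ℝ ≤ e₁
      linarith
  have hfin := Cy.sec (A := A) (Q := Q) (ε := ε) (d := d) (r := p) (h + 1) n r (n + r) _
    (prl n r) s₀ hd hB (fun t' => by
      have h1 : Rv (prl n r ⁻¹' (prl n r '' BT)) s₀ = vlT C S T s₀ := by
        unfold Rv vlT
        rw [hsl]
      rw [h1]
      have h2 : Rv (prl n r ⁻¹' (prl n r '' BT)) t' ≤ 2 * Real.exp 2 * vlT C S T s₀ := by
        by_cases ht : ⟪l', t'⟫_ℝ ≤ e₁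
        · refine le_trans ?_ (hvol t' ht)
          refine ENNReal.toReal_mono (hf t') (measure_mono ?_)
          rw [hpre, hBT, img_sl]
          exact image_mono fun x hx => hx.1
        · have h3 : sl (prl n r ⁻¹' (prl n r '' BT)) t' = ∅ := by
            rw [hpre, hBT, img_sl, image_eq_empty, eq_empty_iff_forall_notMem]
            intro x hx
            exact ht hx.2.1
          unfold Rv
          rw [h3, measure_empty, ENNReal.toReal_zero]
          positivity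
      have h3 : 0 ≤ Rv (prl n r ⁻¹' (prl n r '' BT)) t' := Pool.Agent.R754.KG.R_nonneg t'
      calc ε * Rv (prl n r ⁻¹' (prl n r '' BT)) t' ≤
            (2 * Real.exp 2)⁻¹ * Rv (prl n r ⁻¹' (prl n r '' BT)) t' := by gcongr
        _ ≤ (2 * Real.exp 2)⁻¹ * (2 * Real.exp 2 * vlT C S T s₀) := by gcongr
        _ = vlT C S T s₀ := by
          rw [inv_mul_cancel_left₀ (by positivity)])
  rw [hsl] at hfin
  exact hfin

end Pool.Agent.V7H69.EM
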