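import Pool.Agent.V7H69.EM.Cone

/-!
# Coercive functionals of convex maps with bounded level sets
-/

set_option autoImplicit false

namespace Pool.Agent.V7H69.EM

open MeasureTheory Set Filter Topology
open scoped ENNReal InnerProductSpace
open Pool.Agent.R754.KG (E un sl Rv)

variable {r m : ℕ} {C : Set (E r)}

/-- unbounded closed convex sets contain rays -/
theorem ray {Z : Set (E m)} (hc : IsClosed Z) (hv : Convex ℝ Z) {x₀ : E m} (hx : x₀ ∈ Z)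
    (hb : ¬ Bornology.IsBounded Z) : ∃ v : E m, v ≠ 0 ∧ ∀ τ : ℝ, 0 ≤ τ → x₀ + τ • v ∈ Z := by
  have h1 : ∀ n : ℕ, ∃ z ∈ Z, (n : ℝ) < ‖z - x₀‖ := by
    intro n
    by_contra hcon
    push Not at hcon
    apply hb
    rw [isBounded_iff_forall_norm_le]
    refine ⟨n + ‖x₀‖, fun z hz => ?_⟩
    have h2 := norm_add_le (z - x₀) x₀
    rw [sub_add_cancel] at h2
    exact h2.trans (by linarith [hcon z hz])
  choose z hz hzn using h1
  have hpos : ∀ n, 0 < ‖z n - x₀‖ := fun n => lt_of_le_of_lt (Nat.cast_nonneg n) (hzn n)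
  have hu : ∀ n, ‖z n - x₀‖⁻¹ • (z n - x₀) ∈ Metric.sphere (0 : E m) 1 := by
    intro n
    rw [mem_sphere_zero_iff_norm, norm_smul, norm_inv, norm_norm, inv_mul_cancel₀ (hpos n).ne']
  obtain ⟨v, hvs, φ, hφ, hlim⟩ := (isCompact_sphere (0 : E m) 1).tendsto_subseq hu
  refine ⟨v, fun h0 => ?_, fun τ hτ => ?_⟩
  · rw [h0, mem_sphere_zero_iff_norm, norm_zero] at hvs
    exact zero_ne_one hvs
  · have h2 : Tendsto (fun n => x₀ + τ • (‖z (φ n) - x₀‖⁻¹ • (z (φ n) - x₀))) atTop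
        (𝓝 (x₀ + τ • v)) := tendsto_const_nhds.add (hlim.const_smul τ)
    refine hc.mem_of_tendsto h2 ?_
    obtain ⟨N, hN⟩ := exists_nat_ge τ
    filter_upwards [eventually_ge_atTop N] with n hn
    have h3 : (N : ℝ) ≤ φ n := by exact_mod_cast hn.trans (hφ.id_le n)
    have h4 : τ ≤ ‖z (φ n) - x₀‖ := by linarith [hzn (φ n)]
    have h5 : τ * ‖z (φ n) - x₀‖⁻¹ ≤ 1 := by
      rw [← div_eq_mul_inv, div_le_one (hpos _)]
      exact h4
    have h6 : 0 ≤ τ * ‖z (φ n) - x₀‖⁻¹ := mul_nonneg hτ (inv_nonneg.2 (hpos _).le)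
    have h7 := hv hx (hz (φ n)) (by linarith : 0 ≤ 1 - τ * ‖z (φ n) - x₀‖⁻¹) h6 (by ring)
    have e1 : (1 - τ * ‖z (φ n) - x₀‖⁻¹) • x₀ + (τ * ‖z (φ n) - x₀‖⁻¹) • z (φ n) =
        x₀ + τ • (‖z (φ n) - x₀‖⁻¹ • (z (φ n) - x₀)) := by
      rw [smul_smul]
      module
    rwa [e1] at h7

/-- convex functions which are bounded on a ray do not increase along it -/
theorem ray_le {f : E m → ℝ} (hf : ConvexOn ℝ univ f) {x v : E m} {M : ℝ}
    (h : ∀ τ : ℝ, 0 ≤ τ → f (x + τ • v) ≤ M) {τ : ℝ} (hτ : 0 ≤ τ) : f (x + τ • v) ≤ f x := by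
  have hN : ∀ N : ℕ, f (x + τ • v) ≤ (1 - 1 / ((N : ℝ) + 1)) * f x + 1 / ((N : ℝ) + 1) * M := by
    intro N
    have hNp : 0 < 1 / ((N : ℝ) + 1) := by positivity
    have hN1 : 1 / ((N : ℝ) + 1) ≤ 1 := by
      rw [div_le_one (by positivity)]
      have : (0 : ℝ) ≤ N := Nat.cast_nonneg N
      linarith
    have h1 := hf.2 (mem_univ x) (mem_univ (x + (((N : ℝ) + 1) * τ) • v))
      (by linarith : 0 ≤ 1 - 1 / ((N : ℝ) + 1)) hNp.le (by ring)
    have e1 : (1 - 1 / ((N : ℝ) + 1)) • x + (1 / ((N : ℝ) + 1)) • (x + (((N : ℝ) + 1) * τ) • v) =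
        x + τ • v := by
      have : (1 / ((N : ℝ) + 1)) * (((N : ℝ) + 1) * τ) = τ := by field_simp
      rw [smul_add, smul_smul, this]
      module
    rw [e1] at h1
    simp only [smul_eq_mul] at h1
    have h2 := h (((N : ℝ) + 1) * τ) (by positivity)
    have h3 := mul_le_mul_of_nonneg_left h2 hNp.le
    linarith
  have t1 : Tendsto (fun N : ℕ => (1 - 1 / ((N : ℝ) + 1)) * f x + 1 / ((N : ℝ) + 1) * M) atTop
      (𝓝 ((1 - 0) * f x + 0 * M)) :=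
    ((tendsto_const_nhds.sub tendsto_one_div_add_atTop_nhds_zero_nat).mul_const _).add
      (tendsto_one_div_add_atTop_nhds_zero_nat.mul_const _)
  rw [sub_zero, one_mul, zero_mul, add_zero] at t1
  exact ge_of_tendsto' t1 hN

/-- if a level set is bounded and not empty there is a functional with bounded level sets -/
theorem coercive {S : E m → E r} (hC : Cn C) (hS : Cm C S) {s₀ : E r}
    (hb : Bornology.IsBounded (Lv C S s₀)) (hne : (Lv C S s₀).Nonempty) :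
    ∃ η ∈ Du C, ∀ e : ℝ, Bornology.IsBounded {x | ⟪η, S x⟫_ℝ ≤ e} := by
  classical
  obtain ⟨b, hbD, hbs, hbi⟩ := exists_linearIndependent ℝ (Du C)
  have hfin : b.Finite := hbi.setFinite
  obtain ⟨x₀, hx₀⟩ := hne
  have hηD : (∑ θ ∈ hfin.toFinset, θ) ∈ Du C := by
    intro v hv
    rw [sum_inner]
    exact Finset.sum_nonneg fun θ hθ => hbD (hfin.mem_toFinset.1 hθ) v hv
  refine ⟨_, hηD, fun e => ?_⟩
  by_contra hcon
  have hle : ∀ θ ∈ b, ∀ x, ⟪θ, S x⟫_ℝ ≤ ⟪∑ θ ∈ hfin.toFinset, θ, S x⟫_ℝ := by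
    intro θ hθ x
    rw [sum_inner]
    exact Finset.single_le_sum (f := fun θ => ⟪θ, S x⟫_ℝ)
      (fun θ' hθ' => hS.nn θ' (hbD (hfin.mem_toFinset.1 hθ')) x) (hfin.mem_toFinset.2 hθ)
  obtain ⟨e', he'⟩ : ∃ e', e' = max e ⟪∑ θ ∈ hfin.toFinset, θ, S x₀⟫_ℝ := ⟨_, rfl⟩
  have hZ : ¬ Bornology.IsBounded {x | ⟪∑ θ ∈ hfin.toFinset, θ, S x⟫_ℝ ≤ e'} := by
    intro h
    refine hcon (h.subset fun x hx => ?_)
    have h1 : ⟪∑ θ ∈ hfin.toFinset, θ, S x⟫_ℝ ≤ e := hx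
    change _ ≤ e'
    rw [he']
    exact h1.trans (le_max_left _ _)
  have hcv := hS.cvx _ hηD
  obtain ⟨v, hv0, hv⟩ := ray (isClosed_le (continuous_const.inner hS.cont) continuous_const)
    (by simpa using hcv.convex_le e') (show x₀ ∈ _ by
      change _ ≤ e'
      rw [he']
      exact le_max_right _ _) hZ
  -- all functionals are bounded along the ray
  have hbd : ∀ θ ∈ Submodule.span ℝ b, ∃ M : ℝ, ∀ τ : ℝ, 0 ≤ τ →
      |⟪θ, S (x₀ + τ • v)⟫_ℝ| ≤ M := by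
    intro θ hθ
    induction hθ using Submodule.span_induction with
    | mem θ hθ =>
      refine ⟨e', fun τ hτ => ?_⟩
      rw [abs_of_nonneg (hS.nn θ (hbD hθ) _)]
      exact (hle θ hθ _).trans (hv τ hτ)
    | zero => exact ⟨0, fun τ _ => by simp⟩
    | add θ η _ _ h1 h2 =>
      obtain ⟨M1, h1⟩ := h1
      obtain ⟨M2, h2⟩ := h2
      refine ⟨M1 + M2, fun τ hτ => ?_⟩
      rw [inner_add_left]
      exact (abs_add_le _ _).trans (add_le_add (h1 τ hτ) (h2 τ hτ))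
    | smul a θ _ h1 =>
      obtain ⟨M1, h1⟩ := h1
      refine ⟨|a| * M1, fun τ hτ => ?_⟩
      rw [real_inner_smul_left, abs_mul]
      exact mul_le_mul_of_nonneg_left (h1 τ hτ) (abs_nonneg a)
  have hmem : ∀ τ : ℝ, 0 ≤ τ → x₀ + τ • v ∈ Lv C S s₀ := by
    intro τ hτ
    refine hC.bip fun θ hθ => ?_
    obtain ⟨M, hM⟩ := hbd θ (by rw [hbs]; exact Submodule.subset_span hθ)
    have h1 := ray_le (hS.cvx θ hθ) (fun τ hτ => (le_abs_self _).trans (hM τ hτ)) hτ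
    have h2 := hθ _ hx₀
    rw [inner_sub_right] at h2 ⊢
    linarith
  obtain ⟨R, hR⟩ := hb.exists_norm_le
  have hvp : 0 < ‖v‖ := norm_pos_iff.2 hv0
  have hR0 : 0 ≤ R := (norm_nonneg _).trans (hR _ hx₀)
  have h1 := hR _ (hmem ((R + ‖x₀‖ + 1) / ‖v‖) (by positivity))
  have h2 : ‖((R + ‖x₀‖ + 1) / ‖v‖) • v‖ = R + ‖x₀‖ + 1 := by
    rw [norm_smul, Real.norm_eq_abs, abs_of_nonneg (by positivity)]
    field_simp
  have h3 : ‖((R + ‖x₀‖ + 1) / ‖v‖) • v‖ ≤ ‖x₀ + ((R + ‖x₀‖ + 1) / ‖v‖) • v‖ + ‖x₀‖ := by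
    have h4 := norm_sub_le (x₀ + ((R + ‖x₀‖ + 1) / ‖v‖) • v) x₀
    rwa [add_sub_cancel_left] at h4
  linarith

end Pool.Agent.V7H69.EM
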