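import Pool.Agent.V7H69.EM.Sup
import Pool.Agent.V7H69.EL.Fam
import Pool.Agent.N603.KM.OSUP

/-!
# Level sets of convex maps into ordered spaces of bounded dimension

A level set `{x | S(x) ≤ s₀}` of a map `S` into `ℝ^r`, ordered by a closed convex cone `C`, which is
convex and nonnegative for this order, is a large section of a body over a level set of one
functional of `S`.
-/

set_option autoImplicit false

namespace Pool.Agent.V7H69.EM

open MeasureTheory Set Filter Topology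
open scoped ENNReal InnerProductSpace
open Pool.Agent.R754.KG (E un sl Rv)
open Pool.Agent.R755.KF
open Pool.Agent.R755.KS
open Pool.Agent.N483.KM (Cy)

/-- closed convex cones with interior points -/
structure Cn {r : ℕ} (C : Set (E r)) : Prop where
  closed : IsClosed C
  convex : Convex ℝ C
  smul : ∀ t : ℝ, 0 ≤ t → ∀ v ∈ C, t • v ∈ C
  int : (interior C).Nonempty

/-- the dual cone -/
def Du {r : ℕ} (C : Set (E r)) : Set (E r) := {θ | ∀ v ∈ C, 0 ≤ ⟪θ, v⟫_ℝ}

variable {r : ℕ} {C : Set (E r)}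

theorem Cn.zero (h : Cn C) : (0 : E r) ∈ C := by
  obtain ⟨v, hv⟩ := h.int
  have := h.smul 0 le_rfl v (interior_subset hv)
  rwa [zero_smul] at this

theorem Cn.add (h : Cn C) {v w : E r} (hv : v ∈ C) (hw : w ∈ C) : v + w ∈ C := by
  have h1 := h.convex hv hw (by norm_num : (0 : ℝ) ≤ 1 / 2) (by norm_num : (0 : ℝ) ≤ 1 / 2)
    (by norm_num)
  have h2 := h.smul 2 zero_le_two _ h1
  have e1 : (2 : ℝ) • ((1 / 2 : ℝ) • v + (1 / 2 : ℝ) • w) = v + w := by module
  rwa [e1] at h2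

theorem Cn.add_int (h : Cn C) {v w : E r} (hv : v ∈ C) (hw : w ∈ interior C) :
    v + w ∈ interior C := by
  have h1 : IsOpen ((fun x => v + x) '' interior C) :=
    (Homeomorph.addLeft v).isOpenMap _ isOpen_interior
  refine interior_maximal ?_ h1 ⟨w, hw, rfl⟩
  rintro _ ⟨x, hx, rfl⟩
  exact h.add hv (interior_subset hx)

theorem Cn.smul_int (h : Cn C) {t : ℝ} (ht : 0 < t) {w : E r} (hw : w ∈ interior C) :
    t • w ∈ interior C := by
  have h1 : IsOpen ((fun x => t • x) '' interior C) :=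
    (Homeomorph.smulOfNeZero t ht.ne').isOpenMap _ isOpen_interior
  refine interior_maximal ?_ h1 ⟨w, hw, rfl⟩
  rintro _ ⟨x, hx, rfl⟩
  exact h.smul t ht.le x (interior_subset hx)

/-- the cone is the dual of its dual -/
theorem Cn.bip (h : Cn C) {v : E r} (hv : ∀ θ ∈ Du C, 0 ≤ ⟪θ, v⟫_ℝ) : v ∈ C := by
  by_contra hn
  obtain ⟨f, u, h1, h2⟩ := geometric_hahn_banach_closed_point h.convex h.closed hn
  have h3 : ∀ w ∈ C, f w ≤ 0 := by
    intro w hw
    by_contra h4
    push Not at h4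
    have h5 := h1 _ (h.smul (|u| / f w + 1) (by positivity) w hw)
    rw [map_smul, smul_eq_mul, add_mul, div_mul_cancel₀ _ h4.ne', one_mul] at h5
    have := le_abs_self u
    linarith
  have h4 : 0 < u := by
    have := h1 0 h.zero
    rwa [map_zero] at this
  have h5 : -(InnerProductSpace.toDual ℝ (E r)).symm f ∈ Du C := by
    intro w hw
    rw [inner_neg_left, InnerProductSpace.toDual_symm_apply]
    linarith [h3 w hw]
  have h6 := hv _ h5
  rw [inner_neg_left, InnerProductSpace.toDual_symm_apply] at h6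
  linarith

theorem Du.add {θ η : E r} (h1 : θ ∈ Du C) (h2 : η ∈ Du C) : θ + η ∈ Du C := by
  intro v hv
  rw [inner_add_left]
  exact add_nonneg (h1 v hv) (h2 v hv)

theorem Du.smul {t : ℝ} (ht : 0 ≤ t) {θ : E r} (h1 : θ ∈ Du C) : t • θ ∈ Du C := by
  intro v hv
  rw [real_inner_smul_left]
  exact mul_nonneg ht (h1 v hv)

/-- maps which are continuous, convex and nonnegative for the order -/
structure Cm {m : ℕ} (C : Set (E r)) (S : E m → E r) : Prop where
  cont : Continuous S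
  cvx : ∀ θ ∈ Du C, ConvexOn ℝ univ fun x => ⟪θ, S x⟫_ℝ
  nn : ∀ θ ∈ Du C, ∀ x, 0 ≤ ⟪θ, S x⟫_ℝ

/-- the level sets -/
def Lv {m : ℕ} (C : Set (E r)) (S : E m → E r) (s : E r) : Set (E m) := {x | s - S x ∈ C}

variable {m : ℕ} {S : E m → E r}

theorem lv_comb (hC : Cn C) (hS : ∀ θ ∈ Du C, ConvexOn ℝ univ fun x => ⟪θ, S x⟫_ℝ) {a b : ℝ}
    (ha : 0 ≤ a) (hb : 0 ≤ b) (hab : a + b = 1) {s s' : E r} {x y : E m} (hx : x ∈ Lv C S s)
    (hy : y ∈ Lv C S s') : a • x + b • y ∈ Lv C S (a • s + b • s') := by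
  refine hC.bip fun θ hθ => ?_
  have h1 := (hS θ hθ).2 (mem_univ x) (mem_univ y) ha hb hab
  simp only [smul_eq_mul] at h1
  have h2 := hθ _ hx
  have h3 := hθ _ hy
  rw [inner_sub_right] at h2 h3
  rw [inner_sub_right, inner_add_right, inner_smul_right, inner_smul_right]
  nlinarith

theorem lv_mono (hC : Cn C) {s s' : E r} (h : s' - s ∈ C) : Lv C S s ⊆ Lv C S s' := by
  intro x hx
  have h1 := hC.add h hx
  have e1 : s' - s + (s - S x) = s' - S x := by abel
  rwa [e1] at h1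

theorem lv_closed (hC : Cn C) (hS : Continuous S) (s : E r) : IsClosed (Lv C S s) :=
  hC.closed.preimage (continuous_const.sub hS)

/-- the volume of the level sets -/
noncomputable def vl (C : Set (E r)) (S : E m → E r) (s : E r) : ℝ := (volume (Lv C S s)).toReal

theorem vl_lc (hC : Cn C) (hS : Cm C S) (hf : ∀ s, volume (Lv C S s) ≠ ⊤) : LC (vl C S) := by
  refine ⟨fun w => ENNReal.toReal_nonneg, fun w w' t ht0 ht1 => ?_⟩
  have h1 := Pool.Agent.N603.KM.PLset (volume : Measure (E m)) t ht0 ht1 (Lv C S w) (Lv C S w')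
    (Lv C S ((1 - t) • w + t • w')) (lv_closed hC hS.cont _).measurableSet
    (lv_closed hC hS.cont _).measurableSet (lv_closed hC hS.cont _).measurableSet
    (fun x hx y hy => lv_comb hC hS.cvx (by linarith) ht0.le (by ring) hx hy)
  have h2 := ENNReal.toReal_mono (hf _) h1
  rwa [ENNReal.toReal_mul, ← ENNReal.toReal_rpow, ← ENNReal.toReal_rpow] at h2

/-- linear coordinates of the product -/
noncomputable def prl (m r : ℕ) : (E m × E r) ≃ₗ[ℝ] E (m + r) :=
  LinearEquiv.ofFinrankEq _ _ (by simp)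

/-- the projection to the first factor in these coordinates -/
noncomputable def prj (m r : ℕ) : E (m + r) →ₗ[ℝ] E m :=
  (LinearMap.fst ℝ (E m) (E r)) ∘ₗ (prl m r).symm.toLinearMap

theorem prj_surj (m r : ℕ) : Function.Surjective (prj m r) := by
  intro x
  refine ⟨prl m r (x, 0), ?_⟩
  change ((prl m r).symm (prl m r (x, 0))).1 = x
  rw [LinearEquiv.symm_apply_apply]

theorem prj_image (m r : ℕ) (B : Set (E m × E r)) :
    prj m r '' (prl m r '' B) = Prod.fst '' B := by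
  rw [image_image]
  refine image_congr fun z _ => ?_
  change ((prl m r).symm (prl m r z)).1 = z.1
  rw [LinearEquiv.symm_apply_apply]

theorem prl_body {B : Set (E m × E r)} (h1 : IsCompact B) (h2 : Convex ℝ B)
    (h3 : (interior B).Nonempty) : IsCompact (prl m r '' B) ∧ Convex ℝ (prl m r '' B) ∧
      (interior (prl m r '' B)).Nonempty := by
  have hψ : Continuous (prl m r) := (prl m r).toLinearMap.continuous_of_finiteDimensional
  refine ⟨h1.image hψ, h2.linear_image (prl m r).toLinearMap, ?_⟩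
  have h4 : (prl m r).toContinuousLinearEquiv.toHomeomorph '' interior B =
      interior ((prl m r).toContinuousLinearEquiv.toHomeomorph '' B) :=
    Homeomorph.image_interior _ _
  have h5 : (prl m r).toContinuousLinearEquiv.toHomeomorph '' B = (prl m r) '' B := rfl
  rw [h5] at h4
  rw [← h4]
  exact h3.image _

/-- a larger level set of almost the same volume -/
theorem near (hC : Cn C) (hS : Cm C S) (hf : ∀ s, volume (Lv C S s) ≠ ⊤) {s₀ : E r}
    (hp : volume (Lv C S s₀) ≠ 0) : ∃ s₁, s₁ - s₀ ∈ interior C ∧ vl C S s₁ ≤ 2 * vl C S s₀ := by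
  obtain ⟨v, hv⟩ := hC.int
  let s : ℕ → E r := fun n => s₀ + (1 / ((n : ℝ) + 1)) • v
  have hn : ∀ n : ℕ, 0 < 1 / ((n : ℝ) + 1) := fun n => by positivity
  have hanti : Antitone fun n => Lv C S (s n) := by
    intro a b hab
    refine lv_mono hC ?_
    have e1 : s a - s b = (1 / ((a : ℝ) + 1) - 1 / ((b : ℝ) + 1)) • v := by
      change s₀ + (1 / ((a : ℝ) + 1)) • v - (s₀ + (1 / ((b : ℝ) + 1)) • v) = _
      module
    rw [e1]
    refine hC.smul _ ?_ v (interior_subset hv)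
    have h1 : (a : ℝ) ≤ b := by exact_mod_cast hab
    have h2 : 1 / ((b : ℝ) + 1) ≤ 1 / ((a : ℝ) + 1) := by
      apply one_div_le_one_div_of_le <;> [positivity; linarith]
    linarith
  have hint : ⋂ n, Lv C S (s n) = Lv C S s₀ := by
    ext x
    constructor
    · intro hx
      have h1 : ∀ n, s n - S x ∈ C := fun n => mem_iInter.1 hx n
      have h2 : Tendsto (fun n => s n - S x) atTop (𝓝 (s₀ + (0 : ℝ) • v - S x)) := by
        refine Tendsto.sub_const ?_ _
        exact tendsto_const_nhds.add (tendsto_one_div_add_atTop_nhds_zero_nat.smul_const v)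
      rw [zero_smul, add_zero] at h2
      exact hC.closed.mem_of_tendsto h2 (Eventually.of_forall h1)
    · intro hx
      refine mem_iInter.2 fun n => lv_mono hC ?_ hx
      have e1 : s n - s₀ = (1 / ((n : ℝ) + 1)) • v := by
        change s₀ + (1 / ((n : ℝ) + 1)) • v - s₀ = _
        abel
      rw [e1]
      exact hC.smul _ (hn n).le v (interior_subset hv)
  have ht := tendsto_measure_iInter_atTop (μ := (volume : Measure (E m)))
    (fun n => (lv_closed hC hS.cont (s n)).measurableSet.nullMeasurableSet) hanti ⟨0, hf _⟩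
  rw [hint] at ht
  have h1 : volume (Lv C S s₀) < 2 * volume (Lv C S s₀) := by
    have h2 := ENNReal.mul_lt_mul_left hp (hf s₀) (show (1 : ℝ≥0∞) < 2 by norm_num)
    rwa [one_mul] at h2
  obtain ⟨n, hn'⟩ := (ht.eventually (gt_mem_nhds h1)).exists
  refine ⟨s n, ?_, ?_⟩
  · have e1 : s n - s₀ = (1 / ((n : ℝ) + 1)) • v := by
      change s₀ + (1 / ((n : ℝ) + 1)) • v - s₀ = _
      abel
    rw [e1]
    exact hC.smul_int (hn n) hv
  · have h2 : volume (Lv C S (s n)) ≤ 2 * volume (Lv C S s₀) := le_of_lt hn'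
    have h3 := ENNReal.toReal_mono (ENNReal.mul_ne_top (by norm_num) (hf s₀)) h2
    rwa [ENNReal.toReal_mul, ENNReal.toReal_ofNat] at h3

/-- the body over a level set of one functional -/
def Bd {m : ℕ} (C : Set (E r)) (S : E m → E r) (lam : E r) (e ρ : ℝ) : Set (E m × E r) :=
  {z | z.2 - S z.1 ∈ C ∧ ⟪lam, z.2⟫_ℝ ≤ e ∧ ‖z.2‖ ≤ ρ}

/-- **Cones.** The level sets of `S` are large sections of liftings of level sets of functionals
of `S`. -/
theorem core {A : ℝ → ℝ} {Q ε : ℝ} {d p h : ℕ} (hC : Cn C) (hS : Cm C S)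
    (hε : ε ≤ (2 * Real.exp 2)⁻¹) (hd : r ≤ d) (hp : r ≤ p)
    (hη : ∃ η ∈ Du C, ∀ e : ℝ, Bornology.IsBounded {x | ⟪η, S x⟫_ℝ ≤ e})
    (hbase : ∀ θ ∈ Du C, ∀ e : ℝ, Bornology.IsBounded {x | ⟪θ, S x⟫_ℝ ≤ e} →
      (interior {x | ⟪θ, S x⟫_ℝ ≤ e}).Nonempty → Cy A Q ε d p h m {x | ⟪θ, S x⟫_ℝ ≤ e})
    (s₀ : E r) (hi : (interior (Lv C S s₀)).Nonempty) : Cy A Q ε d p (h + 2) m (Lv C S s₀) := by
  obtain ⟨η, hη1, hη2⟩ := hη
  -- the level sets are bounded
  have hb : ∀ s, Bornology.IsBounded (Lv C S s) := by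
    intro s
    refine (hη2 ⟪η, s⟫_ℝ).subset fun x hx => ?_
    have h1 := hη1 _ hx
    rw [inner_sub_right] at h1
    change ⟪η, S x⟫_ℝ ≤ ⟪η, s⟫_ℝ
    linarith
  have hf : ∀ s, volume (Lv C S s) ≠ ⊤ := fun s => (hb s).measure_lt_top.ne
  have hv0 : volume (Lv C S s₀) ≠ 0 := by
    have h1 := isOpen_interior.measure_pos (volume : Measure (E m)) hi
    exact (h1.trans_le (measure_mono interior_subset)).ne'
  have hR0 : 0 < vl C S s₀ := ENNReal.toReal_pos hv0 (hf s₀)
  obtain ⟨s₁, hs1, hs2⟩ := near hC hS hf hv0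
  -- the supporting functional
  have hnear : ∀ᶠ w in 𝓝 s₁, vl C S s₀ ≤ vl C S w := by
    have h1 : {w : E r | w - s₀ ∈ interior C} ∈ 𝓝 s₁ :=
      (isOpen_interior.preimage (continuous_id.sub continuous_const)).mem_nhds hs1
    filter_upwards [h1] with w hw
    exact ENNReal.toReal_mono (hf w) (measure_mono (lv_mono hC (interior_subset hw)))
  obtain ⟨g, hg⟩ := (vl_lc hC hS hf).supp hR0 hnear
  obtain ⟨lam, hlam⟩ : ∃ lam : E r, ∀ w, g w = ⟪lam, w⟫_ℝ :=
    ⟨(InnerProductSpace.toDual ℝ (E r)).symm g, fun w => by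
      rw [InnerProductSpace.toDual_symm_apply]⟩
  have hR1 : 0 < vl C S s₁ := hR0.trans_le hnear.self_of_nhds
  have hlD : lam ∈ Du C := by
    intro v hv
    have h1 : vl C S s₁ ≤ vl C S (s₁ + v) :=
      ENNReal.toReal_mono (hf _) (measure_mono (lv_mono hC (by rwa [add_sub_cancel_left])))
    have h2 := hg (s₁ + v)
    rw [map_add, add_sub_cancel_left, hlam] at h2
    have h3 : vl C S s₁ * 1 ≤ vl C S s₁ * Real.exp ⟪lam, v⟫_ℝ := by
      rw [mul_one]
      exact h1.trans h2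
    have h4 := le_of_mul_le_mul_left h3 hR1
    exact Real.one_le_exp_iff.1 h4
  -- perturbation
  obtain ⟨x₀, hx₀⟩ := hi
  have hx1 : x₀ ∈ Lv C S s₀ := interior_subset hx₀
  have hx2 : x₀ ∈ Lv C S s₁ := lv_mono hC (interior_subset hs1) hx1
  have hη3 : 0 ≤ ⟪η, s₁⟫_ℝ := by
    have h1 := hη1 _ hx2
    rw [inner_sub_right] at h1
    have h2 := hS.nn η hη1 x₀
    linarith
  obtain ⟨τ, hτ⟩ : ∃ τ : ℝ, τ = 1 / (1 + ⟪η, s₁⟫_ℝ) := ⟨_, rfl⟩
  have hτ0 : 0 < τ := by rw [hτ]; positivity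
  have hτ1 : τ * ⟪η, s₁⟫_ℝ ≤ 1 := by
    rw [hτ, div_mul_eq_mul_div, one_mul, div_le_one (by positivity)]
    linarith
  obtain ⟨l', hl'⟩ : ∃ l' : E r, l' = lam + τ • η := ⟨_, rfl⟩
  have hl'D : l' ∈ Du C := by
    rw [hl']
    exact Du.add hlD (Du.smul hτ0.le hη1)
  have hl'i : ∀ w, ⟪l', w⟫_ℝ = ⟪lam, w⟫_ℝ + τ * ⟪η, w⟫_ℝ := by
    intro w
    rw [hl', inner_add_left, real_inner_smul_left]
  obtain ⟨e₁, he₁⟩ : ∃ e₁ : ℝ, e₁ = ⟪l', s₁⟫_ℝ + 1 := ⟨_, rfl⟩
  have hvol : ∀ s, ⟪l', s⟫_ℝ ≤ e₁ → vl C S s ≤ 2 * Real.exp 2 * vl C S s₀ := by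
    intro s hs
    rcases (Lv C S s).eq_empty_or_nonempty with h0 | ⟨y, hy⟩
    · unfold vl
      rw [h0, measure_empty, ENNReal.toReal_zero]
      positivity
    have h1 : 0 ≤ ⟪η, s⟫_ℝ := by
      have h1 := hη1 _ hy
      rw [inner_sub_right] at h1
      have h2 := hS.nn η hη1 y
      linarith
    have h2 : g s - g s₁ ≤ 2 := by
      rw [hlam, hlam]
      rw [he₁, hl'i, hl'i] at hs
      have h3 : 0 ≤ τ * ⟪η, s⟫_ℝ := by positivity
      linarith
    calc vl C S s ≤ vl C S s₁ * Real.exp (g s - g s₁) := hg s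
      _ ≤ (2 * vl C S s₀) * Real.exp 2 := by gcongr
      _ = _ := by ring
  -- the level set of the functional
  have hK1b : Bornology.IsBounded {x | ⟪l', S x⟫_ℝ ≤ e₁} := by
    refine (hη2 (e₁ / τ)).subset fun x hx => ?_
    have h1 : ⟪l', S x⟫_ℝ ≤ e₁ := hx
    rw [hl'i] at h1
    have h2 := hS.nn lam hlD x
    change ⟪η, S x⟫_ℝ ≤ e₁ / τ
    rw [le_div_iff₀ hτ0]
    linarith
  have hK1s : Lv C S s₀ ⊆ {x | ⟪l', S x⟫_ℝ ≤ e₁} := by
    intro x hx
    have h1 := hl'D _ (lv_mono hC (interior_subset hs1) hx)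
    rw [inner_sub_right] at h1
    change ⟪l', S x⟫_ℝ ≤ e₁
    linarith
  have hK1 := hbase l' hl'D e₁ hK1b ⟨x₀, interior_mono hK1s hx₀⟩
  -- a bound for the parameters
  obtain ⟨M, hM⟩ : ∃ M : ℝ, ∀ x, ⟪l', S x⟫_ℝ ≤ e₁ → ‖S x‖ ≤ M := by
    have h1 : IsClosed {x | ⟪l', S x⟫_ℝ ≤ e₁} :=
      isClosed_le (continuous_const.inner hS.cont) continuous_const
    have h2 := Metric.isCompact_of_isClosed_isBounded h1 hK1b
    obtain ⟨M, hM⟩ := (h2.image hS.cont).isBounded.exists_norm_le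
    exact ⟨M, fun x hx => hM _ ⟨x, hx, rfl⟩⟩
  obtain ⟨ρ, hρ⟩ : ∃ ρ : ℝ, ρ = max M (max ‖s₀‖ (‖s₁‖ + 1)) := ⟨_, rfl⟩
  have hρM : M ≤ ρ := by rw [hρ]; exact le_max_left _ _
  have hρ0 : ‖s₀‖ ≤ ρ := by rw [hρ]; exact (le_max_left _ _).trans (le_max_right _ _)
  have hρ1 : ‖s₁‖ < ρ := by
    have h1 : ‖s₁‖ + 1 ≤ ρ := by rw [hρ]; exact (le_max_right _ _).trans (le_max_right _ _)
    linarith
  -- the body
  have b1 : IsCompact (Bd C S l' e₁ ρ) := by
    refine Metric.isCompact_of_isClosed_isBounded ?_ ?_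
    · have c1 : IsClosed {z : E m × E r | z.2 - S z.1 ∈ C} :=
        hC.closed.preimage (continuous_snd.sub (hS.cont.comp continuous_fst))
      have c2 : IsClosed {z : E m × E r | ⟪l', z.2⟫_ℝ ≤ e₁} :=
        isClosed_le (continuous_const.inner continuous_snd) continuous_const
      have c3 : IsClosed {z : E m × E r | ‖z.2‖ ≤ ρ} :=
        isClosed_le continuous_snd.norm continuous_const
      exact c1.inter (c2.inter c3)
    · obtain ⟨R, hR⟩ := hK1b.exists_norm_le
      rw [isBounded_iff_forall_norm_le]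
      refine ⟨max R ρ, fun z hz => ?_⟩
      rw [Prod.norm_def]
      refine max_le_max (hR z.1 ?_) hz.2.2
      have h1 := hl'D _ hz.1
      rw [inner_sub_right] at h1
      change ⟪l', S z.1⟫_ℝ ≤ e₁
      linarith [hz.2.1]
  have b2 : Convex ℝ (Bd C S l' e₁ ρ) := by
    intro z hz z' hz' a b ha hb' hab
    refine ⟨?_, ?_, ?_⟩
    · exact lv_comb hC hS.cvx ha hb' hab (s := z.2) (s' := z'.2) hz.1 hz'.1
    · change ⟪l', a • z.2 + b • z'.2⟫_ℝ ≤ e₁
      rw [inner_add_right, inner_smul_right, inner_smul_right]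
      have h1 := mul_le_mul_of_nonneg_left hz.2.1 ha
      have h2 := mul_le_mul_of_nonneg_left hz'.2.1 hb'
      have h3 : a * e₁ + b * e₁ = e₁ := by rw [← add_mul, hab, one_mul]
      linarith
    · change ‖a • z.2 + b • z'.2‖ ≤ ρ
      refine (norm_add_le _ _).trans ?_
      rw [norm_smul, norm_smul, Real.norm_of_nonneg ha, Real.norm_of_nonneg hb']
      have h1 := mul_le_mul_of_nonneg_left hz.2.2 ha
      have h2 := mul_le_mul_of_nonneg_left hz'.2.2 hb'
      have h3 : a * ρ + b * ρ = ρ := by rw [← add_mul, hab, one_mul]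
      linarith
  have b3 : (interior (Bd C S l' e₁ ρ)).Nonempty := by
    have c1 : IsOpen {z : E m × E r | z.2 - S z.1 ∈ interior C} :=
      isOpen_interior.preimage (continuous_snd.sub (hS.cont.comp continuous_fst))
    have c2 : IsOpen {z : E m × E r | ⟪l', z.2⟫_ℝ < e₁} :=
      isOpen_lt (continuous_const.inner continuous_snd) continuous_const
    have c3 : IsOpen {z : E m × E r | ‖z.2‖ < ρ} :=
      isOpen_lt continuous_snd.norm continuous_const
    have hmem : ((x₀, s₁) : E m × E r) ∈ {z : E m × E r | z.2 - S z.1 ∈ interior C} ∩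
        ({z : E m × E r | ⟪l', z.2⟫_ℝ < e₁} ∩ {z : E m × E r | ‖z.2‖ < ρ}) := by
      refine ⟨?_, ?_, hρ1⟩
      · have h1 := hC.add_int hx1 hs1
        have e1 : s₀ - S x₀ + (s₁ - s₀) = s₁ - S x₀ := by abel
        rw [e1] at h1
        exact h1
      · change ⟪l', s₁⟫_ℝ < e₁
        linarith
    have hsub : {z : E m × E r | z.2 - S z.1 ∈ interior C} ∩
        ({z : E m × E r | ⟪l', z.2⟫_ℝ < e₁} ∩ {z : E m × E r | ‖z.2‖ < ρ}) ⊆ Bd C S l' e₁ ρ := by
      rintro z ⟨hz1, hz2, hz3⟩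
      exact ⟨interior_subset hz1, le_of_lt hz2, le_of_lt hz3⟩
    exact ⟨(x₀, s₁), interior_maximal hsub (c1.inter (c2.inter c3)) hmem⟩
  obtain ⟨c1, c2, c3⟩ := prl_body b1 b2 b3
  have himg : prj m r '' (prl m r '' Bd C S l' e₁ ρ) = {x | ⟪l', S x⟫_ℝ ≤ e₁} := by
    rw [prj_image]
    ext x
    constructor
    · rintro ⟨z, hz, rfl⟩
      have h1 := hl'D _ hz.1
      rw [inner_sub_right] at h1
      change ⟪l', S z.1⟫_ℝ ≤ e₁
      linarith [hz.2.1]
    · intro hx
      refine ⟨(x, S x), ⟨?_, hx, (hM x hx).trans hρM⟩, rfl⟩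
      change S x - S x ∈ C
      rw [sub_self]
      exact hC.zero
  have hB : Cy A Q ε d p (h + 1) (m + r) (prl m r '' Bd C S l' e₁ ρ) := by
    refine .lift h (m + r) m _ (prj m r) (by omega) (prj_surj m r) c1 c2 c3 ?_
    rw [himg]
    exact hK1
  have hpre : prl m r ⁻¹' (prl m r '' Bd C S l' e₁ ρ) = Bd C S l' e₁ ρ :=
    preimage_image_eq _ (prl m r).injective
  have hsl : sl (prl m r ⁻¹' (prl m r '' Bd C S l' e₁ ρ)) s₀ = Lv C S s₀ := by
    rw [hpre]
    ext x
    constructor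
    · intro hx
      exact hx.1
    · intro hx
      refine ⟨hx, ?_, hρ0⟩
      have h1 := hl'D _ (interior_subset hs1)
      rw [inner_sub_right] at h1
      change ⟪l', s₀⟫_ℝ ≤ e₁
      linarith
  have hfin := Cy.sec (A := A) (Q := Q) (ε := ε) (d := d) (r := p) (h + 1) m r (m + r) _
    (prl m r) s₀ hd hB (fun t' => by
      have h1 : Rv (prl m r ⁻¹' (prl m r '' Bd C S l' e₁ ρ)) s₀ = vl C S s₀ := by
        unfold Rv vl
        rw [hsl]
      rw [h1]
      have h2 : Rv (prl m r ⁻¹' (prl m r '' Bd C S l' e₁ ρ)) t' ≤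
          2 * Real.exp 2 * vl C S s₀ := by
        by_cases ht : ⟪l', t'⟫_ℝ ≤ e₁
        · refine le_trans ?_ (hvol t' ht)
          refine ENNReal.toReal_mono (hf t') (measure_mono fun x hx => ?_)
          rw [hpre] at hx
          exact hx.1
        · have h3 : sl (prl m r ⁻¹' (prl m r '' Bd C S l' e₁ ρ)) t' = ∅ := by
            rw [hpre, eq_empty_iff_forall_notMem]
            intro x hx
            exact ht hx.2.1
          unfold Rv
          rw [h3, measure_empty, ENNReal.toReal_zero]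
          positivity
      have h3 : 0 ≤ Rv (prl m r ⁻¹' (prl m r '' Bd C S l' e₁ ρ)) t' :=
        Pool.Agent.R754.KG.R_nonneg t'
      calc ε * Rv (prl m r ⁻¹' (prl m r '' Bd C S l' e₁ ρ)) t' ≤
            (2 * Real.exp 2)⁻¹ * Rv (prl m r ⁻¹' (prl m r '' Bd C S l' e₁ ρ)) t' := by gcongr
        _ ≤ (2 * Real.exp 2)⁻¹ * (2 * Real.exp 2 * vl C S s₀) := by gcongr
        _ = vl C S s₀ := by
          rw [inv_mul_cancel_left₀ (by positivity)])
  rw [hsl] at hfin
  exact hfin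

end Pool.Agent.V7H69.EM
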