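import Pool.Agent.V7H69.EM.Sc

/-!
# Sets defined by convex constraints on the values of a convex map
-/

set_option autoImplicit false

namespace Pool.Agent.V7H69.EM

open MeasureTheory Set Filter Topology
open scoped ENNReal InnerProductSpace
open Pool.Agent.R754.KG (E un sl Rv)
open Pool.Agent.R755.KF
open Pool.Agent.R755.KS
open Pool.Agent.N483.KM (Cy)
open Pool.Agent.V7H69.EL (coords)

variable {r m : ℕ} {D : Set (E r)} {S : E m → E r}

/-- the vectors `v` with `D - v ⊆ D` -/
def rc (D : Set (E r)) : Set (E r) := {v | ∀ s ∈ D, s - v ∈ D}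

theorem rc_closed (hD : IsClosed D) : IsClosed (rc D) := by
  have e1 : rc D = ⋂ s ∈ D, {v | s - v ∈ D} := by
    ext v
    simp [rc]
  rw [e1]
  exact isClosed_biInter fun s _ => hD.preimage (continuous_const.sub continuous_id)

theorem rc_convex (hD : Convex ℝ D) : Convex ℝ (rc D) := by
  intro v hv v' hv' a b ha hb hab s hs
  have h1 := hD (hv s hs) (hv' s hs) ha hb hab
  have e1 : a • (s - v) + b • (s - v') = (a + b) • s - (a • v + b • v') := by module
  rwa [e1, hab, one_smul] at h1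

theorem rc_smul (hD : Convex ℝ D) (t : ℝ) (ht : 0 ≤ t) (v : E r) (hv : v ∈ rc D) :
    t • v ∈ rc D := by
  have h1 : ∀ n : ℕ, (n : ℝ) • v ∈ rc D := by
    intro n
    induction n with
    | zero => intro s hs; simpa using hs
    | succ n ih =>
      intro s hs
      have h2 := hv _ (ih s hs)
      have e1 : s - (n : ℝ) • v - v = s - ((n + 1 : ℕ) : ℝ) • v := by
        push_cast
        module
      rwa [e1] at h2
  obtain ⟨n, hn⟩ := exists_nat_ge (t + 1)
  have hn0 : 0 < (n : ℝ) := by linarith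
  intro s hs
  have h2 := hD hs (h1 n s hs) (show 0 ≤ 1 - t / n by
    rw [sub_nonneg, div_le_one hn0]
    linarith) (show 0 ≤ t / n by positivity) (by ring)
  have e1 : (1 - t / n) • s + (t / n) • (s - (n : ℝ) • v) = s - t • v := by
    have : t / n * n = t := by field_simp
    rw [smul_sub, smul_smul, this]
    module
  rwa [e1] at h2

theorem rc_cn (hD : IsClosed D) (hD' : Convex ℝ D) (hi : (interior (rc D)).Nonempty) :
    Cn (rc D) where
  closed := rc_closed hD
  convex := rc_convex hD'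
  smul := rc_smul hD'
  int := hi

/-- the body over the values -/
def Bv {m : ℕ} (D : Set (E r)) (S : E m → E r) (ρ : ℝ) : Set (E m × E r) :=
  {z | z.2 ∈ D ∧ z.2 - S z.1 ∈ rc D ∧ ‖z.2‖ ≤ ρ}

/-- sets defined by a constraint on the values, with a strict point -/
theorem dcore {A : ℝ → ℝ} {Q ε : ℝ} {d p h : ℕ} (hD : IsClosed D) (hD' : Convex ℝ D)
    (hDi : (interior (rc D)).Nonempty) (hSc : Continuous S)
    (hSv : ∀ θ ∈ Du (rc D), ConvexOn ℝ univ fun x => ⟪θ, S x⟫_ℝ) (hε : ε ≤ (2 * Real.exp 2)⁻¹)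
    (hd : r ≤ d) (hp : r ≤ p) (hR : Res A Q ε d p h r (rc D) S)
    (hb : Bornology.IsBounded {x | S x ∈ D}) (hs : ∃ x, S x ∈ interior D) :
    Cy A Q ε d p (h + 5) m {x | S x ∈ D} := by
  have hC := rc_cn hD hD' hDi
  obtain ⟨x₁, hx₁⟩ := hs
  obtain ⟨u, hu⟩ := hDi
  have hKc : IsCompact {x | S x ∈ D} :=
    Metric.isCompact_of_isClosed_isBounded (hD.preimage hSc) hb
  obtain ⟨M, hM⟩ := (hKc.image hSc).isBounded.exists_norm_le
  have hx1D : S x₁ ∈ D := interior_subset hx₁
  have hM1 : ‖S x₁‖ ≤ M := hM _ ⟨x₁, hx1D, rfl⟩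
  -- a point in the interior
  obtain ⟨η, hη0, hη1, hη2⟩ : ∃ η : ℝ, 0 < η ∧ S x₁ + η • u ∈ interior D ∧
      ‖S x₁ + η • u‖ < M + 1 := by
    have hc : Continuous fun η : ℝ => S x₁ + η • u := by fun_prop
    have h0 : (fun η : ℝ => S x₁ + η • u) 0 = S x₁ := by simp
    have h1 : ∀ᶠ η : ℝ in 𝓝 0, S x₁ + η • u ∈ interior D :=
      hc.continuousAt.eventually (isOpen_interior.mem_nhds (by rw [h0]; exact hx₁))
    have h2 : ∀ᶠ η : ℝ in 𝓝 0, ‖S x₁ + η • u‖ < M + 1 := by
      refine hc.norm.continuousAt.eventually (gt_mem_nhds ?_)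
      change ‖(fun η : ℝ => S x₁ + η • u) 0‖ < M + 1
      rw [h0]
      linarith
    obtain ⟨δ, hδ, hball⟩ := Metric.eventually_nhds_iff.1 (h1.and h2)
    have h3 := hball (y := δ / 2) (by
      rw [Real.dist_eq, sub_zero, abs_of_pos (by positivity)]
      linarith)
    exact ⟨δ / 2, by positivity, h3.1, h3.2⟩
  -- the body
  have b1 : IsCompact (Bv D S (M + 1)) := by
    refine Metric.isCompact_of_isClosed_isBounded ?_ ?_
    · exact (hD.preimage continuous_snd).inter
        ((hC.closed.preimage (continuous_snd.sub (hSc.comp continuous_fst))).inter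
          (isClosed_le continuous_snd.norm continuous_const))
    · obtain ⟨R, hR⟩ := hb.exists_norm_le
      rw [isBounded_iff_forall_norm_le]
      refine ⟨max R (M + 1), fun z hz => ?_⟩
      rw [Prod.norm_def]
      refine max_le_max (hR z.1 ?_) hz.2.2
      have h1 := hz.2.1 _ hz.1
      rwa [sub_sub_cancel] at h1
  have b2 : Convex ℝ (Bv D S (M + 1)) := by
    intro z hz z' hz' a b ha hb' hab
    refine ⟨hD' hz.1 hz'.1 ha hb' hab, ?_, ?_⟩
    · exact lv_comb hC hSv ha hb' hab (s := z.2) (s' := z'.2) hz.2.1 hz'.2.1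
    · change ‖a • z.2 + b • z'.2‖ ≤ M + 1
      refine (norm_add_le _ _).trans ?_
      rw [norm_smul, norm_smul, Real.norm_of_nonneg ha, Real.norm_of_nonneg hb']
      have h1 := mul_le_mul_of_nonneg_left hz.2.2 ha
      have h2 := mul_le_mul_of_nonneg_left hz'.2.2 hb'
      have h3 : a * (M + 1) + b * (M + 1) = M + 1 := by rw [← add_mul, hab, one_mul]
      linarith
  have b3 : (interior (Bv D S (M + 1))).Nonempty := by
    have c1 : IsOpen {z : E m × E r | z.2 ∈ interior D} := isOpen_interior.preimage continuous_snd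
    have c2 : IsOpen {z : E m × E r | z.2 - S z.1 ∈ interior (rc D)} :=
      isOpen_interior.preimage (continuous_snd.sub (hSc.comp continuous_fst))
    have c3 : IsOpen {z : E m × E r | ‖z.2‖ < M + 1} :=
      isOpen_lt continuous_snd.norm continuous_const
    have hmem : ((x₁, S x₁ + η • u) : E m × E r) ∈ {z : E m × E r | z.2 ∈ interior D} ∩
        ({z : E m × E r | z.2 - S z.1 ∈ interior (rc D)} ∩ {z : E m × E r | ‖z.2‖ < M + 1}) := by
      refine ⟨hη1, ?_, hη2⟩
      change S x₁ + η • u - S x₁ ∈ interior (rc D)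
      rw [add_sub_cancel_left]
      exact hC.smul_int hη0 hu
    have hsub : {z : E m × E r | z.2 ∈ interior D} ∩
        ({z : E m × E r | z.2 - S z.1 ∈ interior (rc D)} ∩ {z : E m × E r | ‖z.2‖ < M + 1}) ⊆
        Bv D S (M + 1) := by
      rintro z ⟨hz1, hz2, hz3⟩
      exact ⟨interior_subset hz1, interior_subset hz2, le_of_lt hz3⟩
    exact ⟨(x₁, S x₁ + η • u), interior_maximal hsub (c1.inter (c2.inter c3)) hmem⟩
  obtain ⟨c1, c2, c3⟩ := prl_body b1 b2 b3
  have himg : prj m r '' (prl m r '' Bv D S (M + 1)) = {x | S x ∈ D} := by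
    rw [prj_image]
    ext x
    constructor
    · rintro ⟨z, hz, rfl⟩
      have h1 := hz.2.1 _ hz.1
      rwa [sub_sub_cancel] at h1
    · intro hx
      refine ⟨(x, S x), ⟨hx, ?_, ?_⟩, rfl⟩
      · change S x - S x ∈ rc D
        rw [sub_self]
        exact hC.zero
      · have := hM _ ⟨x, hx, rfl⟩
        change ‖S x‖ ≤ M + 1
        linarith
  have hpre : prl m r ⁻¹' (prl m r '' Bv D S (M + 1)) = Bv D S (M + 1) :=
    preimage_image_eq _ (prl m r).injective
  have hF := cb_pre (prl m r) c1 c2 c3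
  obtain ⟨t, ht0, ht⟩ := Pool.Agent.N348.KM.MXF.t_MXF m r (prl m r ⁻¹' (prl m r '' Bv D S (M + 1))) hF
  have hv : volume (sl (prl m r ⁻¹' (prl m r '' Bv D S (M + 1))) t) ≠ 0 :=
    Pool.Agent.N483.KM.vol_ne_of_pos ht0
  have hint := int_of_vol (sl_conv hF t) hv
  have hbd := (sl_comp hF t).isBounded
  have hfib : sl (prl m r ⁻¹' (prl m r '' Bv D S (M + 1))) t = Lv (rc D) S t := by
    obtain ⟨y, hy⟩ := hint
    have hy0 : y ∈ sl (prl m r ⁻¹' (prl m r '' Bv D S (M + 1))) t := interior_subset hy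
    have hy1 : (y, t) ∈ prl m r ⁻¹' (prl m r '' Bv D S (M + 1)) := hy0
    rw [hpre] at hy1 ⊢
    ext x
    constructor
    · intro hx
      exact hx.2.1
    · intro hx
      exact ⟨hy1.1, hx, hy1.2.2⟩
  rw [hfib] at hint hbd
  have h1 : Cy A Q ε d p (h + 4) (m + r) (prl m r '' Bv D S (M + 1)) := by
    refine .ext (h + 3) m r (m + r) _ (prl m r) t hd c1 c2 c3
      (large_of_max (eps_one hε) ht) ?_
    rw [hfib]
    exact score hC hSc hSv hε hd hp hR t hbd hint
  have h2 := Cy.image (h + 4) (m + r) m _ (prj m r) 0 (by omega) (prj_surj m r) h1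
  have e1 : (fun x => (0 : E m) + prj m r x) '' (prl m r '' Bv D S (M + 1)) =
      {x | S x ∈ D} := by
    simp only [zero_add]
    exact himg
  rwa [e1] at h2

end Pool.Agent.V7H69.EM
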