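import Pool.Agent.V7H69.EM.CoU

/-!
# Images of sets defined by convex constraints on the values of a convex map
-/

set_option autoImplicit false

namespace Pool.Agent.V7H69.EM

open MeasureTheory Set Filter Topology
open scoped ENNReal InnerProductSpace
open Pool.Agent.R754.KG (E un sl Rv)
open Pool.Agent.R755.KF
open Pool.Agent.R755.KS
open Pool.Agent.N483.KM (Cy)

variable {r m n : ℕ} {D : Set (E r)} {S : E m → E r}

theorem sub_int {s u : E r} (hC : Cn (rc D)) (hs : s ∈ D) (hu : u ∈ interior (rc D)) {τ : ℝ}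
    (hτ : 0 < τ) : s - τ • u ∈ interior D := by
  have ho : IsOpen {s' | s - s' ∈ interior (rc D)} :=
    isOpen_interior.preimage (continuous_const.sub continuous_id)
  refine interior_maximal (fun s' hs' => ?_) ho ?_
  · have h1 : s - s' ∈ rc D := interior_subset (s := rc D) hs'
    have h2 := h1 _ hs
    rwa [sub_sub_cancel] at h2
  · change s - (s - τ • u) ∈ interior (rc D)
    rw [sub_sub_cancel]
    exact hC.smul_int hτ hu

/-- images of sets defined by a constraint on the values, with a strict point -/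
theorem dcoreT {A : ℝ → ℝ} {Q ε : ℝ} {d p h : ℕ} (hD : IsClosed D) (hD' : Convex ℝ D)
    (hDi : (interior (rc D)).Nonempty) {η : E r} (hS : Cf (rc D) S η) (T : E m →ₗ[ℝ] E n)
    (hT : Function.Surjective T) (hε : ε ≤ (2 * Real.exp 2)⁻¹) (hd : r ≤ d) (hp : r ≤ p)
    (hbase : ∀ θ ∈ Du (rc D), ∀ e : ℝ, Bornology.IsBounded {x | ⟪θ, S x⟫_ℝ ≤ e} →
      (interior (T '' {x | ⟪θ, S x⟫_ℝ ≤ e})).Nonempty →
      Cy A Q ε d p h n (T '' {x | ⟪θ, S x⟫_ℝ ≤ e}))
    (hb : Bornology.IsBounded {x | S x ∈ D}) (hs : ∃ x, S x ∈ interior D) :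
    Cy A Q ε d p (h + 4) n (T '' {x | S x ∈ D}) := by
  have hC := rc_cn hD hD' hDi
  have hSc := hS.cont
  have hSv := hS.cvx
  obtain ⟨x₁, hx₁⟩ := hs
  obtain ⟨u, hu⟩ := hDi
  have hKc : IsCompact {x | S x ∈ D} :=
    Metric.isCompact_of_isClosed_isBounded (hD.preimage hSc) hb
  obtain ⟨M, hM⟩ := (hKc.image hSc).isBounded.exists_norm_le
  have hx1D : S x₁ ∈ D := interior_subset hx₁
  have hM1 : ‖S x₁‖ ≤ M := hM _ ⟨x₁, hx1D, rfl⟩
  -- a point in the interior
  obtain ⟨μ, hμ0, hμ1, hμ2⟩ : ∃ μ : ℝ, 0 < μ ∧ S x₁ + μ • u ∈ interior D ∧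
      ‖S x₁ + μ • u‖ < M + 1 := by
    have hc : Continuous fun μ : ℝ => S x₁ + μ • u := by fun_prop
    have h0 : (fun μ : ℝ => S x₁ + μ • u) 0 = S x₁ := by simp
    have h1 : ∀ᶠ μ : ℝ in 𝓝 0, S x₁ + μ • u ∈ interior D :=
      hc.continuousAt.eventually (isOpen_interior.mem_nhds (by rw [h0]; exact hx₁))
    have h2 : ∀ᶠ μ : ℝ in 𝓝 0, ‖S x₁ + μ • u‖ < M + 1 := by
      refine hc.norm.continuousAt.eventually (gt_mem_nhds ?_)
      change ‖(fun μ : ℝ => S x₁ + μ • u) 0‖ < M + 1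
      rw [h0]
      linarith
    obtain ⟨δ, hδ, hball⟩ := Metric.eventually_nhds_iff.1 (h1.and h2)
    have h3 := hball (y := δ / 2) (by
      rw [Real.dist_eq, sub_zero, abs_of_pos (by positivity)]
      linarith)
    exact ⟨δ / 2, by positivity, h3.1, h3.2⟩
  -- the body
  have b1 : IsCompact (Bv D S (M + 1)) := by
    refine Metric.isCompact_of_isClosed_isBounded ?_ ?_
    · exact (hD.preimage continuous_snd).inter
        ((hC.closed.preimage (continuous_snd.sub (hSc.comp continuous_fst))).inter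
          (isClosed_le continuous_snd.norm continuous_const))
    · obtain ⟨R, hR⟩ := hb.exists_norm_le
      rw [isBounded_iff_forall_norm_le]
      refine ⟨max R (M + 1), fun z hz => ?_⟩
      rw [Prod.norm_def]
      refine max_le_max (hR z.1 ?_) hz.2.2
      have h1 := hz.2.1 _ hz.1
      rwa [sub_sub_cancel] at h1
  have b2 : Convex ℝ (Bv D S (M + 1)) := by
    intro z hz z' hz' a b ha hb' hab
    refine ⟨hD' hz.1 hz'.1 ha hb' hab, ?_, ?_⟩
    · exact lv_comb hC hSv ha hb' hab (s := z.2) (s' := z'.2) hz.2.1 hz'.2.1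
    · change ‖a • z.2 + b • z'.2‖ ≤ M + 1
      refine (norm_add_le _ _).trans ?_
      rw [norm_smul, norm_smul, Real.norm_of_nonneg ha, Real.norm_of_nonneg hb']
      have h1 := mul_le_mul_of_nonneg_left hz.2.2 ha
      have h2 := mul_le_mul_of_nonneg_left hz'.2.2 hb'
      have h3 : a * (M + 1) + b * (M + 1) = M + 1 := by rw [← add_mul, hab, one_mul]
      linarith
  have b3 : (interior (Bv D S (M + 1))).Nonempty := by
    have c1 : IsOpen {z : E m × E r | z.2 ∈ interior D} := isOpen_interior.preimage continuous_snd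
    have c2 : IsOpen {z : E m × E r | z.2 - S z.1 ∈ interior (rc D)} :=
      isOpen_interior.preimage (continuous_snd.sub (hSc.comp continuous_fst))
    have c3 : IsOpen {z : E m × E r | ‖z.2‖ < M + 1} :=
      isOpen_lt continuous_snd.norm continuous_const
    have hmem : ((x₁, S x₁ + μ • u) : E m × E r) ∈ {z : E m × E r | z.2 ∈ interior D} ∩
        ({z : E m × E r | z.2 - S z.1 ∈ interior (rc D)} ∩ {z : E m × E r | ‖z.2‖ < M + 1}) := by
      refine ⟨hμ1, ?_, hμ2⟩
      change S x₁ + μ • u - S x₁ ∈ interior (rc D)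
      rw [add_sub_cancel_left]
      exact hC.smul_int hμ0 hu
    have hsub : {z : E m × E r | z.2 ∈ interior D} ∩
        ({z : E m × E r | z.2 - S z.1 ∈ interior (rc D)} ∩ {z : E m × E r | ‖z.2‖ < M + 1}) ⊆
        Bv D S (M + 1) := by
      rintro z ⟨hz1, hz2, hz3⟩
      exact ⟨interior_subset hz1, interior_subset hz2, le_of_lt hz3⟩
    exact ⟨(x₁, S x₁ + μ • u), interior_maximal hsub (c1.inter (c2.inter c3)) hmem⟩
  obtain ⟨BT, hBT⟩ : ∃ BT : Set (E n × E r), BT = (T.prodMap LinearMap.id) '' Bv D S (M + 1) :=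
    ⟨_, rfl⟩
  obtain ⟨d1, d2, d3⟩ := img_body T hT b1 b2 b3
  rw [← hBT] at d1 d2 d3
  obtain ⟨c1, c2, c3⟩ := prl_body d1 d2 d3
  have himg : prj n r '' (prl n r '' BT) = T '' {x | S x ∈ D} := by
    rw [prj_image, hBT, img_fst]
    congr 1
    ext x
    constructor
    · rintro ⟨z, hz, rfl⟩
      have h1 := hz.2.1 _ hz.1
      rwa [sub_sub_cancel] at h1
    · intro hx
      refine ⟨(x, S x), ⟨hx, ?_, ?_⟩, rfl⟩
      · change S x - S x ∈ rc D
        rw [sub_self]
        exact hC.zero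
      · have := hM _ ⟨x, hx, rfl⟩
        change ‖S x‖ ≤ M + 1
        linarith
  have hpre : prl n r ⁻¹' (prl n r '' BT) = BT := preimage_image_eq _ (prl n r).injective
  have hF := cb_pre (prl n r) c1 c2 c3
  obtain ⟨t, ht0, ht⟩ := Pool.Agent.N348.KM.MXF.t_MXF n r (prl n r ⁻¹' (prl n r '' BT)) hF
  have hv : volume (sl (prl n r ⁻¹' (prl n r '' BT)) t) ≠ 0 :=
    Pool.Agent.N483.KM.vol_ne_of_pos ht0
  have hint := int_of_vol (sl_conv hF t) hv
  have hfib : sl (prl n r ⁻¹' (prl n r '' BT)) t = T '' Lv (rc D) S t := by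
    obtain ⟨y, hy⟩ := hint
    have hy0 : y ∈ sl (prl n r ⁻¹' (prl n r '' BT)) t := interior_subset hy
    rw [hpre, hBT, img_sl] at hy0 ⊢
    obtain ⟨x₂, hx₂, -⟩ := hy0
    congr 1
    ext x
    constructor
    · intro hx
      exact hx.2.1
    · intro hx
      exact ⟨hx₂.1, hx, hx₂.2.2⟩
  rw [hfib] at hint
  have h1 : Cy A Q ε d p (h + 3) (n + r) (prl n r '' BT) := by
    refine .ext (h + 2) n r (n + r) _ (prl n r) t hd c1 c2 c3
      (large_of_max (eps_one hε) ht) ?_
    rw [hfib]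
    exact coreT hC hS T hT hε hd hp hbase t hint
  have h2 := Cy.image (h + 3) (n + r) n _ (prj n r) 0 (by omega) (prj_surj n r) h1
  have e1 : (fun x => (0 : E n) + prj n r x) '' (prl n r '' BT) = T '' {x | S x ∈ D} := by
    simp only [zero_add]
    exact himg
  rwa [e1] at h2

/-- small enlargements are bounded -/
theorem sh_bdd (hD : IsClosed D) (hD' : Convex ℝ D) (hC : Cn (rc D)) (hSc : Continuous S)
    (hSv : ∀ θ ∈ Du (rc D), ConvexOn ℝ univ fun x => ⟪θ, S x⟫_ℝ) {u : E r} (hu : u ∈ rc D)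
    (hb : Bornology.IsBounded {x | S x ∈ D}) {x₀ : E m} (hx₀ : S x₀ ∈ D) :
    ∃ n₀ : ℕ, Bornology.IsBounded {x | S x ∈ Sh D u (1 / ((n₀ : ℝ) + 1))} := by
  have e0 : {x | S x ∈ Sh D u 0} = {x | S x ∈ D} := by
    ext x
    change S x - (0 : ℝ) • u ∈ D ↔ S x ∈ D
    rw [zero_smul, sub_zero]
  let τ : ℕ → ℝ := fun n => 1 / ((n : ℝ) + 1)
  have hτ : ∀ n, 0 < τ n := fun n => by
    change 0 < 1 / ((n : ℝ) + 1)
    positivity
  have hτa : Antitone τ := by
    intro a b hab
    have h1 : (a : ℝ) ≤ b := by exact_mod_cast hab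
    change 1 / ((b : ℝ) + 1) ≤ 1 / ((a : ℝ) + 1)
    apply one_div_le_one_div_of_le <;> [positivity; linarith]
  have hcl : ∀ t, IsClosed {x | S x ∈ Sh D u t} := fun t => (sh_closed hD u t).preimage hSc
  have hanti : Antitone fun n => {x | S x ∈ Sh D u (τ n)} := by
    intro a b hab x hx
    exact sh_mono hD' hu (hτa hab) hx
  obtain ⟨R, hR⟩ := hb.exists_norm_le
  have hR0 : 0 ≤ R := (norm_nonneg _).trans (hR _ hx₀)
  by_contra hcon
  push Not at hcon
  have h1 : ∀ n, ({x | S x ∈ Sh D u (τ n)} ∩ Metric.sphere 0 (R + 1)).Nonempty := by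
    intro n
    obtain ⟨z, hz, hzR⟩ : ∃ z ∈ {x | S x ∈ Sh D u (τ n)}, R + 1 < ‖z‖ := by
      by_contra hcon'
      push Not at hcon'
      apply hcon n
      rw [isBounded_iff_forall_norm_le]
      exact ⟨R + 1, hcon'⟩
    have hc : ContinuousOn (fun t : ℝ => ‖x₀ + t • (z - x₀)‖) (Icc 0 1) := by fun_prop
    have h2 := intermediate_value_Icc zero_le_one hc
    have h3 : R + 1 ∈ Icc ((fun t : ℝ => ‖x₀ + t • (z - x₀)‖) 0)
        ((fun t : ℝ => ‖x₀ + t • (z - x₀)‖) 1) := by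
      constructor
      · simp only [zero_smul, add_zero]
        linarith [hR _ hx₀]
      · simp only [one_smul, add_sub_cancel]
        exact hzR.le
    obtain ⟨t, ht, ht'⟩ := h2 h3
    have hx0n : S x₀ ∈ Sh D u (τ n) := by
      have : x₀ ∈ {x | S x ∈ Sh D u 0} := by rw [e0]; exact hx₀
      exact sh_mono hD' hu (hτ n).le this
    have h4 := sh_comb hD' hC hSv u (sub_nonneg.2 ht.2) ht.1 (by ring) hx0n hz
    have e1 : (1 - t) * τ n + t * τ n = τ n := by ring
    have e2 : (1 - t) • x₀ + t • z = x₀ + t • (z - x₀) := by module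
    rw [e1, e2] at h4
    exact ⟨_, h4, by rw [mem_sphere_zero_iff_norm]; exact ht'⟩
  have h2 := IsCompact.nonempty_iInter_of_sequence_nonempty_isCompact_isClosed
    (fun n => {x | S x ∈ Sh D u (τ n)} ∩ Metric.sphere (0 : E m) (R + 1))
    (fun n => inter_subset_inter_left _ (hanti (Nat.le_succ n))) h1
    ((isCompact_sphere _ _).inter_left (hcl _))
    (fun n => (hcl _).inter Metric.isClosed_sphere)
  obtain ⟨y, hy⟩ := h2
  have h3 : y ∈ {x | S x ∈ D} := by
    have h1 : ∀ n, S y - τ n • u ∈ D := fun n => (mem_iInter.1 hy n).1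
    have h2 : Tendsto (fun n => S y - τ n • u) atTop (𝓝 (S y - (0 : ℝ) • u)) :=
      tendsto_const_nhds.sub (tendsto_one_div_add_atTop_nhds_zero_nat.smul_const u)
    rw [zero_smul, sub_zero] at h2
    exact hD.mem_of_tendsto h2 (Eventually.of_forall h1)
  have h4 : ‖y‖ = R + 1 := mem_sphere_zero_iff_norm.1 (mem_iInter.1 hy 0).2
  linarith [hR _ h3]

/-- small enlargements have images of almost the same volume -/
theorem sh_nearT (hD : IsClosed D) (hD' : Convex ℝ D) (hC : Cn (rc D)) (hSc : Continuous S)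
    (hSv : ∀ θ ∈ Du (rc D), ConvexOn ℝ univ fun x => ⟪θ, S x⟫_ℝ) {u : E r} (hu : u ∈ rc D)
    (hb : Bornology.IsBounded {x | S x ∈ D}) {x₀ : E m} (hx₀ : S x₀ ∈ D) (T : E m →ₗ[ℝ] E n)
    (hv : volume (T '' {x | S x ∈ D}) ≠ 0) :
    ∃ δ : ℝ, 0 < δ ∧ Bornology.IsBounded {x | S x ∈ Sh D u δ} ∧
      volume (T '' {x | S x ∈ Sh D u δ}) ≤ 2 * volume (T '' {x | S x ∈ D}) := by
  obtain ⟨n₀, hn₀⟩ := sh_bdd hD hD' hC hSc hSv hu hb hx₀
  let τ : ℕ → ℝ := fun n => 1 / (((n + n₀ : ℕ) : ℝ) + 1)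
  have hτ : ∀ n, 0 < τ n := fun n => by
    change 0 < 1 / (((n + n₀ : ℕ) : ℝ) + 1)
    positivity
  have hτa : Antitone τ := by
    intro a b hab
    have h1 : ((a + n₀ : ℕ) : ℝ) ≤ ((b + n₀ : ℕ) : ℝ) := by exact_mod_cast Nat.add_le_add_right hab n₀
    change 1 / (((b + n₀ : ℕ) : ℝ) + 1) ≤ 1 / (((a + n₀ : ℕ) : ℝ) + 1)
    apply one_div_le_one_div_of_le <;> [positivity; linarith]
  have hcl : ∀ t, IsClosed {x | S x ∈ Sh D u t} := fun t => (sh_closed hD u t).preimage hSc
  have hanti : Antitone fun n => {x | S x ∈ Sh D u (τ n)} := by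
    intro a b hab x hx
    exact sh_mono hD' hu (hτa hab) hx
  have hbd : ∀ n, Bornology.IsBounded {x | S x ∈ Sh D u (τ n)} := by
    intro n
    refine hn₀.subset fun x hx => sh_mono hD' hu ?_ hx
    change 1 / (((n + n₀ : ℕ) : ℝ) + 1) ≤ 1 / ((n₀ : ℝ) + 1)
    apply one_div_le_one_div_of_le (by positivity)
    push_cast
    have : (0 : ℝ) ≤ n := Nat.cast_nonneg n
    linarith
  have hint : ⋂ n, {x | S x ∈ Sh D u (τ n)} = {x | S x ∈ D} := by
    ext x
    constructor
    · intro hx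
      have h1 : ∀ n, S x - τ n • u ∈ D := fun n => mem_iInter.1 hx n
      have h0 : Tendsto τ atTop (𝓝 0) :=
        (tendsto_add_atTop_iff_nat (f := fun n : ℕ => 1 / ((n : ℝ) + 1)) n₀).2
          tendsto_one_div_add_atTop_nhds_zero_nat
      have h2 : Tendsto (fun n => S x - τ n • u) atTop (𝓝 (S x - (0 : ℝ) • u)) :=
        tendsto_const_nhds.sub (h0.smul_const u)
      rw [zero_smul, sub_zero] at h2
      exact hD.mem_of_tendsto h2 (Eventually.of_forall h1)
    · intro hx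
      have h0 : S x ∈ Sh D u 0 := by
        change S x - (0 : ℝ) • u ∈ D
        rw [zero_smul, sub_zero]
        exact hx
      exact mem_iInter.2 fun n => sh_mono hD' hu (hτ n).le h0
  obtain ⟨k, hk⟩ := vol_im (fun n => Metric.isCompact_of_isClosed_isBounded (hcl (τ n)) (hbd n))
    hanti T (by rw [hint]; exact hv)
  rw [hint] at hk
  exact ⟨τ k, hτ k, hbd k, hk⟩

/-- images of sets defined by a constraint on the values -/
theorem ncoreT {A : ℝ → ℝ} {Q ε : ℝ} {d p h : ℕ} (hD : IsClosed D) (hD' : Convex ℝ D)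
    (hDi : (interior (rc D)).Nonempty) {η : E r} (hS : Cf (rc D) S η) (T : E m →ₗ[ℝ] E n)
    (hT : Function.Surjective T) (hε : ε ≤ (2 * Real.exp 2)⁻¹) (hd : r ≤ d) (hp : r ≤ p)
    (hd1 : 1 ≤ d) (hp1 : 1 ≤ p)
    (hbase : ∀ θ ∈ Du (rc D), ∀ e : ℝ, Bornology.IsBounded {x | ⟪θ, S x⟫_ℝ ≤ e} →
      (interior (T '' {x | ⟪θ, S x⟫_ℝ ≤ e})).Nonempty →
      Cy A Q ε d p h n (T '' {x | ⟪θ, S x⟫_ℝ ≤ e}))
    (hb : Bornology.IsBounded {x | S x ∈ D}) (hi : (interior (T '' {x | S x ∈ D})).Nonempty) :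
    Cy A Q ε d p (h + 6) n (T '' {x | S x ∈ D}) := by
  have hC := rc_cn hD hD' hDi
  have hSc := hS.cont
  have hSv := hS.cvx
  have hTc : Continuous T := T.continuous_of_finiteDimensional
  obtain ⟨u, hu⟩ := hDi
  have hu' : u ∈ rc D := interior_subset hu
  obtain ⟨x₀, hx₀⟩ : ∃ x₀, S x₀ ∈ D := by
    obtain ⟨y, hy⟩ := hi
    obtain ⟨x₀, hx₀, -⟩ := interior_subset hy
    exact ⟨x₀, hx₀⟩
  have hv0 : volume (T '' {x | S x ∈ D}) ≠ 0 := by
    have h1 := isOpen_interior.measure_pos (volume : Measure (E n)) hi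
    exact (h1.trans_le (measure_mono interior_subset)).ne'
  have hfin : volume (T '' {x | S x ∈ D}) ≠ ⊤ :=
    ((Metric.isCompact_of_isClosed_isBounded (hD.preimage hSc) hb).image hTc).measure_lt_top.ne
  obtain ⟨δ, hδ, hδb, hδv⟩ := sh_nearT hD hD' hC hSc hSv hu' hb hx₀ T hv0
  have e0 : Sh D u 0 = D := by
    ext s
    change s - (0 : ℝ) • u ∈ D ↔ s ∈ D
    rw [zero_smul, sub_zero]
  -- the large set
  have hL : Cy A Q ε d p (h + 4) n (T '' {x | S x ∈ Sh D u δ}) := by
    refine dcoreT (D := Sh D u δ) (η := η) (sh_closed hD u δ) (sh_convex hD' u δ) ?_ ?_ T hT hε hd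
      hp ?_ hδb ?_
    · rw [sh_rc]; exact ⟨u, hu⟩
    · rw [sh_rc]; exact hS
    · rw [sh_rc]; exact hbase
    · refine ⟨x₀, ?_⟩
      have ho : IsOpen {s | s - δ • u ∈ interior D} :=
        isOpen_interior.preimage (continuous_id.sub continuous_const)
      refine interior_maximal (fun s hs => ?_) ho (sub_int hC hx₀ hu hδ)
      exact interior_subset (s := D) hs
  -- the body
  have hz0 : Continuous fun z : E m × E 1 => z.2 0 := by fun_prop
  have b1 : IsCompact (Bw D S u δ) := by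
    refine Metric.isCompact_of_isClosed_isBounded ?_ ?_
    · refine IsClosed.inter ?_ ((isClosed_le continuous_const hz0).inter
        (isClosed_le hz0 continuous_const))
      exact hD.preimage ((hSc.comp continuous_fst).sub (hz0.smul continuous_const))
    · obtain ⟨R, hR⟩ := hδb.exists_norm_le
      rw [isBounded_iff_forall_norm_le]
      refine ⟨max R δ, fun z hz => ?_⟩
      rw [Prod.norm_def]
      refine max_le_max (hR z.1 (sh_mono hD' hu' hz.2.2 hz.1)) ?_
      rw [EuclideanSpace.norm_eq, Fin.sum_univ_one, Real.norm_eq_abs, sq_abs,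
        Real.sqrt_sq hz.2.1]
      exact hz.2.2
  have b2 : Convex ℝ (Bw D S u δ) := by
    intro z hz z' hz' a b ha hb' hab
    have e1 : (a • z + b • z').2 0 = a * z.2 0 + b * z'.2 0 := by
      simp
    refine ⟨?_, ?_, ?_⟩
    · rw [e1]
      exact sh_comb hD' hC hSv u ha hb' hab hz.1 hz'.1
    · rw [e1]
      have h1 := mul_nonneg ha hz.2.1
      have h2 := mul_nonneg hb' hz'.2.1
      linarith
    · rw [e1]
      have h1 := mul_le_mul_of_nonneg_left hz.2.2 ha
      have h2 := mul_le_mul_of_nonneg_left hz'.2.2 hb'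
      have h3 : a * δ + b * δ = δ := by rw [← add_mul, hab, one_mul]
      linarith
  have b3 : (interior (Bw D S u δ)).Nonempty := by
    have c1 : IsOpen {z : E m × E 1 | S z.1 - (z.2 0) • u ∈ interior D} :=
      isOpen_interior.preimage ((hSc.comp continuous_fst).sub (hz0.smul continuous_const))
    have c2 : IsOpen {z : E m × E 1 | 0 < z.2 0} := isOpen_lt continuous_const hz0
    have c3 : IsOpen {z : E m × E 1 | z.2 0 < δ} := isOpen_lt hz0 continuous_const
    have hmem : ((x₀, pt (δ / 2)) : E m × E 1) ∈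
        {z : E m × E 1 | S z.1 - (z.2 0) • u ∈ interior D} ∩
        ({z : E m × E 1 | 0 < z.2 0} ∩ {z : E m × E 1 | z.2 0 < δ}) := by
      refine ⟨sub_int hC hx₀ hu (by linarith : 0 < δ / 2), ?_, ?_⟩
      · change 0 < δ / 2
        linarith
      · change δ / 2 < δ
        linarith
    have hsub : {z : E m × E 1 | S z.1 - (z.2 0) • u ∈ interior D} ∩
        ({z : E m × E 1 | 0 < z.2 0} ∩ {z : E m × E 1 | z.2 0 < δ}) ⊆ Bw D S u δ := by
      rintro z ⟨hz1, hz2, hz3⟩
      exact ⟨interior_subset (s := D) hz1, le_of_lt hz2, le_of_lt hz3⟩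
    exact ⟨(x₀, pt (δ / 2)), interior_maximal hsub (c1.inter (c2.inter c3)) hmem⟩
  obtain ⟨BT, hBT⟩ : ∃ BT : Set (E n × E 1), BT = (T.prodMap LinearMap.id) '' Bw D S u δ :=
    ⟨_, rfl⟩
  obtain ⟨d1, d2, d3⟩ := img_body T hT b1 b2 b3
  rw [← hBT] at d1 d2 d3
  obtain ⟨c1, c2, c3⟩ := prl_body d1 d2 d3
  have himg : prj n 1 '' (prl n 1 '' BT) = T '' {x | S x ∈ Sh D u δ} := by
    rw [prj_image, hBT, img_fst]
    congr 1
    ext x
    constructor
    · rintro ⟨z, hz, rfl⟩
      exact sh_mono hD' hu' hz.2.2 hz.1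
    · intro hx
      exact ⟨(x, pt δ), ⟨hx, hδ.le, le_rfl⟩, rfl⟩
  have hpre : prl n 1 ⁻¹' (prl n 1 '' BT) = BT := preimage_image_eq _ (prl n 1).injective
  have hB : Cy A Q ε d p (h + 5) (n + 1) (prl n 1 '' BT) := by
    refine .lift (h + 4) (n + 1) n _ (prj n 1) (by omega) (prj_surj n 1) c1 c2 c3 ?_
    rw [himg]
    exact hL
  have hsl : sl (prl n 1 ⁻¹' (prl n 1 '' BT)) (pt 0) = T '' {x | S x ∈ D} := by
    rw [hpre, hBT, img_sl]
    congr 1
    ext x
    constructor
    · intro hx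
      have h1 : S x ∈ Sh D u 0 := hx.1
      rwa [e0] at h1
    · intro hx
      have h1 : S x ∈ Sh D u 0 := by rw [e0]; exact hx
      exact ⟨h1, le_rfl, hδ.le⟩
  have hfin := Cy.sec (A := A) (Q := Q) (ε := ε) (d := d) (r := p) (h + 5) n 1 (n + 1) _
    (prl n 1) (pt 0) hd1 hB (fun t' => by
      have h0 : 0 ≤ Rv (prl n 1 ⁻¹' (prl n 1 '' BT)) t' := Pool.Agent.R754.KG.R_nonneg t'
      have h1 : Rv (prl n 1 ⁻¹' (prl n 1 '' BT)) t' ≤
          2 * (volume (T '' {x | S x ∈ D})).toReal := by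
        have h2 : volume (sl (prl n 1 ⁻¹' (prl n 1 '' BT)) t') ≤
            volume (T '' {x | S x ∈ Sh D u δ}) := by
          refine measure_mono ?_
          rw [hpre, hBT, img_sl]
          exact image_mono fun x hx => sh_mono hD' hu' hx.2.2 hx.1
        have h3 := ENNReal.toReal_mono (ENNReal.mul_ne_top ENNReal.ofNat_ne_top hfin)
          (h2.trans hδv)
        rwa [ENNReal.toReal_mul, ENNReal.toReal_ofNat] at h3
      have h4 : Rv (prl n 1 ⁻¹' (prl n 1 '' BT)) (pt 0) =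
          (volume (T '' {x | S x ∈ D})).toReal := by
        unfold Rv
        rw [hsl]
      rw [h4]
      have h5 : ε ≤ 1 / 2 := by
        refine hε.trans ?_
        rw [one_div]
        refine inv_anti₀ zero_lt_two ?_
        have := Real.one_le_exp (zero_le_two (α := ℝ))
        linarith
      calc ε * Rv (prl n 1 ⁻¹' (prl n 1 '' BT)) t' ≤
            1 / 2 * Rv (prl n 1 ⁻¹' (prl n 1 '' BT)) t' := by gcongr
        _ ≤ 1 / 2 * (2 * (volume (T '' {x | S x ∈ D})).toReal) := by gcongr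
        _ = _ := by ring)
  rw [hsl] at hfin
  exact hfin

end Pool.Agent.V7H69.EM
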