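import Pool.Agent.V7H69.EM.Gd

/-!
# Maps whose functionals have pinched curvature or are sums of functions of blocks
-/

set_option autoImplicit false

namespace Pool.Agent.V7H69.EM

open MeasureTheory Set Filter Topology
open scoped ENNReal InnerProductSpace
open Pool.Agent.R754.KG (E un sl Rv)
open Pool.Agent.R755.KF
open Pool.Agent.R755.KS
open Pool.Agent.Y506.RG (Star)
open Pool.Agent.Y506.PV (ind)
open Pool.Agent.N483.KM (Cy cyR cclR VBd XP BP Bk)
open Pool.Agent.V7H69.EL (coords PinB Ps Pn ps_km pn_cy noPar)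

/-- sums of convex functions of blocks of dimension at most `s`, with at most `s` relations -/
def Bs (s : ℕ) {m : ℕ} (f : E m → ℝ) : Prop :=
  ∃ (B : ℕ) (k : Fin B → ℕ) (L : E m →ₗ[ℝ] (∀ i, E (k i))) (V : ∀ i, E (k i) → ℝ),
    (∀ i, k i ≤ s) ∧ ∑ i, k i ≤ m + s ∧ (∀ i, ConvexOn ℝ univ (V i)) ∧ ∀ x, f x = ∑ i, V i (L x i)

/-- functions with pinched curvature and block sums -/
def Tm (κ : ℝ) (s : ℕ) {m : ℕ} (f : E m → ℝ) : Prop :=
  (∃ (k : ℕ) (B : E m →ₗ[ℝ] E k), PinB κ B f) ∨ Bs s f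

variable {m : ℕ} {κ : ℝ} {s : ℕ}

theorem Bs.cvx {f : E m → ℝ} (h : Bs s f) : ConvexOn ℝ univ f := by
  obtain ⟨B, k, L, V, -, -, hV, hf⟩ := h
  have h1 : ConvexOn ℝ univ fun x => ∑ i, V i (L x i) := by
    have h2 : ∀ i, ConvexOn ℝ univ fun x => V i (L x i) := by
      intro i
      have h3 := (hV i).comp_linearMap ((LinearMap.proj i) ∘ₗ L)
      rw [preimage_univ] at h3
      exact h3
    classical
    have h4 : ∀ t : Finset (Fin B), ConvexOn ℝ univ fun x => ∑ i ∈ t, V i (L x i) := by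
      intro t
      induction t using Finset.induction_on with
      | empty => simpa using convexOn_const (𝕜 := ℝ) (0 : ℝ) (convex_univ (E := E m))
      | insert i t hi ih =>
        refine ((h2 i).add ih).congr fun x _ => ?_
        rw [Finset.sum_insert hi]
        rfl
    exact h4 _
  exact h1.congr fun x _ => (hf x).symm

theorem Tm.cvx {f : E m → ℝ} (hκ : 0 < κ) (h : Tm κ s f) : ConvexOn ℝ univ f := by
  rcases h with ⟨k, B, h⟩ | h
  · exact h.cvx hκ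
  · exact h.cvx

/-- restriction to affine subspaces of bounded codimension -/
theorem Bs.restr {f : E m → ℝ} (h : Bs s f) {N k : ℕ} (w : E N →ₗ[ℝ] E m) (c : E m)
    (hN : m ≤ N + k) : Bs (s + k) fun x => f (w x + c) := by
  obtain ⟨B, k', L, V, h1, h2, h3, h4⟩ := h
  refine ⟨B, k', L ∘ₗ w, fun i y => V i (y + L c i), fun i => (h1 i).trans (by omega), by omega,
    fun i => ?_, fun x => ?_⟩
  · have h5 := (h3 i).translate_left (L c i)
    rw [preimage_univ] at h5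
    exact h5
  · change f (w x + c) = _
    rw [h4]
    refine Finset.sum_congr rfl fun i _ => ?_
    rw [map_add]
    rfl

theorem ereal_sum {ι : Type} (t : Finset ι) (f : ι → ℝ) :
    ∑ i ∈ t, ((f i : ℝ) : EReal) = ((∑ i ∈ t, f i : ℝ) : EReal) := by
  classical
  induction t using Finset.induction_on with
  | empty => simp
  | insert i t hi ih =>
    rw [Finset.sum_insert hi, Finset.sum_insert hi, ih, EReal.coe_add]

/-- level sets of block sums -/
theorem Bs.vbd {f : E m → ℝ} (h : Bs s f) {e : ℝ} (hb : Bornology.IsBounded {x | f x ≤ e})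
    (hi : (interior {x | f x ≤ e}).Nonempty) : VBd 1 s m {x | f x ≤ e} := by
  obtain ⟨B, k, L, V, h1, h2, h3, h4⟩ := h
  refine ⟨B, m, 0, k, fun _ => ∅, L, fun _ i y _ => ((V i y : ℝ) : EReal), fun _ => e, noPar m,
    Nat.zero_le _, h2, fun i => .small _ _ (h1 i), fun _ i => ?_, fun i g hg => hg.elim,
    fun i g hg => hg.elim, hb, hi, ?_⟩
  · refine ⟨fun x t => EReal.coe_ne_bot _, ?_, fun x y t u a ha0 ha1 => ?_⟩
    · have hc : Continuous (V i) := (h3 i).locallyLipschitz.continuous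
      exact (continuous_coe_real_ereal.comp (hc.comp continuous_fst)).lowerSemicontinuous
    · rw [← EReal.coe_mul, ← EReal.coe_mul, ← EReal.coe_add, EReal.coe_le_coe_iff]
      have h5 := (h3 i).2 (mem_univ x) (mem_univ y) (by linarith : 0 ≤ 1 - a) ha0.le (by ring)
      exact h5
  · ext x
    constructor
    · intro hx
      refine ⟨(x, 0), fun _ => ?_, rfl⟩
      have hx' : f x ≤ e := hx
      rw [ereal_sum, EReal.coe_le_coe_iff, ← h4]
      exact hx'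
    · rintro ⟨z, hz, rfl⟩
      have h5 := hz 0
      rw [ereal_sum, EReal.coe_le_coe_iff, ← h4] at h5
      exact h5

/-- the level sets of the functionals are in a class with a uniform constant -/
theorem tm_res (κ : ℝ) (hκ : 0 < κ) (s r : ℕ) : ∃ A : ℝ → ℝ, (∀ δ, 0 < A δ) ∧
    ∀ (Q ε : ℝ) (d p : ℕ), ε ≤ 1 → 1 ≤ d → ∀ (m : ℕ) (C : Set (E r)) (S : E m → E r),
    (∀ θ ∈ Du C, Tm κ s fun x => ⟪θ, S x⟫_ℝ) → Res A Q ε d p 1 (2 * r) C S := by
  obtain ⟨A1, hA1, H1⟩ := ps_km κ hκ 1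
  obtain ⟨A2, hA2, H2⟩ := Pool.Agent.N483.KM.vbd_km Pool.Agent.N483.KM.gddR 1 (s + 2 * r)
  refine ⟨fun δ => max (A1 δ) (A2 δ), fun δ => lt_max_of_lt_left (hA1 δ), ?_⟩
  intro Q ε d p hε hd m C S hS θ hθ N w c e hN hb hi
  rcases hS θ hθ with ⟨k, B, h⟩ | h
  · refine pn_cy hκ (fun m K hK δ hδ => km_mono (le_max_left _ _) le_rfl (H1 m K hK δ hδ)) hε hd
      ⟨hb, hi, fun _ => k, fun _ => B ∘ₗ w, fun _ x => ⟪θ, S (w x + c)⟫_ℝ + 0, fun _ => e,
        fun _ => h.restr w c 0, ?_⟩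
    ext x
    simp only [add_zero]
    exact ⟨fun h _ => h, fun h => h 0⟩
  · obtain ⟨h1, h2, h3, h4⟩ := H2 N _ ((h.restr w c hN).vbd hb hi)
    exact .up _ _ _ (.base _ _ h1 h2 h3 fun δ hδ =>
      km_mono (le_max_right _ _) le_rfl (h4 δ hδ))

/-- bounded sets with interior points defined by a convex constraint on the values of a map into
`ℝ^r` whose functionals have pinched curvature or are block sums -/
def Pc (κ : ℝ) (s r m : ℕ) (K : Set (E m)) : Prop :=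
  Bornology.IsBounded K ∧ (interior K).Nonempty ∧ ∃ (S : E m → E r) (D : Set (E r)),
    IsClosed D ∧ Convex ℝ D ∧ Continuous S ∧ (∀ θ ∈ Du (rc D), Tm κ s fun x => ⟪θ, S x⟫_ℝ) ∧
    K = {x | S x ∈ D}

theorem Pc.body {κ : ℝ} (hκ : 0 < κ) {s r m : ℕ} {K : Set (E m)} (h : Pc κ s r m K) :
    IsCompact K ∧ Convex ℝ K ∧ (interior K).Nonempty := by
  obtain ⟨hb, hi, S, D, h1, h2, h3, h4, rfl⟩ := h
  exact ⟨Metric.isCompact_of_isClosed_isBounded (h1.preimage h3) hb,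
    set_convex h1 h2 fun θ hθ => (h4 θ hθ).cvx hκ, hi⟩

/-- bodies fibred over few parameters, with one large fibre of the class -/
def Fc (κ ε : ℝ) (s r d m : ℕ) (K : Set (E m)) : Prop :=
  IsCompact K ∧ Convex ℝ K ∧ (interior K).Nonempty ∧
  ∃ (N j : ℕ) (ψ : (E N × E j) ≃ₗ[ℝ] E m) (t : E j), j ≤ d ∧
    (∀ t', ε * Rv (ψ ⁻¹' K) t' ≤ Rv (ψ ⁻¹' K) t) ∧ Pc κ s r N (sl (ψ ⁻¹' K) t)

theorem fc_star (κ ε : ℝ) (hκ : 0 < κ) (hε : 0 < ε) (s r d p : ℕ) : ∃ c : ℝ, 0 < c ∧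
    ∀ (m n : ℕ) (K : Set (E m)) (T : E m →ₗ[ℝ] E n) (w : E n), Fc κ ε s r d m K → m ≤ n + p →
    Function.Surjective T →
    IsCompact ((fun x => w + T x) '' K) ∧ Convex ℝ ((fun x => w + T x) '' K) ∧
    (interior ((fun x => w + T x) '' K)).Nonempty ∧ Star c (ind ((fun x => w + T x) '' K)) := by
  obtain ⟨A, hA, HA⟩ := tm_res κ hκ s r
  obtain ⟨ε', hε'⟩ : ∃ ε' : ℝ, ε' = min ε (2 * Real.exp 2)⁻¹ := ⟨_, rfl⟩
  have hε0 : 0 < ε' := by
    rw [hε']
    exact lt_min hε (by positivity)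
  have hε2 : ε' ≤ (2 * Real.exp 2)⁻¹ := by
    rw [hε']
    exact min_le_right _ _
  obtain ⟨d', hd'⟩ : ∃ d', d' = d + r + 1 := ⟨_, rfl⟩
  obtain ⟨p', hp'⟩ : ∃ p', p' = p + r + 1 := ⟨_, rfl⟩
  obtain ⟨c, hc, Hc⟩ := cyR cclR A 1 ε' one_pos hε0 d' p' 11
  refine ⟨c, hc, fun m n K T w hK hm hT => ?_⟩
  obtain ⟨b1, b2, b3, N, j, ψ, t, hj, ht, hb, hi, S, D, g1, g2, g3, g4, g5⟩ := hK
  rw [g5] at hb hi
  have h1 : Cy A 1 ε' d' p' 9 N (sl (ψ ⁻¹' K) t) := by
    rw [g5]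
    exact gcore g1 g2 g3 (fun θ hθ => (g4 θ hθ).cvx hκ) hε2 (by omega) (by omega) (by omega)
      (by omega) (HA 1 ε' d' p' (eps_one hε2) (by omega) N (rc D) S g4) hb hi
  have h2 : Cy A 1 ε' d' p' 10 m K := by
    refine .ext 9 N j m K ψ t (by omega) b1 b2 b3 (fun t' => ?_) h1
    have h2 : 0 ≤ Rv (ψ ⁻¹' K) t' := Pool.Agent.R754.KG.R_nonneg t'
    calc ε' * Rv (ψ ⁻¹' K) t' ≤ ε * Rv (ψ ⁻¹' K) t' := by
          gcongr
          rw [hε']
          exact min_le_left _ _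
      _ ≤ _ := ht t'
  exact Hc _ _ (.image _ _ _ _ T w (by omega) hT h2)

end Pool.Agent.V7H69.EM
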