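import Pool.Agent.V7H69.EM.Ns

/-!
# Sets defined by convex constraints on the values of a convex map: all closed convex constraints
-/

set_option autoImplicit false

namespace Pool.Agent.V7H69.EM

open MeasureTheory Set Filter Topology
open scoped ENNReal InnerProductSpace
open Pool.Agent.R754.KG (E un sl Rv)
open Pool.Agent.R755.KF
open Pool.Agent.R755.KS
open Pool.Agent.N483.KM (Cy)
open Pool.Agent.V7H69.EL (coords)

variable {r m : ℕ} {D : Set (E r)} {S : E m → E r}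

theorem rc_zero : (0 : E r) ∈ rc D := fun s hs => by rwa [sub_zero]

theorem rc_bip (hD : IsClosed D) (hD' : Convex ℝ D) {v : E r}
    (hv : ∀ θ ∈ Du (rc D), 0 ≤ ⟪θ, v⟫_ℝ) : v ∈ rc D := by
  by_contra hn
  obtain ⟨f, u, h1, h2⟩ := geometric_hahn_banach_closed_point (rc_convex hD') (rc_closed hD) hn
  have h3 : ∀ w ∈ rc D, f w ≤ 0 := by
    intro w hw
    by_contra h4
    push Not at h4
    have h5 := h1 _ (rc_smul hD' (|u| / f w + 1) (by positivity) w hw)
    rw [map_smul, smul_eq_mul, add_mul, div_mul_cancel₀ _ h4.ne', one_mul] at h5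
    have := le_abs_self u
    linarith
  have h4 : 0 < u := by
    have := h1 0 rc_zero
    rwa [map_zero] at this
  have h5 : -(InnerProductSpace.toDual ℝ (E r)).symm f ∈ Du (rc D) := by
    intro w hw
    rw [inner_neg_left, InnerProductSpace.toDual_symm_apply]
    linarith [h3 w hw]
  have h6 := hv _ h5
  rw [inner_neg_left, InnerProductSpace.toDual_symm_apply] at h6
  linarith

theorem set_convex (hD : IsClosed D) (hD' : Convex ℝ D)
    (hSv : ∀ θ ∈ Du (rc D), ConvexOn ℝ univ fun x => ⟪θ, S x⟫_ℝ) : Convex ℝ {x | S x ∈ D} := by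
  intro x hx y hy a b ha hb hab
  have h2 : a • S x + b • S y - S (a • x + b • y) ∈ rc D := by
    refine rc_bip hD hD' fun θ hθ => ?_
    have h1 := (hSv θ hθ).2 (mem_univ x) (mem_univ y) ha hb hab
    simp only [smul_eq_mul] at h1
    rw [inner_sub_right, inner_add_right, inner_smul_right, inner_smul_right]
    linarith
  have h4 := h2 _ (hD' hx hy ha hb hab)
  rwa [sub_sub_cancel] at h4

/-- maps all of whose functionals are convex are affine -/
theorem aff_of {g : E m → E r} (hc : Continuous g) (h0 : g 0 = 0)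
    (hg : ∀ θ : E r, ConvexOn ℝ univ fun x => ⟪θ, g x⟫_ℝ) : ∃ A : E m →ₗ[ℝ] E r, ∀ x, g x = A x := by
  have h1 : ∀ x y : E m, g ((1 / 2 : ℝ) • x + (1 / 2 : ℝ) • y) =
      (1 / 2 : ℝ) • g x + (1 / 2 : ℝ) • g y := by
    intro x y
    refine ext_inner_left ℝ fun θ => ?_
    have h2 := (hg θ).2 (mem_univ x) (mem_univ y) (by norm_num : (0 : ℝ) ≤ 1 / 2)
      (by norm_num : (0 : ℝ) ≤ 1 / 2) (by norm_num)
    have h3 := (hg (-θ)).2 (mem_univ x) (mem_univ y) (by norm_num : (0 : ℝ) ≤ 1 / 2)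
      (by norm_num : (0 : ℝ) ≤ 1 / 2) (by norm_num)
    simp only [smul_eq_mul, inner_neg_left] at h2 h3
    rw [inner_add_right, inner_smul_right, inner_smul_right]
    linarith
  have h2 : ∀ x : E m, g ((1 / 2 : ℝ) • x) = (1 / 2 : ℝ) • g x := by
    intro x
    have := h1 x 0
    rwa [smul_zero, add_zero, h0, smul_zero, add_zero] at this
  have h3 : ∀ x y : E m, g (x + y) = g x + g y := by
    intro x y
    have h4 := h2 (x + y)
    rw [smul_add, h1, ← smul_add] at h4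
    have h5 := congrArg (fun v => (2 : ℝ) • v) h4
    simp only [smul_smul] at h5
    norm_num at h5
    exact h5.symm
  let G : E m →+ E r := ⟨⟨g, h0⟩, h3⟩
  exact ⟨(G.toRealLinearMap hc).toLinearMap, fun x => rfl⟩

/-- sets defined by a constraint on the values -/
theorem gcore {A : ℝ → ℝ} {Q ε : ℝ} {d p h : ℕ} (hD : IsClosed D) (hD' : Convex ℝ D)
    (hSc : Continuous S)
    (hSv : ∀ θ ∈ Du (rc D), ConvexOn ℝ univ fun x => ⟪θ, S x⟫_ℝ) (hε : ε ≤ (2 * Real.exp 2)⁻¹)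
    (hd : r ≤ d) (hp : r ≤ p) (hd1 : 1 ≤ d) (hp1 : 1 ≤ p)
    (hR : Res A Q ε d p h (2 * r) (rc D) S)
    (hb : Bornology.IsBounded {x | S x ∈ D}) (hi : (interior {x | S x ∈ D}).Nonempty) :
    Cy A Q ε d p (h + 8) m {x | S x ∈ D} := by
  classical
  obtain ⟨V, hV⟩ : ∃ V : Submodule ℝ (E r), V = Submodule.span ℝ (rc D) := ⟨_, rfl⟩
  have hVr : Module.finrank ℝ V ≤ r := by
    have := Submodule.finrank_le V
    rwa [finrank_euclideanSpace_fin] at this
  obtain ⟨q, hq⟩ : ∃ q, q = Module.finrank ℝ V := ⟨_, rfl⟩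
  let e0 : E q ≃ₗᵢ[ℝ] V := ((stdOrthonormalBasis ℝ V).reindex (finCongr hq.symm)).repr.symm
  let ι : E q →ₗ[ℝ] E r := V.subtype ∘ₗ e0.toLinearEquiv.toLinearMap
  have hιi : ∀ a b, ⟪ι a, ι b⟫_ℝ = ⟪a, b⟫_ℝ := fun a b => e0.inner_map_map a b
  have hιV : ∀ v ∈ V, ∃ a, ι a = v := fun v hv => ⟨e0.symm ⟨v, hv⟩, by
    change ((e0 (e0.symm ⟨v, hv⟩) : V) : E r) = v
    rw [LinearIsometryEquiv.apply_symm_apply]⟩
  have hιm : ∀ a, ι a ∈ V := fun a => (e0 a).2
  let P : E r →ₗ[ℝ] E q := LinearMap.adjoint ι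
  have hP : ∀ a s, ⟪a, P s⟫_ℝ = ⟪ι a, s⟫_ℝ := fun a s => LinearMap.adjoint_inner_right ι a s
  have hιinj : Function.Injective ι := by
    intro a b hab
    have h1 : ⟪a - b, a - b⟫_ℝ = 0 := by
      rw [← hιi, map_sub, hab, sub_self, inner_zero_left]
    exact sub_eq_zero.1 (inner_self_eq_zero.1 h1)
  let Rm : E r →ₗ[ℝ] E r := LinearMap.id - ι ∘ₗ P
  have hRm : ∀ s, Rm s = s - ι (P s) := fun s => rfl
  have hRs : ∀ θ s, ⟪θ, Rm s⟫_ℝ = ⟪Rm θ, s⟫_ℝ := by
    intro θ s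
    have h1 : ⟪θ, ι (P s)⟫_ℝ = ⟪P s, P θ⟫_ℝ := by rw [real_inner_comm, hP]
    have h2 : ⟪ι (P θ), s⟫_ℝ = ⟪P s, P θ⟫_ℝ := by rw [← hP, real_inner_comm]
    rw [hRm, hRm, inner_sub_right, inner_sub_left, h1, h2]
  have hR0 : ∀ θ, ∀ v ∈ rc D, ⟪Rm θ, v⟫_ℝ = 0 := by
    intro θ v hv
    have hvV : v ∈ V := by rw [hV]; exact Submodule.subset_span hv
    obtain ⟨a, rfl⟩ := hιV v hvV
    rw [← hRs, hRm]
    have h1 : P (ι a) = a := by
      refine ext_inner_left ℝ fun b => ?_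
      rw [hP, hιi]
    rw [h1, sub_self, inner_zero_right]
  -- the part of `S` which is affine
  obtain ⟨A₀, hA₀⟩ := aff_of (g := fun x => Rm (S x) - Rm (S 0))
    (((Rm.continuous_of_finiteDimensional).comp hSc).sub continuous_const) (sub_self _)
    (fun θ => by
      have h1 : Rm θ ∈ Du (rc D) := fun v hv => (hR0 θ v hv).ge
      have h2 := (hSv _ h1).add (convexOn_const (-⟪θ, Rm (S 0)⟫_ℝ) convex_univ)
      refine h2.congr fun x _ => ?_
      simp only [Pi.add_apply, inner_sub_right, hRs]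
      ring)
  have hA : ∀ x, Rm (S x) = A₀ x + Rm (S 0) := fun x => by
    rw [← hA₀ x]
    abel
  obtain ⟨N, ρ, w, w', ψ, hρ, hw, hψ⟩ := coords A₀
  rw [finrank_euclideanSpace_fin] at hρ
  have hNm : N + ρ = m := by
    have h1 := ψ.finrank_eq
    simpa using h1
  have b1 : IsCompact {x | S x ∈ D} :=
    Metric.isCompact_of_isClosed_isBounded (hD.preimage hSc) hb
  have b2 : Convex ℝ {x | S x ∈ D} := set_convex hD hD' hSv
  have hF := cb_pre ψ b1 b2 hi
  obtain ⟨t, ht0, ht⟩ := Pool.Agent.N348.KM.MXF.t_MXF N ρ (ψ ⁻¹' {x | S x ∈ D}) hF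
  refine .ext (h + 7) N ρ m _ ψ t (hρ.trans hd) b1 b2 hi (large_of_max (eps_one hε) ht) ?_
  have hv : volume (sl (ψ ⁻¹' {x | S x ∈ D}) t) ≠ 0 := Pool.Agent.N483.KM.vol_ne_of_pos ht0
  have hint := int_of_vol (sl_conv hF t) hv
  have hbd := (sl_comp hF t).isBounded
  -- the map on the fibre
  obtain ⟨c, hc⟩ : ∃ c : E r, c = A₀ (w' t) + Rm (S 0) := ⟨_, rfl⟩
  obtain ⟨S', hS'⟩ : ∃ S' : E N → E q, ∀ x, S' x = P (S (w x + w' t)) := ⟨_, fun _ => rfl⟩
  have hval : ∀ x, S (w x + w' t) = ι (S' x) + c := by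
    intro x
    have h1 := hA (w x + w' t)
    rw [hRm, map_add, hw, zero_add, ← hc] at h1
    rw [hS', ← h1]
    abel
  obtain ⟨D', hDD⟩ : ∃ D' : Set (E q), D' = {v | ι v + c ∈ D} := ⟨_, rfl⟩
  have hιc : Continuous ι := ι.continuous_of_finiteDimensional
  have hD1 : IsClosed D' := by
    rw [hDD]
    exact hD.preimage (hιc.add continuous_const)
  have hD2 : Convex ℝ D' := by
    rw [hDD]
    intro v hv v' hv' a b ha hb' hab
    have h1 := hD' hv hv' ha hb' hab
    change ι (a • v + b • v') + c ∈ D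
    have e1 : a • (ι v + c) + b • (ι v' + c) = ι (a • v + b • v') + (a + b) • c := by
      rw [map_add, map_smul, map_smul]
      module
    rwa [e1, hab, one_smul] at h1
  have hrc : ι ⁻¹' rc D ⊆ rc D' := by
    intro v hv s hs
    rw [hDD] at hs ⊢
    have h1 := hv _ hs
    change ι (s - v) + c ∈ D
    have e1 : ι s + c - ι v = ι (s - v) + c := by
      rw [map_sub]
      abel
    rwa [e1] at h1
  have hspan : Submodule.span ℝ (ι ⁻¹' rc D) = ⊤ := by
    have h1 : Submodule.map ι (Submodule.span ℝ (ι ⁻¹' rc D)) = V := by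
      rw [Submodule.map_span, image_preimage_eq_inter_range, hV]
      congr 1
      refine inter_eq_left.2 fun v hv => ?_
      exact hιV v (by rw [hV]; exact Submodule.subset_span hv)
    refine eq_top_iff.2 fun a _ => ?_
    have h2 : ι a ∈ Submodule.map ι (Submodule.span ℝ (ι ⁻¹' rc D)) := by
      rw [h1]
      exact hιm a
    obtain ⟨b, hb1, hb2⟩ := h2
    rwa [← hιinj hb2]
  have hDi : (interior (rc D')).Nonempty := by
    have h1 : Convex ℝ (ι ⁻¹' rc D) := (rc_convex hD').linear_preimage ι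
    have h2 : (interior (ι ⁻¹' rc D)).Nonempty := by
      rw [h1.interior_nonempty_iff_affineSpan_eq_top]
      have h3 : insert (0 : E q) (ι ⁻¹' rc D) = ι ⁻¹' rc D := by
        refine insert_eq_of_mem ?_
        change ι 0 ∈ rc D
        rw [map_zero]
        exact rc_zero
      rw [← h3]
      refine SetLike.coe_injective ?_
      rw [affineSpan_insert_zero, hspan]
      rfl
    exact h2.mono (interior_mono hrc)
  have hDu : ∀ θ ∈ Du (rc D'), ι θ ∈ Du (rc D) := by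
    intro θ hθ v hv
    obtain ⟨a, rfl⟩ := hιV v (by rw [hV]; exact Submodule.subset_span hv)
    rw [hιi]
    exact hθ a (hrc hv)
  have hfun : ∀ θ x, ⟪θ, S' x⟫_ℝ = ⟪ι θ, S (w x + w' t)⟫_ℝ := by
    intro θ x
    rw [hS', hP]
  have hfib : sl (ψ ⁻¹' {x | S x ∈ D}) t = {x | S' x ∈ D'} := by
    ext x
    change S (ψ (x, t)) ∈ D ↔ S' x ∈ D'
    rw [hψ, hval, hDD]
    rfl
  rw [hfib] at hint hbd ⊢
  let g : E N →ᵃ[ℝ] E m := w.toAffineMap + AffineMap.const ℝ (E N) (w' t)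
  have hg : ∀ x, g x = w x + w' t := fun x => rfl
  have hwc : Continuous fun x : E N => w x + w' t :=
    (w.continuous_of_finiteDimensional).add continuous_const
  refine ncore hD1 hD2 hDi ?_ (fun θ hθ => ?_) hε (by omega) (by omega) hd1 hp1 ?_ hbd hint
  · have e1 : S' = fun x => P (S (w x + w' t)) := funext hS'
    rw [e1]
    exact (P.continuous_of_finiteDimensional).comp (hSc.comp hwc)
  · have h1 := (hSv _ (hDu θ hθ)).comp_affineMap g
    rw [preimage_univ] at h1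
    refine h1.congr fun x _ => ?_
    rw [hfun]
    rfl
  · intro θ hθ N' w'' c'' e hNN hbe hie
    have e1 : {x | ⟪θ, S' (w'' x + c'')⟫_ℝ ≤ e} =
        {x | ⟪ι θ, S ((w ∘ₗ w'') x + (w c'' + w' t))⟫_ℝ ≤ e} := by
      ext x
      change ⟪θ, S' (w'' x + c'')⟫_ℝ ≤ e ↔ ⟪ι θ, S (w (w'' x) + (w c'' + w' t))⟫_ℝ ≤ e
      rw [hfun, map_add, add_assoc]
    rw [e1] at hbe hie ⊢
    exact hR _ (hDu θ hθ) N' _ _ e (by omega) hbe hie

end Pool.Agent.V7H69.EM
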