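import Pool.Agent.V7H69.EM.DcT

/-!
# Images of sets defined by general convex constraints on the values of pinched maps
-/

set_option autoImplicit false

namespace Pool.Agent.V7H69.EM

open MeasureTheory Set Filter Topology
open scoped ENNReal InnerProductSpace
open Pool.Agent.R754.KG (E un sl Rv)
open Pool.Agent.R755.KF
open Pool.Agent.R755.KS
open Pool.Agent.N483.KM (Cy)
open Pool.Agent.V7H69.EL (PinB Ps Pn pn_cy cvx_aff cvx_sq)

variable {r m n : ℕ} {D : Set (E r)} {S : E m → E r}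

/-- the projection to the complement of the span of `rc D` -/
theorem proj_ex (hD' : Convex ℝ D) : ∃ Rm : E r →ₗ[ℝ] E r, (∀ w ∈ rc D, Rm w = 0) ∧
    (∀ θ s, ⟪θ, Rm s⟫_ℝ = ⟪Rm θ, s⟫_ℝ) ∧ (∀ v, Rm (Rm v) = Rm v) ∧
    (interior {v | v - Rm v ∈ rc D}).Nonempty := by
  let V : Submodule ℝ (E r) := Submodule.span ℝ (rc D)
  let Rm : E r →ₗ[ℝ] E r := Vᗮ.starProjection.toLinearMap
  have hRm : ∀ v, Rm v = v - V.starProjection v := fun v => V.starProjection_orthogonal_val v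
  have h1 : ∀ w ∈ V, Rm w = 0 := fun w hw => by
    rw [hRm, Submodule.starProjection_eq_self_iff.2 hw, sub_self]
  have h2 : ∀ w ∈ Vᗮ, Rm w = w := fun w hw => Submodule.starProjection_eq_self_iff.2 hw
  refine ⟨Rm, fun w hw => h1 w (Submodule.subset_span hw), fun θ s => ?_, fun v => ?_, ?_⟩
  · exact (Vᗮ.inner_starProjection_left_eq_right θ s).symm
  · exact h2 _ (Vᗮ.starProjection_apply_mem v)
  · have hcv : Convex ℝ {v | v - Rm v ∈ rc D} := by
      intro v hv v' hv' a b ha hb hab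
      have h3 := rc_convex hD' hv hv' ha hb hab
      change a • v + b • v' - Rm (a • v + b • v') ∈ rc D
      have e1 : a • (v - Rm v) + b • (v' - Rm v') = a • v + b • v' - Rm (a • v + b • v') := by
        rw [map_add, map_smul, map_smul]
        module
      rwa [e1] at h3
    rw [hcv.interior_nonempty_iff_affineSpan_eq_top]
    have h3 : insert (0 : E r) {v | v - Rm v ∈ rc D} = {v | v - Rm v ∈ rc D} := by
      refine insert_eq_of_mem ?_
      change (0 : E r) - Rm 0 ∈ rc D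
      rw [map_zero, sub_zero]
      exact rc_zero
    have hspan : Submodule.span ℝ {v | v - Rm v ∈ rc D} = ⊤ := by
      rw [eq_top_iff, ← Submodule.sup_orthogonal_of_hasOrthogonalProjection (K := V)]
      refine sup_le (Submodule.span_mono fun w hw => ?_) fun w hw => Submodule.subset_span ?_
      · change w - Rm w ∈ rc D
        rw [h1 w (Submodule.subset_span hw), sub_zero]
        exact hw
      · change w - Rm w ∈ rc D
        rw [h2 w hw, sub_self]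
        exact rc_zero
    rw [← h3]
    refine SetLike.coe_injective ?_
    rw [affineSpan_insert_zero, hspan]
    rfl

/-- one more square -/
theorem stack2 {k : ℕ} (B : E m →ₗ[ℝ] E k) {μ : ℝ} (hμ : 0 ≤ μ) :
    ∃ (k' : ℕ) (B' : E m →ₗ[ℝ] E k'), ∀ x, ‖B' x‖ ^ 2 = ‖B x‖ ^ 2 + μ * ‖x‖ ^ 2 := by
  let L : E m →ₗ[ℝ] WithLp 2 (E k × E m) :=
    (WithLp.linearEquiv 2 ℝ (E k × E m)).symm.toLinearMap ∘ₗ
      (B.prod ((Real.sqrt μ) • LinearMap.id))
  have hL : ∀ x, ‖L x‖ ^ 2 = ‖B x‖ ^ 2 + μ * ‖x‖ ^ 2 := by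
    intro x
    rw [WithLp.prod_norm_sq_eq_of_L2]
    have h1 : (L x).fst = B x := rfl
    have h2 : (L x).snd = (Real.sqrt μ) • x := rfl
    rw [h1, h2, norm_smul, mul_pow, Real.norm_eq_abs, sq_abs, Real.sq_sqrt hμ]
  let e := (stdOrthonormalBasis ℝ (WithLp 2 (E k × E m))).repr
  refine ⟨_, e.toLinearEquiv.toLinearMap ∘ₗ L, fun x => ?_⟩
  rw [← hL x]
  exact congrArg (· ^ 2) (e.norm_map (L x))

/-- adding affine functions and squares of the norm -/
theorem pin_add {κ : ℝ} (hκ : 1 ≤ κ) {k : ℕ} {B : E m →ₗ[ℝ] E k} {f : E m → ℝ} (h : PinB κ B f)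
    (l : E m →ₗ[ℝ] ℝ) (c : ℝ) {μ : ℝ} (hμ : 0 ≤ μ) :
    ∃ (k' : ℕ) (B' : E m →ₗ[ℝ] E k'), PinB κ B' fun x => f x + (l x + c) + μ * ‖x‖ ^ 2 := by
  obtain ⟨k', B', hB'⟩ := stack2 B hμ
  have hκ0 : 0 < κ := by linarith
  have hκi : κ⁻¹ ≤ 1 := inv_le_one_of_one_le₀ hκ
  have hsq : ConvexOn ℝ univ fun x : E m => ‖x‖ ^ 2 := cvx_sq (LinearMap.id : E m →ₗ[ℝ] E m)
  refine ⟨k', B', ?_, ?_⟩
  · have h1 := (h.lower.add (cvx_aff l c)).add
      (hsq.smul (show 0 ≤ (1 - κ⁻¹) * μ from mul_nonneg (by linarith) hμ))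
    refine h1.congr fun x _ => ?_
    simp only [Pi.add_apply, smul_eq_mul, hB']
    ring
  · have h1 := (h.upper.add (cvx_aff (-l) (-c))).add
      (hsq.smul (show 0 ≤ (κ - 1) * μ from mul_nonneg (by linarith) hμ))
    refine h1.congr fun x _ => ?_
    simp only [Pi.add_apply, smul_eq_mul, hB', LinearMap.neg_apply]
    ring

/-- convex functions plus a square have bounded level sets -/
theorem coer_sq {f : E m → ℝ} (hf : ConvexOn ℝ univ f) {τ : ℝ} (hτ : 0 < τ) (e : ℝ) :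
    Bornology.IsBounded {x | f x + τ * ‖x‖ ^ 2 ≤ e} := by
  have hcont : Continuous f := hf.locallyLipschitz.continuous
  obtain ⟨g, c, h1, -⟩ := hf.exists_affine_le_of_lt (𝕜 := ℝ) (mem_univ (0 : E m))
    (show f 0 - 1 < f 0 by linarith) isClosed_univ
    (lowerSemicontinuousOn_univ_iff.2 hcont.lowerSemicontinuous)
  have h2 : ∀ x, g x + c ≤ f x := fun x => by
    have h2 := h1 ⟨x, mem_univ x⟩
    simpa using h2
  rw [isBounded_iff_forall_norm_le]
  refine ⟨1 + (‖g‖ + |e - c|) / τ, fun x hx => ?_⟩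
  have h3 : g x + c + τ * ‖x‖ ^ 2 ≤ e := by
    have h4 : f x + τ * ‖x‖ ^ 2 ≤ e := hx
    linarith [h2 x]
  have h4 : -(‖g‖ * ‖x‖) ≤ g x := by
    have := neg_le_of_abs_le ((Real.norm_eq_abs _).symm ▸ g.le_opNorm x)
    exact this
  by_contra hcon
  push Not at hcon
  have h5 : 1 < ‖x‖ := by
    have : 0 ≤ (‖g‖ + |e - c|) / τ := by positivity
    linarith
  have h6 : ‖g‖ + |e - c| < τ * ‖x‖ := by
    have h7 : (‖g‖ + |e - c|) / τ < ‖x‖ := by linarith
    rw [div_lt_iff₀ hτ] at h7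
    linarith
  have h7 : (‖g‖ + |e - c|) * ‖x‖ < τ * ‖x‖ * ‖x‖ := by
    apply mul_lt_mul_of_pos_right h6
    linarith
  have h8 : |e - c| ≤ |e - c| * ‖x‖ := by
    have := abs_nonneg (e - c)
    nlinarith
  have h9 := le_abs_self (e - c)
  nlinarith

/-- pinched maps: constraints with interior points, a functional which is the square of the norm -/
theorem pcore {A : ℝ → ℝ} {Q ε κ : ℝ} {d p : ℕ} (hκ : 0 < κ) (HA : ∀ (m : ℕ)
    (K : Set (E m)), Ps κ 1 m K → ∀ δ : ℝ, 0 < δ → KM (A δ) δ (un K)) (hD : IsClosed D)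
    (hD' : Convex ℝ D) (hDi : (interior (rc D)).Nonempty) (hSc : Continuous S)
    (hS : ∀ θ ∈ Du (rc D), ∃ (k : ℕ) (B : E m →ₗ[ℝ] E k), PinB κ B fun x => ⟪θ, S x⟫_ℝ)
    {η : E r} (hη : η ∈ Du (rc D)) (hη' : ∀ x, ⟪η, S x⟫_ℝ = ‖x‖ ^ 2) (T : E m →ₗ[ℝ] E n)
    (hT : Function.Surjective T) (hε : ε ≤ (2 * Real.exp 2)⁻¹) (hd : r ≤ d) (hp : r ≤ p)
    (hd1 : 1 ≤ d) (hp1 : 1 ≤ p) (hb : Bornology.IsBounded {x | S x ∈ D})
    (hi : (interior (T '' {x | S x ∈ D})).Nonempty) :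
    Cy A Q ε d p 7 n (T '' {x | S x ∈ D}) := by
  have hcf : Cf (rc D) S η := by
    refine ⟨hSc, fun θ hθ => ?_, hη, fun x => ?_, fun θ hθ τ hτ e => ?_⟩
    · obtain ⟨k, B, hB⟩ := hS θ hθ
      exact hB.cvx hκ
    · rw [hη']
      positivity
    · obtain ⟨k, B, hB⟩ := hS θ hθ
      have h1 := coer_sq (hB.cvx hκ) hτ e
      refine h1.subset fun x hx => ?_
      have h2 : ⟪θ + τ • η, S x⟫_ℝ ≤ e := hx
      rw [inner_add_left, real_inner_smul_left, hη'] at h2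
      exact h2
  refine ncoreT (h := 1) hD hD' hDi hcf T hT hε hd hp hd1 hp1 (fun θ hθ e hbe hie => ?_) hb hi
  obtain ⟨k, B, hB⟩ := hS θ hθ
  obtain ⟨x₀, hx₀⟩ : ∃ x₀, ⟪θ, S x₀⟫_ℝ ≤ e := by
    obtain ⟨y, hy⟩ := hie
    obtain ⟨x₀, hx₀, -⟩ := interior_subset hy
    exact ⟨x₀, hx₀⟩
  obtain ⟨B', g, hg, hgT⟩ := pin_image hκ hB T hT (bdd_all (hB.cvx hκ) hbe hx₀)
  rw [hgT] at hie ⊢
  have hbT : Bornology.IsBounded {y | g y ≤ e} := by
    rw [← hgT]
    have h1 : IsClosed {x | ⟪θ, S x⟫_ℝ ≤ e} :=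
      isClosed_le (continuous_const.inner hSc) continuous_const
    exact ((Metric.isCompact_of_isClosed_isBounded h1 hbe).image
      T.continuous_of_finiteDimensional).isBounded
  refine pn_cy hκ HA (eps_one hε) hd1 ⟨hbT, hie, fun _ => k, fun _ => B', fun _ => g, fun _ => e,
    fun _ => hg, ?_⟩
  ext y
  exact ⟨fun h _ => h, fun h => h 0⟩

end Pool.Agent.V7H69.EM
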