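import Pool.Agent.V7H69.EM.GdT

/-!
# Images of sets defined by general convex constraints on the values of pinched maps
-/

set_option autoImplicit false

namespace Pool.Agent.V7H69.EM

open MeasureTheory Set Filter Topology
open scoped ENNReal InnerProductSpace
open Pool.Agent.R754.KG (E un sl Rv)
open Pool.Agent.R755.KF
open Pool.Agent.R755.KS
open Pool.Agent.N483.KM (Cy)
open Pool.Agent.V7H69.EL (PinB Ps Pn pn_cy cvx_aff cvx_sq)

variable {r m n : ℕ} {D : Set (E r)} {S : E m → E r}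

/-- the extended constraint -/
def DF (D : Set (E r)) (Rm : E r →ₗ[ℝ] E r) (ρ : ℝ) : Set (E r × E r × E r × ℝ) :=
  {z | (∃ y ∈ D, y - Rm y = z.1 - Rm z.1 ∧ (∀ i, z.2.1 i ≤ Rm y i) ∧
    ∀ i, z.2.2.1 i ≤ -(Rm y i)) ∧ z.2.2.2 ≤ ρ}

theorem df_convex (hD' : Convex ℝ D) (Rm : E r →ₗ[ℝ] E r) (ρ : ℝ) : Convex ℝ (DF D Rm ρ) := by
  rintro z ⟨⟨y, hy, h1, h2, h3⟩, h4⟩ z' ⟨⟨y', hy', h1', h2', h3'⟩, h4'⟩ a b ha hb hab
  refine ⟨⟨a • y + b • y', hD' hy hy' ha hb hab, ?_, fun i => ?_, fun i => ?_⟩, ?_⟩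
  · change a • y + b • y' - Rm (a • y + b • y') = a • z.1 + b • z'.1 - Rm (a • z.1 + b • z'.1)
    have e1 : a • y + b • y' - Rm (a • y + b • y') = a • (y - Rm y) + b • (y' - Rm y') := by
      rw [map_add, map_smul, map_smul]
      module
    rw [e1, h1, h1', map_add, map_smul, map_smul]
    module
  · change a * z.2.1 i + b * z'.2.1 i ≤ Rm (a • y + b • y') i
    rw [map_add, map_smul, map_smul]
    change a * z.2.1 i + b * z'.2.1 i ≤ a * Rm y i + b * Rm y' i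
    have := mul_le_mul_of_nonneg_left (h2 i) ha
    have := mul_le_mul_of_nonneg_left (h2' i) hb
    linarith
  · change a * z.2.2.1 i + b * z'.2.2.1 i ≤ -(Rm (a • y + b • y') i)
    rw [map_add, map_smul, map_smul]
    change a * z.2.2.1 i + b * z'.2.2.1 i ≤ -(a * Rm y i + b * Rm y' i)
    have := mul_le_mul_of_nonneg_left (h3 i) ha
    have := mul_le_mul_of_nonneg_left (h3' i) hb
    linarith
  · change a * z.2.2.2 + b * z'.2.2.2 ≤ ρ
    have h5 := mul_le_mul_of_nonneg_left h4 ha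
    have h6 := mul_le_mul_of_nonneg_left h4' hb
    have h7 : a * ρ + b * ρ = ρ := by rw [← add_mul, hab, one_mul]
    linarith

theorem sq_le_of_between {a b c : ℝ} (h1 : a ≤ b) (h2 : c ≤ -b) : b ^ 2 ≤ a ^ 2 + c ^ 2 := by
  rcases le_total 0 b with h | h
  · nlinarith [sq_nonneg a]
  · nlinarith [sq_nonneg c]

theorem df_closed (hD : IsClosed D) (Rm : E r →ₗ[ℝ] E r) (ρ : ℝ) : IsClosed (DF D Rm ρ) := by
  have hRc : Continuous Rm := Rm.continuous_of_finiteDimensional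
  refine IsSeqClosed.isClosed fun z z₀ hz hlim => ?_
  choose y hyD hy1 hy2 hy3 using fun k => (hz k).1
  obtain ⟨R, hR⟩ := (Metric.isBounded_range_of_tendsto z hlim).exists_norm_le
  have hzR : ∀ k, ‖z k‖ ≤ R := fun k => hR _ (mem_range_self k)
  have hR0 : 0 ≤ R := (norm_nonneg _).trans (hzR 0)
  have h1 : ∀ k, ‖(z k).1‖ ≤ R := fun k => (norm_fst_le _).trans (hzR k)
  have h2 : ∀ k, ‖(z k).2.1‖ ≤ R := fun k =>
    ((norm_fst_le _).trans (norm_snd_le _)).trans (hzR k)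
  have h3 : ∀ k, ‖(z k).2.2.1‖ ≤ R := fun k =>
    ((norm_fst_le _).trans ((norm_snd_le _).trans (norm_snd_le _))).trans (hzR k)
  have hRy : ∀ k, ‖Rm (y k)‖ ≤ 2 * R := by
    intro k
    have h4 : ‖Rm (y k)‖ ^ 2 ≤ ‖(z k).2.1‖ ^ 2 + ‖(z k).2.2.1‖ ^ 2 := by
      rw [EuclideanSpace.norm_sq_eq, EuclideanSpace.norm_sq_eq, EuclideanSpace.norm_sq_eq,
        ← Finset.sum_add_distrib]
      refine Finset.sum_le_sum fun i _ => ?_
      simp only [Real.norm_eq_abs, sq_abs]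
      exact sq_le_of_between (hy2 k i) (hy3 k i)
    have h5 : ‖(z k).2.1‖ ^ 2 ≤ R ^ 2 := pow_le_pow_left₀ (norm_nonneg _) (h2 k) 2
    have h6 : ‖(z k).2.2.1‖ ^ 2 ≤ R ^ 2 := pow_le_pow_left₀ (norm_nonneg _) (h3 k) 2
    nlinarith [norm_nonneg (Rm (y k))]
  obtain ⟨c, hc0, hc⟩ : ∃ c : ℝ, 0 ≤ c ∧ ∀ v, ‖Rm v‖ ≤ c * ‖v‖ :=
    ⟨‖LinearMap.toContinuousLinearMap Rm‖, norm_nonneg _, fun v =>
      (LinearMap.toContinuousLinearMap Rm).le_opNorm v⟩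
  have hyb : ∀ k, ‖y k‖ ≤ R + c * R + 2 * R := by
    intro k
    have e1 : y k = (z k).1 - Rm (z k).1 + Rm (y k) := by rw [← hy1 k]; abel
    rw [e1]
    refine (norm_add_le _ _).trans (add_le_add ((norm_sub_le _ _).trans ?_) (hRy k))
    have h4 := hc (z k).1
    have h5 : c * ‖(z k).1‖ ≤ c * R := mul_le_mul_of_nonneg_left (h1 k) hc0
    linarith [h1 k]
  obtain ⟨y₀, -, φ, hφ, hy₀⟩ := tendsto_subseq_of_bounded
    (Metric.isBounded_closedBall (x := (0 : E r)) (r := R + c * R + 2 * R))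
    (fun k => mem_closedBall_zero_iff.2 (hyb k))
  have hl := hlim.comp hφ.tendsto_atTop
  have l1 : Tendsto (fun k => (z (φ k)).1) atTop (𝓝 z₀.1) := (continuous_fst.tendsto _).comp hl
  have l2 : Tendsto (fun k => (z (φ k)).2) atTop (𝓝 z₀.2) := (continuous_snd.tendsto _).comp hl
  have l21 : Tendsto (fun k => (z (φ k)).2.1) atTop (𝓝 z₀.2.1) :=
    (continuous_fst.tendsto _).comp l2
  have l22 : Tendsto (fun k => (z (φ k)).2.2) atTop (𝓝 z₀.2.2) :=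
    (continuous_snd.tendsto _).comp l2
  have l221 : Tendsto (fun k => (z (φ k)).2.2.1) atTop (𝓝 z₀.2.2.1) :=
    (continuous_fst.tendsto _).comp l22
  have l222 : Tendsto (fun k => (z (φ k)).2.2.2) atTop (𝓝 z₀.2.2.2) :=
    (continuous_snd.tendsto _).comp l22
  have lR : Tendsto (fun k => Rm (y (φ k))) atTop (𝓝 (Rm y₀)) := (hRc.tendsto _).comp hy₀
  have lc : ∀ (i : Fin r) {u : ℕ → E r} {u₀ : E r}, Tendsto u atTop (𝓝 u₀) →
      Tendsto (fun k => u k i) atTop (𝓝 (u₀ i)) := fun i u u₀ hu =>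
    ((by fun_prop : Continuous fun v : E r => v i).tendsto _).comp hu
  refine ⟨⟨y₀, hD.mem_of_tendsto hy₀ (Eventually.of_forall fun k => hyD _), ?_, fun i => ?_,
    fun i => ?_⟩, ?_⟩
  · exact tendsto_nhds_unique (hy₀.sub lR) ((l1.sub ((hRc.tendsto _).comp l1)).congr
      fun k => (hy1 (φ k)).symm)
  · exact le_of_tendsto_of_tendsto' (lc i l21) (lc i lR) fun k => hy2 (φ k) i
  · exact le_of_tendsto_of_tendsto' (lc i l221) (lc i lR).neg fun k => hy3 (φ k) i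
  · exact le_of_tendsto' l222 fun k => (hz (φ k)).2

/-- the directions in which the extended constraint can be decreased -/
def GF (D : Set (E r)) (Rm : E r →ₗ[ℝ] E r) : Set (E r × E r × E r × ℝ) :=
  {z | z.1 - Rm z.1 ∈ rc D ∧ (∀ i, 0 ≤ z.2.1 i) ∧ (∀ i, 0 ≤ z.2.2.1 i) ∧ 0 ≤ z.2.2.2}

theorem gf_sub {Rm : E r →ₗ[ℝ] E r} (h1 : ∀ v, Rm (Rm v) = Rm v) {ρ : ℝ}
    {z : E r × E r × E r × ℝ} (hz : z ∈ DF D Rm ρ) {g : E r × E r × E r × ℝ}
    (hg : g ∈ GF D Rm) : z - g ∈ DF D Rm ρ := by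
  obtain ⟨⟨y, hy, h2, h3, h4⟩, h5⟩ := hz
  obtain ⟨g1, g2, g3, g4⟩ := hg
  have e0 : Rm (y - (g.1 - Rm g.1)) = Rm y := by
    rw [map_sub, map_sub, h1, sub_self, sub_zero]
  refine ⟨⟨y - (g.1 - Rm g.1), g1 y hy, ?_, fun i => ?_, fun i => ?_⟩, ?_⟩
  · rw [e0]
    change y - (g.1 - Rm g.1) - Rm y = z.1 - g.1 - Rm (z.1 - g.1)
    rw [map_sub]
    have : y - (g.1 - Rm g.1) - Rm y = (y - Rm y) - (g.1 - Rm g.1) := by abel
    rw [this, h2]
    abel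
  · rw [e0]
    change z.2.1 i - g.2.1 i ≤ Rm y i
    linarith [h3 i, g2 i]
  · rw [e0]
    change z.2.2.1 i - g.2.2.1 i ≤ -(Rm y i)
    linarith [h4 i, g3 i]
  · change z.2.2.2 - g.2.2.2 ≤ ρ
    linarith

/-- **Images of sets defined by a constraint on the values of pinched maps.** -/
theorem pgen {A : ℝ → ℝ} {Q ε κ : ℝ} {d p : ℕ} (hκ : 1 ≤ κ) (HA : ∀ (m : ℕ)
    (K : Set (E m)), Ps κ 1 m K → ∀ δ : ℝ, 0 < δ → KM (A δ) δ (un K)) (hD : IsClosed D)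
    (hD' : Convex ℝ D) (hSc : Continuous S)
    (hS : ∀ θ ∈ Du (rc D), ∃ (k : ℕ) (B : E m →ₗ[ℝ] E k), PinB κ B fun x => ⟪θ, S x⟫_ℝ)
    (T : E m →ₗ[ℝ] E n) (hT : Function.Surjective T) (hε : ε ≤ (2 * Real.exp 2)⁻¹)
    (hd : 3 * r + 1 ≤ d) (hp : 3 * r + 1 ≤ p) (hb : Bornology.IsBounded {x | S x ∈ D})
    (hi : (interior (T '' {x | S x ∈ D})).Nonempty) :
    Cy A Q ε d p 7 n (T '' {x | S x ∈ D}) := by
  have hκ0 : 0 < κ := by linarith
  obtain ⟨Rm, hRw, hRs, hRR, hRi⟩ := proj_ex hD'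
  have hRc : Continuous Rm := Rm.continuous_of_finiteDimensional
  -- the part of `S` which is affine
  obtain ⟨A₀, hA₀⟩ := aff_of (g := fun x => Rm (S x) - Rm (S 0))
    ((hRc.comp hSc).sub continuous_const) (sub_self _)
    (fun θ => by
      have h1 : Rm θ ∈ Du (rc D) := fun v hv => by
        rw [← hRs, hRw v hv, inner_zero_right]
      obtain ⟨k, B, hB⟩ := hS _ h1
      have h2 := (hB.cvx hκ0).add (convexOn_const (-⟪θ, Rm (S 0)⟫_ℝ) convex_univ)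
      refine h2.congr fun x _ => ?_
      simp only [Pi.add_apply, inner_sub_right, hRs]
      ring)
  have hA : ∀ x, Rm (S x) = A₀ x + Rm (S 0) := fun x => by
    rw [← hA₀ x]
    abel
  obtain ⟨R, hR⟩ := hb.exists_norm_le
  obtain ⟨ρ, hρ⟩ : ∃ ρ : ℝ, ρ = R ^ 2 := ⟨_, rfl⟩
  let Φ : (E r × E r × E r × ℝ) ≃ₗ[ℝ] E (3 * r + 1) :=
    LinearEquiv.ofFinrankEq _ _ (by simp; ring)
  have hΦ : Continuous Φ := Φ.toLinearMap.continuous_of_finiteDimensional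
  have hΦs : Continuous Φ.symm := Φ.symm.toLinearMap.continuous_of_finiteDimensional
  obtain ⟨D2, hD2⟩ : ∃ D2 : Set (E (3 * r + 1)), D2 = Φ.symm ⁻¹' DF D Rm ρ := ⟨_, rfl⟩
  obtain ⟨S2, hS2⟩ : ∃ S2 : E m → E (3 * r + 1),
      S2 = fun x => Φ (S x, Rm (S x), -Rm (S x), ‖x‖ ^ 2) := ⟨_, rfl⟩
  have hset : {x | S2 x ∈ D2} = {x | S x ∈ D} := by
    ext x
    change S2 x ∈ D2 ↔ S x ∈ D
    rw [hS2, hD2]
    change Φ.symm (Φ (S x, Rm (S x), -Rm (S x), ‖x‖ ^ 2)) ∈ DF D Rm ρ ↔ S x ∈ D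
    rw [LinearEquiv.symm_apply_apply]
    constructor
    · rintro ⟨⟨y, hy, h1, h2, h3⟩, -⟩
      have h4 : Rm y = Rm (S x) := by
        ext i
        have h5 : Rm (S x) i ≤ Rm y i := h2 i
        have h6 : -(Rm (S x) i) ≤ -(Rm y i) := h3 i
        linarith
      have h5 : y - Rm y = S x - Rm (S x) := h1
      rw [h4] at h5
      have h6 : y = S x := by
        have := congrArg (· + Rm (S x)) h5
        simpa using this
      rwa [← h6]
    · intro hx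
      refine ⟨⟨S x, hx, rfl, fun i => le_rfl, fun i => le_rfl⟩, ?_⟩
      change ‖x‖ ^ 2 ≤ ρ
      rw [hρ]
      exact pow_le_pow_left₀ (norm_nonneg _) (hR x hx) 2
  have hsub : ∀ g ∈ GF D Rm, Φ g ∈ rc D2 := by
    intro g hg s hs
    rw [hD2] at hs ⊢
    change Φ.symm (s - Φ g) ∈ DF D Rm ρ
    rw [map_sub, LinearEquiv.symm_apply_apply]
    exact gf_sub hRR hs hg
  have hD2c : IsClosed D2 := by
    rw [hD2]
    exact (df_closed hD Rm ρ).preimage hΦs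
  have hD2v : Convex ℝ D2 := by
    rw [hD2]
    exact (df_convex hD' Rm ρ).linear_preimage Φ.symm.toLinearMap
  have hD2i : (interior (rc D2)).Nonempty := by
    obtain ⟨v₀, hv₀⟩ := hRi
    have ho : IsOpen {z : E r × E r × E r × ℝ | z.1 ∈ interior {v | v - Rm v ∈ rc D} ∧
        (∀ i, 0 < z.2.1 i) ∧ (∀ i, 0 < z.2.2.1 i) ∧ 0 < z.2.2.2} := by
      have o1 : IsOpen {z : E r × E r × E r × ℝ | z.1 ∈ interior {v | v - Rm v ∈ rc D}} :=
        isOpen_interior.preimage continuous_fst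
      have o2 : IsOpen (⋂ i, {z : E r × E r × E r × ℝ | 0 < z.2.1 i}) :=
        isOpen_iInter_of_finite fun i => isOpen_lt continuous_const (by fun_prop)
      have o3 : IsOpen (⋂ i, {z : E r × E r × E r × ℝ | 0 < z.2.2.1 i}) :=
        isOpen_iInter_of_finite fun i => isOpen_lt continuous_const (by fun_prop)
      have o4 : IsOpen {z : E r × E r × E r × ℝ | 0 < z.2.2.2} :=
        isOpen_lt continuous_const (by fun_prop)
      have e1 : {z : E r × E r × E r × ℝ | z.1 ∈ interior {v | v - Rm v ∈ rc D} ∧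
          (∀ i, 0 < z.2.1 i) ∧ (∀ i, 0 < z.2.2.1 i) ∧ 0 < z.2.2.2} =
          {z : E r × E r × E r × ℝ | z.1 ∈ interior {v | v - Rm v ∈ rc D}} ∩
          ((⋂ i, {z : E r × E r × E r × ℝ | 0 < z.2.1 i}) ∩
          ((⋂ i, {z : E r × E r × E r × ℝ | 0 < z.2.2.1 i}) ∩
          {z : E r × E r × E r × ℝ | 0 < z.2.2.2})) := by
        ext z
        simp only [mem_ofPred_eq, mem_inter_iff, mem_iInter]
      rw [e1]
      exact o1.inter (o2.inter (o3.inter o4))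
    have hsub2 : Φ.symm ⁻¹' {z : E r × E r × E r × ℝ | z.1 ∈ interior {v | v - Rm v ∈ rc D} ∧
        (∀ i, 0 < z.2.1 i) ∧ (∀ i, 0 < z.2.2.1 i) ∧ 0 < z.2.2.2} ⊆ rc D2 := by
      intro w hw
      obtain ⟨w1, w2, w3, w4⟩ := hw
      have h1 : Φ.symm w ∈ GF D Rm := by
        refine ⟨?_, fun i => (w2 i).le, fun i => (w3 i).le, w4.le⟩
        exact interior_subset (s := {v | v - Rm v ∈ rc D}) w1
      have h2 := hsub _ h1
      rwa [LinearEquiv.apply_symm_apply] at h2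
    refine ⟨Φ (v₀, WithLp.toLp 2 fun _ => 1, WithLp.toLp 2 fun _ => 1, 1),
      interior_maximal hsub2 (ho.preimage hΦs) ?_⟩
    rw [mem_preimage, LinearEquiv.symm_apply_apply]
    exact ⟨hv₀, fun _ => one_pos, fun _ => one_pos, one_pos⟩
  have hS2c : Continuous S2 := by
    rw [hS2]
    exact hΦ.comp (hSc.prodMk ((hRc.comp hSc).prodMk ((hRc.comp hSc).neg.prodMk (by fun_prop))))
  -- functionals
  have hS2p : ∀ θ ∈ Du (rc D2), ∃ (k : ℕ) (B : E m →ₗ[ℝ] E k),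
      PinB κ B fun x => ⟪θ, S2 x⟫_ℝ := by
    intro θ hθ
    let f : (E r × E r × E r × ℝ) →ₗ[ℝ] ℝ := (innerₛₗ ℝ θ) ∘ₗ Φ.toLinearMap
    have hf : ∀ g ∈ GF D Rm, 0 ≤ f g := fun g hg => hθ _ (hsub g hg)
    let f1 : E r →ₗ[ℝ] ℝ := f ∘ₗ LinearMap.inl ℝ (E r) (E r × E r × ℝ)
    have hf1 : ∀ v, f1 v = f (v, 0) := fun v => rfl
    obtain ⟨θ₁, hθ₁⟩ : ∃ θ₁ : E r, ∀ v, f1 v = ⟪θ₁, v⟫_ℝ :=
      ⟨(InnerProductSpace.toDual ℝ (E r)).symm (LinearMap.toContinuousLinearMap f1), fun w => by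
        rw [InnerProductSpace.toDual_symm_apply]
        rfl⟩
    have hθ1D : θ₁ ∈ Du (rc D) := by
      intro v hv
      rw [← hθ₁, hf1]
      refine hf _ ⟨?_, fun i => le_rfl, fun i => le_rfl, le_rfl⟩
      change v - Rm v ∈ rc D
      rw [hRw v hv, sub_zero]
      exact hv
    obtain ⟨k, B, hB⟩ := hS θ₁ hθ1D
    let f2 : E r →ₗ[ℝ] ℝ := f ∘ₗ ((LinearMap.inr ℝ (E r) (E r × E r × ℝ)) ∘ₗ
      (LinearMap.prod LinearMap.id (LinearMap.prod (-LinearMap.id) 0)))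
    have hf2 : ∀ s, f2 s = f (0, s, -s, 0) := fun s => rfl
    have hμ : 0 ≤ f (0, 0, 0, 1) := by
      refine hf _ ⟨?_, fun i => le_rfl, fun i => le_rfl, zero_le_one⟩
      change (0 : E r) - Rm 0 ∈ rc D
      rw [map_zero, sub_zero]
      exact rc_zero
    obtain ⟨k', B', hB'⟩ := pin_add hκ hB (f2 ∘ₗ A₀) (f2 (Rm (S 0))) hμ
    refine ⟨k', B', ?_⟩
    have e1 : (fun x => ⟪θ, S2 x⟫_ℝ) = fun x => ⟪θ₁, S x⟫_ℝ + ((f2 ∘ₗ A₀) x + f2 (Rm (S 0))) +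
        f (0, 0, 0, 1) * ‖x‖ ^ 2 := by
      funext x
      have h1 : ⟪θ, S2 x⟫_ℝ = f (S x, Rm (S x), -Rm (S x), ‖x‖ ^ 2) := by
        rw [hS2]
        rfl
      have h2 : ((S x, Rm (S x), -Rm (S x), ‖x‖ ^ 2) : E r × E r × E r × ℝ) =
          (S x, 0) + (0, Rm (S x), -Rm (S x), 0) + (‖x‖ ^ 2) • ((0, 0, 0, 1) : E r × E r × E r × ℝ) := by
        simp
      rw [h1, h2, map_add, map_add, map_smul, ← hf1, ← hf2, hθ₁, hA x, map_add, smul_eq_mul,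
        mul_comm (‖x‖ ^ 2)]
      rfl
    rw [e1]
    exact hB'
  -- the square of the norm
  let f4 : E (3 * r + 1) →ₗ[ℝ] ℝ := (LinearMap.snd ℝ (E r) ℝ) ∘ₗ (LinearMap.snd ℝ (E r) (E r × ℝ)) ∘ₗ
    (LinearMap.snd ℝ (E r) (E r × E r × ℝ)) ∘ₗ Φ.symm.toLinearMap
  have hf4 : ∀ w, f4 w = (Φ.symm w).2.2.2 := fun w => rfl
  obtain ⟨η, hη⟩ : ∃ η : E (3 * r + 1), ∀ v, f4 v = ⟪η, v⟫_ℝ :=
    ⟨(InnerProductSpace.toDual ℝ (E (3 * r + 1))).symm (LinearMap.toContinuousLinearMap f4),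
      fun w => by
        rw [InnerProductSpace.toDual_symm_apply]
        rfl⟩
  have hne : ∃ x, S x ∈ D := by
    obtain ⟨y, hy⟩ := hi
    obtain ⟨x₀, hx₀, -⟩ := interior_subset hy
    exact ⟨x₀, hx₀⟩
  have hηD : η ∈ Du (rc D2) := by
    intro v hv
    rw [← hη, hf4]
    by_contra hneg
    push Not at hneg
    obtain ⟨x, hx⟩ := hne
    have hmem : (Φ (S x, Rm (S x), -Rm (S x), ρ)) ∈ D2 := by
      rw [hD2]
      change Φ.symm (Φ (S x, Rm (S x), -Rm (S x), ρ)) ∈ DF D Rm ρ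
      rw [LinearEquiv.symm_apply_apply]
      exact ⟨⟨S x, hx, rfl, fun i => le_rfl, fun i => le_rfl⟩, le_rfl⟩
    have h1 := hv _ hmem
    rw [hD2] at h1
    have h2 : (Φ.symm (Φ (S x, Rm (S x), -Rm (S x), ρ) - v)).2.2.2 ≤ ρ := h1.2
    rw [map_sub, LinearEquiv.symm_apply_apply] at h2
    have h3 : ρ - (Φ.symm v).2.2.2 ≤ ρ := h2
    linarith
  have hη' : ∀ x, ⟪η, S2 x⟫_ℝ = ‖x‖ ^ 2 := by
    intro x
    rw [← hη, hf4, hS2, LinearEquiv.symm_apply_apply]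
  rw [← hset] at hb hi ⊢
  exact pcore hκ0 HA hD2c hD2v hD2i hS2c hS2p hηD hη' T hT hε hd hp (by omega) (by omega) hb hi

end Pool.Agent.V7H69.EM
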