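import Pool.Agent.V7H69.EM.Fa

/-!
# Minimisation over some of the variables of functions with pinched curvature
-/

set_option autoImplicit false

namespace Pool.Agent.V7H69.EM

open MeasureTheory Set Filter Topology
open scoped ENNReal InnerProductSpace
open Pool.Agent.R754.KG (E)
open Pool.Agent.V7H69.EL (PinB)

variable {m : ℕ}

/-- if one level set of a convex function is bounded and not empty, all are bounded -/
theorem bdd_all {f : E m → ℝ} (hf : ConvexOn ℝ univ f) {e₀ : ℝ}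
    (hb : Bornology.IsBounded {x | f x ≤ e₀}) {x₀ : E m} (hx : f x₀ ≤ e₀) (e : ℝ) :
    Bornology.IsBounded {x | f x ≤ e} := by
  by_contra hcon
  have hc : Continuous f := hf.locallyLipschitz.continuous
  have h1 : ¬ Bornology.IsBounded {x | f x ≤ max e e₀} := by
    intro h
    refine hcon (h.subset fun x hx => ?_)
    have hx' : f x ≤ e := hx
    exact hx'.trans (le_max_left _ _)
  obtain ⟨v, hv0, hv⟩ := ray (isClosed_le hc continuous_const)
    (by simpa using hf.convex_le (max e e₀)) (show x₀ ∈ {x | f x ≤ max e e₀} from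
      hx.trans (le_max_right _ _)) h1
  have hmem : ∀ τ : ℝ, 0 ≤ τ → x₀ + τ • v ∈ {x | f x ≤ e₀} := fun τ hτ =>
    (ray_le hf (fun τ hτ => hv τ hτ) hτ).trans hx
  obtain ⟨R, hR⟩ := hb.exists_norm_le
  have hvp : 0 < ‖v‖ := norm_pos_iff.2 hv0
  have hR0 : 0 ≤ R := (norm_nonneg _).trans (hR _ hx)
  have h2 := hR _ (hmem ((R + ‖x₀‖ + 1) / ‖v‖) (by positivity))
  have h3 : ‖((R + ‖x₀‖ + 1) / ‖v‖) • v‖ = R + ‖x₀‖ + 1 := by
    rw [norm_smul, Real.norm_eq_abs, abs_of_nonneg (by positivity)]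
    field_simp
  have h4 : ‖((R + ‖x₀‖ + 1) / ‖v‖) • v‖ ≤ ‖x₀ + ((R + ‖x₀‖ + 1) / ‖v‖) • v‖ + ‖x₀‖ := by
    have h4 := norm_sub_le (x₀ + ((R + ‖x₀‖ + 1) / ‖v‖) • v) x₀
    rwa [add_sub_cancel_left] at h4
  linarith

theorem nq {k : ℕ} (p q : E k) {a b : ℝ} (hab : a + b = 1) :
    a * ‖p‖ ^ 2 + b * ‖q‖ ^ 2 - ‖a • p + b • q‖ ^ 2 = a * b * ‖p - q‖ ^ 2 := by
  have hb : b = 1 - a := by linarith
  rw [norm_add_sq_real, norm_sub_sq_real, norm_smul, norm_smul, mul_pow, mul_pow,
    real_inner_smul_left, real_inner_smul_right, Real.norm_eq_abs, Real.norm_eq_abs, sq_abs,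
    sq_abs, hb]
  ring

/-- the form obtained from the square of a norm by minimisation over some of the variables -/
theorem schur {n k : ℕ} (B : E m →ₗ[ℝ] E k) (T : E m →ₗ[ℝ] E n) (hT : Function.Surjective T) :
    ∃ R : E n →ₗ[ℝ] E m, (∀ y, T (R y) = y) ∧ ∀ z, ‖B (R (T z))‖ ^ 2 ≤ ‖B z‖ ^ 2 := by
  obtain ⟨R0, hR0⟩ := LinearMap.exists_rightInverse_of_surjective T (LinearMap.range_eq_top.2 hT)
  have hR0' : ∀ y, T (R0 y) = y := fun y => LinearMap.congr_fun hR0 y
  let V : Submodule ℝ (E k) := (LinearMap.ker T).map B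
  obtain ⟨G, hG⟩ := LinearMap.exists_rightInverse_of_surjective (B.submoduleMap (LinearMap.ker T))
    (LinearMap.range_eq_top.2 (B.submoduleMap_surjective (LinearMap.ker T)))
  have hG' : ∀ v : V, B (G v) = v := fun v =>
    congrArg Subtype.val (LinearMap.congr_fun hG v)
  let PV : E k →ₗ[ℝ] V := V.orthogonalProjectionOnto.toLinearMap
  let R : E n →ₗ[ℝ] E m := R0 - (LinearMap.ker T).subtype ∘ₗ G ∘ₗ PV ∘ₗ B ∘ₗ R0
  have hR : ∀ y, R y = R0 y - (G (PV (B (R0 y))) : E m) := fun y => rfl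
  have hTR : ∀ y, T (R y) = y := by
    intro y
    rw [hR, map_sub, hR0', LinearMap.mem_ker.1 (G (PV (B (R0 y)))).2, sub_zero]
  have hBR : ∀ y, ∀ v ∈ V, ⟪B (R y), v⟫_ℝ = 0 := by
    intro y v hv
    rw [hR, map_sub, hG']
    have h1 : B (R0 y) - (PV (B (R0 y)) : E k) ∈ Vᗮ :=
      V.sub_starProjection_mem_orthogonal (B (R0 y))
    exact (V.mem_orthogonal' _).1 h1 v hv
  refine ⟨R, hTR, fun z => ?_⟩
  have h1 : z - R (T z) ∈ LinearMap.ker T := by
    rw [LinearMap.mem_ker, map_sub, hTR, sub_self]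
  have h2 : B (z - R (T z)) ∈ V := Submodule.mem_map_of_mem h1
  have h3 : B z = B (R (T z)) + B (z - R (T z)) := by rw [← map_add]; congr 1; abel
  rw [h3, norm_add_sq_real, hBR _ _ h2]
  have := sq_nonneg ‖B (z - R (T z))‖
  linarith

/-- **Minimisation over some of the variables.** -/
theorem pin_image {κ : ℝ} (hκ : 0 < κ) {n k : ℕ} {B : E m →ₗ[ℝ] E k} {f : E m → ℝ}
    (h : PinB κ B f) (T : E m →ₗ[ℝ] E n) (hT : Function.Surjective T)
    (hb : ∀ e, Bornology.IsBounded {x | f x ≤ e}) :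
    ∃ (B' : E n →ₗ[ℝ] E k) (g : E n → ℝ), PinB κ B' g ∧
      ∀ e, T '' {x | f x ≤ e} = {y | g y ≤ e} := by
  have hc : Continuous f := (h.cvx hκ).locallyLipschitz.continuous
  have hTc : Continuous T := T.continuous_of_finiteDimensional
  have hex : ∀ y, ∃ x, T x = y ∧ ∀ x', T x' = y → f x ≤ f x' := by
    intro y
    obtain ⟨x₁, hx₁⟩ := hT y
    have h1 : IsCompact ({x | f x ≤ f x₁} ∩ {x | T x = y}) :=
      (Metric.isCompact_of_isClosed_isBounded (isClosed_le hc continuous_const) (hb _)).inter_right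
        (isClosed_eq hTc continuous_const)
    have h0 : f x₁ ≤ f x₁ := le_rfl
    obtain ⟨x, hx, hmin⟩ := h1.exists_isMinOn ⟨x₁, h0, hx₁⟩ hc.continuousOn
    refine ⟨x, hx.2, fun x' hx' => ?_⟩
    rcases le_total (f x') (f x₁) with h2 | h2
    · exact hmin ⟨h2, hx'⟩
    · exact le_trans hx.1 h2
  choose x hx hmin using hex
  obtain ⟨R, hR1, hR2⟩ := schur B T hT
  refine ⟨B ∘ₗ R, fun y => f (x y), ⟨⟨convex_univ, ?_⟩, ⟨convex_univ, ?_⟩⟩, fun e => ?_⟩
  · intro y _ y' _ a b ha hb' hab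
    have h1 := h.lower.2 (mem_univ (x y)) (mem_univ (x y')) ha hb' hab
    simp only [smul_eq_mul] at h1 ⊢
    have h2 := nq (B (x y)) (B (x y')) hab
    have h3 := nq (B (R y)) (B (R y')) hab
    have h4 := hR2 (x y - x y')
    rw [map_sub, hx, hx, map_sub, map_sub, map_sub] at h4
    have h5 := hmin (a • y + b • y') (a • x y + b • x y')
      (by rw [map_add, map_smul, map_smul, hx, hx])
    have h6 : B (a • x y + b • x y') = a • B (x y) + b • B (x y') := by
      rw [map_add, map_smul, map_smul]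
    have h7 : (B ∘ₗ R) (a • y + b • y') = a • B (R y) + b • B (R y') := by
      rw [map_add, map_smul, map_smul]
      rfl
    rw [h7]
    rw [h6] at h1
    have h8 : (B ∘ₗ R) y = B (R y) := rfl
    have h9 : (B ∘ₗ R) y' = B (R y') := rfl
    rw [h8, h9]
    have hki : 0 < κ⁻¹ := inv_pos.2 hκ
    have h10 : a * b * ‖B (R y) - B (R y')‖ ^ 2 ≤ a * b * ‖B (x y) - B (x y')‖ ^ 2 := by
      gcongr
    have h11 := mul_le_mul_of_nonneg_left h10 hki.le
    rw [← h2, ← h3] at h11
    nlinarith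
  · intro y _ y' _ a b ha hb' hab
    obtain ⟨u, hu⟩ : ∃ u, u = x (a • y + b • y') := ⟨_, rfl⟩
    obtain ⟨hh, hhh⟩ : ∃ hh, hh = R (y - y') := ⟨_, rfl⟩
    have hTu : T u = a • y + b • y' := by rw [hu, hx]
    have hThh : T hh = y - y' := by rw [hhh, hR1]
    have h1 := h.upper.2 (mem_univ (u + b • hh)) (mem_univ (u - a • hh)) ha hb' hab
    have e1 : a • (u + b • hh) + b • (u - a • hh) = (a + b) • u := by module
    rw [e1, hab, one_smul] at h1
    simp only [smul_eq_mul] at h1 ⊢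
    have h2 := nq (B (u + b • hh)) (B (u - a • hh)) hab
    have e2 : a • B (u + b • hh) + b • B (u - a • hh) = B u := by
      rw [← map_smul, ← map_smul, ← map_add, e1, hab, one_smul]
    have e3 : B (u + b • hh) - B (u - a • hh) = B (R y) - B (R y') := by
      rw [← map_sub, ← map_sub, ← map_sub, ← hhh]
      congr 1
      have : b • hh + a • hh = hh := by rw [← add_smul, add_comm, hab, one_smul]
      calc u + b • hh - (u - a • hh) = b • hh + a • hh := by abel
        _ = hh := this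
    rw [e2, e3] at h2
    have h3 := nq (B (R y)) (B (R y')) hab
    have h5 := hmin y (u + b • hh) (by
      rw [map_add, map_smul, hTu, hThh]
      have : a • y + b • y' + b • (y - y') = (a + b) • y := by module
      rw [this, hab, one_smul])
    have h6 := hmin y' (u - a • hh) (by
      rw [map_sub, map_smul, hTu, hThh]
      have : a • y + b • y' - a • (y - y') = (a + b) • y' := by module
      rw [this, hab, one_smul])
    have h7 : (B ∘ₗ R) (a • y + b • y') = a • B (R y) + b • B (R y') := by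
      rw [map_add, map_smul, map_smul]
      rfl
    rw [h7, ← hu]
    have h8 : (B ∘ₗ R) y = B (R y) := rfl
    have h9 : (B ∘ₗ R) y' = B (R y') := rfl
    rw [h8, h9]
    have h10 := mul_le_mul_of_nonneg_left h5 ha
    have h11 := mul_le_mul_of_nonneg_left h6 hb'
    nlinarith
  · ext y
    constructor
    · rintro ⟨z, hz, rfl⟩
      exact le_trans (hmin (T z) z rfl) hz
    · intro hy
      exact ⟨x y, hy, hx y⟩

end Pool.Agent.V7H69.EM
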