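import Pool.Agent.V7H69.EM.Coer

/-!
# Affine minorants of convex maps into ordered spaces
-/

set_option autoImplicit false

namespace Pool.Agent.V7H69.EM

open MeasureTheory Set Filter Topology
open scoped ENNReal InnerProductSpace
open Pool.Agent.R754.KG (E un sl Rv)

variable {r m : ℕ} {C : Set (E r)}

/-- the tangent of a convex function -/
theorem tang {f : E m → ℝ} (hf : ConvexOn ℝ univ f) {x₁ : E m} (hd : DifferentiableAt ℝ f x₁)
    (x : E m) : f x₁ + fderiv ℝ f x₁ (x - x₁) ≤ f x := by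
  have h1 : HasDerivAt (fun t : ℝ => f (x₁ + t • (x - x₁))) (fderiv ℝ f x₁ (x - x₁)) 0 := by
    have h2 : HasFDerivAt f (fderiv ℝ f x₁) (x₁ + (0 : ℝ) • (x - x₁)) := by
      rw [zero_smul, add_zero]
      exact hd.hasFDerivAt
    have h3 : HasDerivAt (fun t : ℝ => x₁ + t • (x - x₁)) (x - x₁) 0 := by
      have h4 := ((hasDerivAt_id (0 : ℝ)).smul_const (x - x₁)).const_add x₁
      simpa using h4
    exact h2.comp_hasDerivAt 0 h3
  have h2 := h1.tendsto_slope_zero_right
  simp only [zero_add, zero_smul, add_zero, smul_eq_mul] at h2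
  have h3 : ∀ᶠ t : ℝ in 𝓝[>] 0, t⁻¹ * (f (x₁ + t • (x - x₁)) - f x₁) ≤ f x - f x₁ := by
    have h4 : ∀ᶠ t : ℝ in 𝓝[>] 0, t < 1 :=
      (gt_mem_nhds one_pos).filter_mono nhdsWithin_le_nhds
    filter_upwards [h4, self_mem_nhdsWithin] with t ht1 ht0
    have ht0' : 0 < t := ht0
    have h5 := hf.2 (mem_univ x₁) (mem_univ x) (by linarith : 0 ≤ 1 - t) ht0'.le (by ring)
    have e1 : (1 - t) • x₁ + t • x = x₁ + t • (x - x₁) := by module
    rw [e1] at h5
    simp only [smul_eq_mul] at h5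
    rw [inv_mul_le_iff₀ ht0']
    linarith
  have h4 := le_of_tendsto h2 h3
  linarith

/-- finitely many convex functions have a common point of differentiability -/
theorem diff_pt {ι : Type} [Finite ι] {f : ι → E m → ℝ} (hf : ∀ i, ConvexOn ℝ univ (f i)) :
    ∃ x₁, ∀ i, DifferentiableAt ℝ (f i) x₁ := by
  have h1 : ∀ i, ∀ᵐ x ∂(volume : Measure (E m)), x ∈ Metric.closedBall (0 : E m) 1 →
      DifferentiableWithinAt ℝ (f i) (Metric.closedBall (0 : E m) 1) x := by
    intro i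
    have h2 : LocallyLipschitzOn (Metric.closedBall (0 : E m) 1) (f i) :=
      (hf i).locallyLipschitz.locallyLipschitzOn
    obtain ⟨K, hK⟩ := h2.exists_lipschitzOnWith_of_compact (isCompact_closedBall 0 1)
    exact hK.ae_differentiableWithinAt_of_mem
  have h2 := ae_all_iff.2 h1
  have h3 : volume (Metric.ball (0 : E m) 1) ≠ 0 := (Metric.measure_ball_pos _ _ one_pos).ne'
  obtain ⟨x, hx, hx2⟩ : ∃ x ∈ Metric.ball (0 : E m) 1, ∀ i, x ∈ Metric.closedBall (0 : E m) 1 →
      DifferentiableWithinAt ℝ (f i) (Metric.closedBall (0 : E m) 1) x := by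
    by_contra hcon
    push Not at hcon
    apply h3
    refine measure_mono_null (fun x hx => ?_) (ae_iff.1 h2)
    obtain ⟨i, h5, h6⟩ := hcon x hx
    exact fun h7 => h6 (h7 i h5)
  refine ⟨x, fun i => ?_⟩
  refine (hx2 i (Metric.ball_subset_closedBall hx)).differentiableAt ?_
  exact Filter.mem_of_superset (Metric.isOpen_ball.mem_nhds hx) Metric.ball_subset_closedBall

/-- convex maps have affine minorants -/
theorem minorC {S : E m → E r} (hC : Cn C)
    (hS : ∀ θ ∈ Du C, ConvexOn ℝ univ fun x => ⟪θ, S x⟫_ℝ) :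
    ∃ (l : E m →ₗ[ℝ] E r) (b : E r), ∀ x, S x - l x - b ∈ C := by
  classical
  obtain ⟨b, hbD, hbs, hbi⟩ := exists_linearIndependent ℝ (Du C)
  have hfin : Finite b := hbi.setFinite
  obtain ⟨x₁, hx₁⟩ := diff_pt (ι := b) (f := fun θ x => ⟪(θ : E r), S x⟫_ℝ)
    (fun θ => hS θ (hbD θ.2))
  have hbi' : LinearIndepOn ℝ id b := hbi
  let B := Module.Basis.extend hbi'
  let Ψ : E r →ₗ[ℝ] E m := B.constr ℝ fun θ =>
    if (θ : E r) ∈ b then (InnerProductSpace.toDual ℝ (E m)).symm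
      (fderiv ℝ (fun x => ⟪(θ : E r), S x⟫_ℝ) x₁) else 0
  have hΨ : ∀ θ ∈ b, Ψ θ = (InnerProductSpace.toDual ℝ (E m)).symm
      (fderiv ℝ (fun x => ⟪θ, S x⟫_ℝ) x₁) := by
    intro θ hθ
    have h1 : θ ∈ hbi'.extend (subset_univ b) := hbi'.subset_extend _ hθ
    have h2 : B ⟨θ, h1⟩ = θ := Module.Basis.extend_apply_self hbi' _
    have h3 := B.constr_basis ℝ (fun θ => if (θ : E r) ∈ b then
      (InnerProductSpace.toDual ℝ (E m)).symm
      (fderiv ℝ (fun x => ⟪(θ : E r), S x⟫_ℝ) x₁) else 0) ⟨θ, h1⟩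
    rw [h2] at h3
    rw [show Ψ θ = _ from h3, if_pos hθ]
  have hder : ∀ θ ∈ Submodule.span ℝ b,
      HasFDerivAt (fun x => ⟪θ, S x⟫_ℝ) (innerSL ℝ (Ψ θ)) x₁ := by
    intro θ hθ
    induction hθ using Submodule.span_induction with
    | mem θ hθ =>
      have h1 := (hx₁ ⟨θ, hθ⟩).hasFDerivAt
      have h2 : innerSL ℝ (Ψ θ) = fderiv ℝ (fun x => ⟪θ, S x⟫_ℝ) x₁ := by
        ext y
        rw [hΨ θ hθ, innerSL_apply_apply, InnerProductSpace.toDual_symm_apply]
      rw [h2]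
      exact h1
    | zero =>
      simp only [inner_zero_left, map_zero]
      exact hasFDerivAt_const _ _
    | add θ η _ _ h1 h2 =>
      simp only [inner_add_left, map_add]
      exact h1.add h2
    | smul a θ _ h1 =>
      simp only [real_inner_smul_left, map_smul]
      exact h1.const_mul a
  let l : E m →ₗ[ℝ] E r := LinearMap.adjoint Ψ
  have hl : ∀ θ x, ⟪θ, l x⟫_ℝ = ⟪Ψ θ, x⟫_ℝ := fun θ x => LinearMap.adjoint_inner_right Ψ θ x
  refine ⟨l, S x₁ - l x₁, fun x => hC.bip fun θ hθ => ?_⟩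
  have h1 := hder θ (by rw [hbs]; exact Submodule.subset_span hθ)
  have h2 := tang (hS θ hθ) h1.differentiableAt x
  rw [h1.fderiv, innerSL_apply_apply] at h2
  rw [inner_sub_right, inner_sub_right, inner_sub_right, hl, hl]
  rw [inner_sub_right] at h2
  linarith

end Pool.Agent.V7H69.EM
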