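import Pool.Agent.V7H69.EM.Dc

/-!
# Sets defined by convex constraints on the values of a convex map: without a strict point
-/

set_option autoImplicit false

namespace Pool.Agent.V7H69.EM

open MeasureTheory Set Filter Topology
open scoped ENNReal InnerProductSpace
open Pool.Agent.R754.KG (E un sl Rv)
open Pool.Agent.R755.KF
open Pool.Agent.R755.KS
open Pool.Agent.N483.KM (Cy)
open Pool.Agent.V7H69.EL (coords)

variable {r m : ℕ} {D : Set (E r)} {S : E m → E r}

/-- translates of the constraint -/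
def Sh (D : Set (E r)) (u : E r) (τ : ℝ) : Set (E r) := {s | s - τ • u ∈ D}

theorem sh_rc (u : E r) (τ : ℝ) : rc (Sh D u τ) = rc D := by
  ext v
  constructor
  · intro h s hs
    have h1 := h (s + τ • u) (show s + τ • u - τ • u ∈ D by rwa [add_sub_cancel_right])
    have h2 : s + τ • u - v - τ • u ∈ D := h1
    have e1 : s + τ • u - v - τ • u = s - v := by abel
    rwa [e1] at h2
  · intro h s hs
    have h1 := h _ hs
    have e1 : s - τ • u - v = s - v - τ • u := by abel
    rw [e1] at h1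
    exact h1

theorem sh_mono (hD' : Convex ℝ D) {u : E r} (hu : u ∈ rc D) {τ τ' : ℝ} (h : τ ≤ τ') :
    Sh D u τ ⊆ Sh D u τ' := by
  intro s hs
  have h1 := rc_smul hD' (τ' - τ) (by linarith) u hu _ hs
  have e1 : s - τ • u - (τ' - τ) • u = s - τ' • u := by module
  rw [e1] at h1
  exact h1

theorem sh_closed (hD : IsClosed D) (u : E r) (τ : ℝ) : IsClosed (Sh D u τ) :=
  hD.preimage (continuous_id.sub continuous_const)

theorem sh_convex (hD' : Convex ℝ D) (u : E r) (τ : ℝ) : Convex ℝ (Sh D u τ) := by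
  intro s hs s' hs' a b ha hb hab
  have h1 := hD' hs hs' ha hb hab
  have e1 : a • (s - τ • u) + b • (s' - τ • u) = a • s + b • s' - ((a + b) * τ) • u := by module
  rw [e1, hab, one_mul] at h1
  exact h1

/-- convexity of the set of all pairs -/
theorem sh_comb (hD' : Convex ℝ D) (hC : Cn (rc D))
    (hSv : ∀ θ ∈ Du (rc D), ConvexOn ℝ univ fun x => ⟪θ, S x⟫_ℝ) (u : E r) {x y : E m}
    {τ τ' a b : ℝ} (ha : 0 ≤ a) (hb : 0 ≤ b) (hab : a + b = 1) (hx : S x ∈ Sh D u τ)
    (hy : S y ∈ Sh D u τ') : S (a • x + b • y) ∈ Sh D u (a * τ + b * τ') := by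
  have h1 := hD' hx hy ha hb hab
  have h2 : a • S x + b • S y - S (a • x + b • y) ∈ rc D := by
    have h3 := lv_comb hC hSv ha hb hab (s := S x) (s' := S y) (x := x) (y := y)
      (by change S x - S x ∈ rc D; rw [sub_self]; exact hC.zero)
      (by change S y - S y ∈ rc D; rw [sub_self]; exact hC.zero)
    exact h3
  have h4 := h2 _ h1
  have e1 : a • (S x - τ • u) + b • (S y - τ' • u) - (a • S x + b • S y - S (a • x + b • y)) =
      S (a • x + b • y) - (a * τ + b * τ') • u := by module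
  rw [e1] at h4
  exact h4

/-- small enlargements are bounded and have almost the same volume -/
theorem sh_near (hD : IsClosed D) (hD' : Convex ℝ D) (hC : Cn (rc D)) (hSc : Continuous S)
    (hSv : ∀ θ ∈ Du (rc D), ConvexOn ℝ univ fun x => ⟪θ, S x⟫_ℝ) {u : E r} (hu : u ∈ rc D)
    (hb : Bornology.IsBounded {x | S x ∈ D}) (hi : (interior {x | S x ∈ D}).Nonempty) :
    ∃ δ : ℝ, 0 < δ ∧ Bornology.IsBounded {x | S x ∈ Sh D u δ} ∧
      volume {x | S x ∈ Sh D u δ} ≤ 2 * volume {x | S x ∈ D} := by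
  have e0 : {x | S x ∈ Sh D u 0} = {x | S x ∈ D} := by
    ext x
    change S x - (0 : ℝ) • u ∈ D ↔ S x ∈ D
    rw [zero_smul, sub_zero]
  let τ : ℕ → ℝ := fun n => 1 / ((n : ℝ) + 1)
  have hτ : ∀ n, 0 < τ n := fun n => by
    change 0 < 1 / ((n : ℝ) + 1)
    positivity
  have hτa : Antitone τ := by
    intro a b hab
    have h1 : (a : ℝ) ≤ b := by exact_mod_cast hab
    change 1 / ((b : ℝ) + 1) ≤ 1 / ((a : ℝ) + 1)
    apply one_div_le_one_div_of_le <;> [positivity; linarith]
  have hcl : ∀ t, IsClosed {x | S x ∈ Sh D u t} := fun t => (sh_closed hD u t).preimage hSc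
  have hanti : Antitone fun n => {x | S x ∈ Sh D u (τ n)} := by
    intro a b hab x hx
    exact sh_mono hD' hu (hτa hab) hx
  have hint : ⋂ n, {x | S x ∈ Sh D u (τ n)} = {x | S x ∈ D} := by
    ext x
    constructor
    · intro hx
      have h1 : ∀ n, S x - τ n • u ∈ D := fun n => mem_iInter.1 hx n
      have h2 : Tendsto (fun n => S x - τ n • u) atTop (𝓝 (S x - (0 : ℝ) • u)) :=
        tendsto_const_nhds.sub (tendsto_one_div_add_atTop_nhds_zero_nat.smul_const u)
      rw [zero_smul, sub_zero] at h2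
      exact hD.mem_of_tendsto h2 (Eventually.of_forall h1)
    · intro hx
      rw [← e0] at hx
      exact mem_iInter.2 fun n => sh_mono hD' hu (hτ n).le hx
  obtain ⟨x₀, hx₀⟩ := hi
  have hx₀' : x₀ ∈ {x | S x ∈ D} := interior_subset hx₀
  obtain ⟨R, hR⟩ := hb.exists_norm_le
  have hR0 : 0 ≤ R := (norm_nonneg _).trans (hR _ hx₀')
  -- boundedness
  obtain ⟨n₀, hn₀⟩ : ∃ n₀, Bornology.IsBounded {x | S x ∈ Sh D u (τ n₀)} := by
    by_contra hcon
    push Not at hcon
    have h1 : ∀ n, ({x | S x ∈ Sh D u (τ n)} ∩ Metric.sphere 0 (R + 1)).Nonempty := by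
      intro n
      obtain ⟨z, hz, hzR⟩ : ∃ z ∈ {x | S x ∈ Sh D u (τ n)}, R + 1 < ‖z‖ := by
        by_contra hcon'
        push Not at hcon'
        apply hcon n
        rw [isBounded_iff_forall_norm_le]
        exact ⟨R + 1, hcon'⟩
      have hc : ContinuousOn (fun t : ℝ => ‖x₀ + t • (z - x₀)‖) (Icc 0 1) := by fun_prop
      have h2 := intermediate_value_Icc zero_le_one hc
      have h3 : R + 1 ∈ Icc ((fun t : ℝ => ‖x₀ + t • (z - x₀)‖) 0)
          ((fun t : ℝ => ‖x₀ + t • (z - x₀)‖) 1) := by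
        constructor
        · simp only [zero_smul, add_zero]
          linarith [hR _ hx₀']
        · simp only [one_smul, add_sub_cancel]
          exact hzR.le
      obtain ⟨t, ht, ht'⟩ := h2 h3
      have hx0n : S x₀ ∈ Sh D u (τ n) := by
        have : x₀ ∈ {x | S x ∈ Sh D u 0} := by rw [e0]; exact hx₀'
        exact sh_mono hD' hu (hτ n).le this
      have h4 := sh_comb hD' hC hSv u (sub_nonneg.2 ht.2) ht.1 (by ring) hx0n hz
      have e1 : (1 - t) * τ n + t * τ n = τ n := by ring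
      have e2 : (1 - t) • x₀ + t • z = x₀ + t • (z - x₀) := by module
      rw [e1, e2] at h4
      exact ⟨_, h4, by rw [mem_sphere_zero_iff_norm]; exact ht'⟩
    have h2 := IsCompact.nonempty_iInter_of_sequence_nonempty_isCompact_isClosed
      (fun n => {x | S x ∈ Sh D u (τ n)} ∩ Metric.sphere (0 : E m) (R + 1))
      (fun n => inter_subset_inter_left _ (hanti (Nat.le_succ n))) h1
      ((isCompact_sphere _ _).inter_left (hcl _))
      (fun n => (hcl _).inter Metric.isClosed_sphere)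
    obtain ⟨y, hy⟩ := h2
    have h3 : y ∈ {x | S x ∈ D} := by
      rw [← hint]
      exact mem_iInter.2 fun n => (mem_iInter.1 hy n).1
    have h4 : ‖y‖ = R + 1 := mem_sphere_zero_iff_norm.1 (mem_iInter.1 hy 0).2
    linarith [hR _ h3]
  -- volume
  have ht := tendsto_measure_iInter_atTop (μ := (volume : Measure (E m)))
    (fun n => (hcl (τ n)).measurableSet.nullMeasurableSet) hanti ⟨n₀, hn₀.measure_lt_top.ne⟩
  rw [hint] at ht
  have hp : volume {x | S x ∈ D} ≠ 0 :=
    ((isOpen_interior.measure_pos (volume : Measure (E m)) ⟨x₀, hx₀⟩).trans_le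
      (measure_mono interior_subset)).ne'
  have h1 : volume {x | S x ∈ D} < 2 * volume {x | S x ∈ D} := by
    have h2 := ENNReal.mul_lt_mul_left hp hb.measure_lt_top.ne (show (1 : ℝ≥0∞) < 2 by norm_num)
    rwa [one_mul] at h2
  obtain ⟨n, hn1, hn2⟩ := ((ht.eventually (gt_mem_nhds h1)).and (eventually_ge_atTop n₀)).exists
  exact ⟨τ n, hτ n, hn₀.subset (hanti hn2), le_of_lt hn1⟩

/-- the point of `ℝ^1` -/
def pt (a : ℝ) : E 1 := WithLp.toLp 2 fun _ => a

theorem pt_ap (a : ℝ) : pt a 0 = a := rfl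

theorem pt_eq (t : E 1) : pt (t 0) = t := by
  ext i
  fin_cases i
  rfl

/-- the body over the enlargements -/
def Bw {m : ℕ} (D : Set (E r)) (S : E m → E r) (u : E r) (δ : ℝ) : Set (E m × E 1) :=
  {z | S z.1 ∈ Sh D u (z.2 0) ∧ 0 ≤ z.2 0 ∧ z.2 0 ≤ δ}

/-- sets defined by a constraint on the values -/
theorem ncore {A : ℝ → ℝ} {Q ε : ℝ} {d p h : ℕ} (hD : IsClosed D) (hD' : Convex ℝ D)
    (hDi : (interior (rc D)).Nonempty) (hSc : Continuous S)
    (hSv : ∀ θ ∈ Du (rc D), ConvexOn ℝ univ fun x => ⟪θ, S x⟫_ℝ) (hε : ε ≤ (2 * Real.exp 2)⁻¹)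
    (hd : r ≤ d) (hp : r ≤ p) (hd1 : 1 ≤ d) (hp1 : 1 ≤ p) (hR : Res A Q ε d p h r (rc D) S)
    (hb : Bornology.IsBounded {x | S x ∈ D}) (hi : (interior {x | S x ∈ D}).Nonempty) :
    Cy A Q ε d p (h + 7) m {x | S x ∈ D} := by
  have hC := rc_cn hD hD' hDi
  obtain ⟨u, hu⟩ := hDi
  have hu' : u ∈ rc D := interior_subset hu
  obtain ⟨δ, hδ, hδb, hδv⟩ := sh_near hD hD' hC hSc hSv hu' hb hi
  have e0 : Sh D u 0 = D := by
    ext s
    change s - (0 : ℝ) • u ∈ D ↔ s ∈ D
    rw [zero_smul, sub_zero]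
  obtain ⟨x₀, hx₀⟩ := hi
  have hx₀' : S x₀ ∈ D := by
    have : x₀ ∈ {x | S x ∈ D} := interior_subset hx₀
    exact this
  -- the large set
  have hL : Cy A Q ε d p (h + 5) m {x | S x ∈ Sh D u δ} := by
    refine dcore (sh_closed hD u δ) (sh_convex hD' u δ) ?_ hSc ?_ hε hd hp ?_ hδb ?_
    · rw [sh_rc]; exact ⟨u, hu⟩
    · rw [sh_rc]; exact hSv
    · rw [sh_rc]; exact hR
    · refine ⟨x₀, ?_⟩
      have ho : IsOpen {s | S x₀ - (s - δ • u) ∈ interior (rc D)} :=
        isOpen_interior.preimage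
          (continuous_const.sub (continuous_id.sub continuous_const))
      refine interior_maximal (fun s hs => ?_) ho ?_
      · have h1 : S x₀ - (s - δ • u) ∈ rc D := interior_subset (s := rc D) hs
        have h2 := h1 _ hx₀'
        rwa [sub_sub_cancel] at h2
      · change S x₀ - (S x₀ - δ • u) ∈ interior (rc D)
        rw [sub_sub_cancel]
        exact hC.smul_int hδ hu
  -- the body
  have hz0 : Continuous fun z : E m × E 1 => z.2 0 := by fun_prop
  have b1 : IsCompact (Bw D S u δ) := by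
    refine Metric.isCompact_of_isClosed_isBounded ?_ ?_
    · refine IsClosed.inter ?_ ((isClosed_le continuous_const hz0).inter
        (isClosed_le hz0 continuous_const))
      exact hD.preimage ((hSc.comp continuous_fst).sub (hz0.smul continuous_const))
    · obtain ⟨R, hR⟩ := hδb.exists_norm_le
      rw [isBounded_iff_forall_norm_le]
      refine ⟨max R δ, fun z hz => ?_⟩
      rw [Prod.norm_def]
      refine max_le_max (hR z.1 (sh_mono hD' hu' hz.2.2 hz.1)) ?_
      rw [EuclideanSpace.norm_eq, Fin.sum_univ_one, Real.norm_eq_abs, sq_abs,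
        Real.sqrt_sq hz.2.1]
      exact hz.2.2
  have b2 : Convex ℝ (Bw D S u δ) := by
    intro z hz z' hz' a b ha hb' hab
    have e1 : (a • z + b • z').2 0 = a * z.2 0 + b * z'.2 0 := by
      simp
    refine ⟨?_, ?_, ?_⟩
    · rw [e1]
      exact sh_comb hD' hC hSv u ha hb' hab hz.1 hz'.1
    · rw [e1]
      have h1 := mul_nonneg ha hz.2.1
      have h2 := mul_nonneg hb' hz'.2.1
      linarith
    · rw [e1]
      have h1 := mul_le_mul_of_nonneg_left hz.2.2 ha
      have h2 := mul_le_mul_of_nonneg_left hz'.2.2 hb'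
      have h3 : a * δ + b * δ = δ := by rw [← add_mul, hab, one_mul]
      linarith
  have b3 : (interior (Bw D S u δ)).Nonempty := by
    have c1 : IsOpen {z : E m × E 1 | z.1 ∈ interior {x | S x ∈ D}} :=
      isOpen_interior.preimage continuous_fst
    have c2 : IsOpen {z : E m × E 1 | 0 < z.2 0} := isOpen_lt continuous_const hz0
    have c3 : IsOpen {z : E m × E 1 | z.2 0 < δ} := isOpen_lt hz0 continuous_const
    have hmem : ((x₀, pt (δ / 2)) : E m × E 1) ∈
        {z : E m × E 1 | z.1 ∈ interior {x | S x ∈ D}} ∩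
        ({z : E m × E 1 | 0 < z.2 0} ∩ {z : E m × E 1 | z.2 0 < δ}) := by
      refine ⟨hx₀, ?_, ?_⟩
      · change 0 < δ / 2
        linarith
      · change δ / 2 < δ
        linarith
    have hsub : {z : E m × E 1 | z.1 ∈ interior {x | S x ∈ D}} ∩
        ({z : E m × E 1 | 0 < z.2 0} ∩ {z : E m × E 1 | z.2 0 < δ}) ⊆ Bw D S u δ := by
      rintro z ⟨hz1, hz2, hz3⟩
      have h1 : z.1 ∈ {x | S x ∈ D} := interior_subset hz1
      have h2 : S z.1 ∈ Sh D u 0 := by rw [e0]; exact h1
      exact ⟨sh_mono hD' hu' (le_of_lt hz2) h2, le_of_lt hz2, le_of_lt hz3⟩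
    exact ⟨(x₀, pt (δ / 2)), interior_maximal hsub (c1.inter (c2.inter c3)) hmem⟩
  obtain ⟨c1, c2, c3⟩ := prl_body b1 b2 b3
  have himg : prj m 1 '' (prl m 1 '' Bw D S u δ) = {x | S x ∈ Sh D u δ} := by
    rw [prj_image]
    ext x
    constructor
    · rintro ⟨z, hz, rfl⟩
      exact sh_mono hD' hu' hz.2.2 hz.1
    · intro hx
      exact ⟨(x, pt δ), ⟨hx, hδ.le, le_rfl⟩, rfl⟩
  have hpre : prl m 1 ⁻¹' (prl m 1 '' Bw D S u δ) = Bw D S u δ :=
    preimage_image_eq _ (prl m 1).injective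
  have hB : Cy A Q ε d p (h + 6) (m + 1) (prl m 1 '' Bw D S u δ) := by
    refine .lift (h + 5) (m + 1) m _ (prj m 1) (by omega) (prj_surj m 1) c1 c2 c3 ?_
    rw [himg]
    exact hL
  have hsl : sl (prl m 1 ⁻¹' (prl m 1 '' Bw D S u δ)) (pt 0) = {x | S x ∈ D} := by
    rw [hpre]
    ext x
    constructor
    · intro hx
      have h1 : S x ∈ Sh D u 0 := hx.1
      rwa [e0] at h1
    · intro hx
      have h1 : S x ∈ Sh D u 0 := by rw [e0]; exact hx
      exact ⟨h1, le_rfl, hδ.le⟩
  have hfin := Cy.sec (A := A) (Q := Q) (ε := ε) (d := d) (r := p) (h + 6) m 1 (m + 1) _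
    (prl m 1) (pt 0) hd1 hB (fun t' => by
      have h0 : 0 ≤ Rv (prl m 1 ⁻¹' (prl m 1 '' Bw D S u δ)) t' :=
        Pool.Agent.R754.KG.R_nonneg t'
      have h1 : Rv (prl m 1 ⁻¹' (prl m 1 '' Bw D S u δ)) t' ≤ 2 * (volume {x | S x ∈ D}).toReal := by
        have h2 : volume (sl (prl m 1 ⁻¹' (prl m 1 '' Bw D S u δ)) t') ≤
            volume {x | S x ∈ Sh D u δ} := by
          refine measure_mono fun x hx => ?_
          rw [hpre] at hx
          exact sh_mono hD' hu' hx.2.2 hx.1
        have h3 := ENNReal.toReal_mono (ENNReal.mul_ne_top ENNReal.ofNat_ne_top hb.measure_lt_top.ne)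
          (h2.trans hδv)
        rwa [ENNReal.toReal_mul, ENNReal.toReal_ofNat] at h3
      have h4 : Rv (prl m 1 ⁻¹' (prl m 1 '' Bw D S u δ)) (pt 0) =
          (volume {x | S x ∈ D}).toReal := by
        unfold Rv
        rw [hsl]
      rw [h4]
      have h5 : ε ≤ 1 / 2 := by
        refine hε.trans ?_
        rw [one_div]
        refine inv_anti₀ zero_lt_two ?_
        have := Real.one_le_exp (zero_le_two (α := ℝ))
        linarith
      calc ε * Rv (prl m 1 ⁻¹' (prl m 1 '' Bw D S u δ)) t' ≤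
            1 / 2 * Rv (prl m 1 ⁻¹' (prl m 1 '' Bw D S u δ)) t' := by gcongr
        _ ≤ 1 / 2 * (2 * (volume {x | S x ∈ D}).toReal) := by gcongr
        _ = _ := by ring)
  rw [hsl] at hfin
  exact hfin

end Pool.Agent.V7H69.EM
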