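import Pool.Agent.V7H69.EM.Min

/-!
# Level sets of convex maps into ordered spaces: no condition on the sign, few further constraints
-/

set_option autoImplicit false

namespace Pool.Agent.V7H69.EM

open MeasureTheory Set Filter Topology
open scoped ENNReal InnerProductSpace
open Pool.Agent.R754.KG (E un sl Rv)
open Pool.Agent.R755.KF
open Pool.Agent.R755.KS
open Pool.Agent.N483.KM (Cy)
open Pool.Agent.V7H69.EL (coords)

/-- the level sets of the functionals of the restrictions of `S` to subspaces of codimension at most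
`k` are in the class -/
def Res (A : ℝ → ℝ) (Q ε : ℝ) (d p h k : ℕ) {r m : ℕ} (C : Set (E r)) (S : E m → E r) : Prop :=
  ∀ θ ∈ Du C, ∀ (N : ℕ) (w : E N →ₗ[ℝ] E m) (c : E m) (e : ℝ), m ≤ N + k →
    Bornology.IsBounded {x | ⟪θ, S (w x + c)⟫_ℝ ≤ e} →
    (interior {x | ⟪θ, S (w x + c)⟫_ℝ ≤ e}).Nonempty →
    Cy A Q ε d p h N {x | ⟪θ, S (w x + c)⟫_ℝ ≤ e}

variable {r m : ℕ} {C : Set (E r)} {S : E m → E r}

theorem eps_one {ε : ℝ} (hε : ε ≤ (2 * Real.exp 2)⁻¹) : ε ≤ 1 := by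
  refine hε.trans (inv_le_one_of_one_le₀ ?_)
  have := Real.one_le_exp (zero_le_two (α := ℝ))
  linarith

theorem large_of_max {ε : ℝ} (hε : ε ≤ 1) {N ρ : ℕ} {K : Set (E N × E ρ)} {t : E ρ}
    (ht : ∀ t', Rv K t' ≤ Rv K t) (t' : E ρ) : ε * Rv K t' ≤ Rv K t := by
  have h2 : 0 ≤ Rv K t' := Pool.Agent.R754.KG.R_nonneg t'
  calc ε * Rv K t' ≤ 1 * Rv K t' := by gcongr
    _ = Rv K t' := one_mul _
    _ ≤ _ := ht t'

/-- level sets of convex maps -/
theorem score {A : ℝ → ℝ} {Q ε : ℝ} {d p h : ℕ} (hC : Cn C) (hSc : Continuous S)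
    (hSv : ∀ θ ∈ Du C, ConvexOn ℝ univ fun x => ⟪θ, S x⟫_ℝ) (hε : ε ≤ (2 * Real.exp 2)⁻¹)
    (hd : r ≤ d) (hp : r ≤ p) (hR : Res A Q ε d p h r C S) (s₀ : E r)
    (hb : Bornology.IsBounded (Lv C S s₀)) (hi : (interior (Lv C S s₀)).Nonempty) :
    Cy A Q ε d p (h + 3) m (Lv C S s₀) := by
  obtain ⟨l, b, hl⟩ := minorC hC hSv
  obtain ⟨N, ρ, w, w', ψ, hρ, hw, hψ⟩ := coords l
  rw [finrank_euclideanSpace_fin] at hρ
  have b1 : IsCompact (Lv C S s₀) :=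
    Metric.isCompact_of_isClosed_isBounded (lv_closed hC hSc s₀) hb
  have b2 : Convex ℝ (Lv C S s₀) := by
    intro x hx y hy α β hα hβ hαβ
    have h1 := lv_comb hC hSv hα hβ hαβ (s := s₀) (s' := s₀) hx hy
    rwa [← add_smul, hαβ, one_smul] at h1
  have hF := cb_pre ψ b1 b2 hi
  obtain ⟨t, ht0, ht⟩ := Pool.Agent.N348.KM.MXF.t_MXF N ρ (ψ ⁻¹' Lv C S s₀) hF
  have hNm : N + ρ = m := by
    have h1 := ψ.finrank_eq
    simpa using h1
  refine .ext (h + 2) N ρ m _ ψ t (hρ.trans hd) b1 b2 hi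
    (large_of_max (eps_one hε) ht) ?_
  have hv : volume (sl (ψ ⁻¹' Lv C S s₀) t) ≠ 0 := Pool.Agent.N483.KM.vol_ne_of_pos ht0
  have hint := int_of_vol (sl_conv hF t) hv
  have hbd := (sl_comp hF t).isBounded
  -- the map on the fibre
  obtain ⟨S', hS'⟩ : ∃ S' : E N → E r, S' = fun x => S (w x + w' t) - l (w' t) - b := ⟨_, rfl⟩
  have hfib : sl (ψ ⁻¹' Lv C S s₀) t = Lv C S' (s₀ - l (w' t) - b) := by
    ext x
    change ψ (x, t) ∈ Lv C S s₀ ↔ s₀ - l (w' t) - b - S' x ∈ C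
    rw [hψ, hS']
    change s₀ - S (w x + w' t) ∈ C ↔ s₀ - l (w' t) - b - (S (w x + w' t) - l (w' t) - b) ∈ C
    have e1 : s₀ - l (w' t) - b - (S (w x + w' t) - l (w' t) - b) = s₀ - S (w x + w' t) := by
      abel
    rw [e1]
  rw [hfib] at hint hbd ⊢
  let g : E N →ᵃ[ℝ] E m := w.toAffineMap + AffineMap.const ℝ (E N) (w' t)
  have hg : ∀ x, g x = w x + w' t := fun x => rfl
  have hwc : Continuous fun x : E N => w x + w' t :=
    (w.continuous_of_finiteDimensional).add continuous_const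
  have hCm : Cm C S' := by
    refine ⟨?_, fun θ hθ => ?_, fun θ hθ x => ?_⟩
    · rw [hS']
      exact ((hSc.comp hwc).sub continuous_const).sub continuous_const
    · have h1 := ((hSv θ hθ).comp_affineMap g).add
        (convexOn_const (-⟪θ, l (w' t)⟫_ℝ - ⟪θ, b⟫_ℝ) convex_univ)
      rw [preimage_univ] at h1
      refine h1.congr fun x _ => ?_
      rw [hS']
      simp only [Pi.add_apply, Function.comp_apply, hg, inner_sub_right]
      ring
    · have h1 := hθ _ (hl (w x + w' t))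
      rw [hS']
      have e1 : l (w x + w' t) = l (w' t) := by rw [map_add, hw, zero_add]
      rwa [e1] at h1
  obtain ⟨y, hy⟩ := hint
  have hη := coercive hC hCm hbd ⟨y, interior_subset hy⟩
  refine core hC hCm hε hd hp hη (fun θ hθ e hbe hie => ?_) _ ⟨y, hy⟩
  have e1 : {x | ⟪θ, S' x⟫_ℝ ≤ e} =
      {x | ⟪θ, S (w x + w' t)⟫_ℝ ≤ e + ⟪θ, l (w' t)⟫_ℝ + ⟪θ, b⟫_ℝ} := by
    ext x
    change ⟪θ, S' x⟫_ℝ ≤ e ↔ ⟪θ, S (w x + w' t)⟫_ℝ ≤ e + ⟪θ, l (w' t)⟫_ℝ + ⟪θ, b⟫_ℝ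
    rw [hS']
    simp only [inner_sub_right]
    constructor <;> intro h <;> linarith
  rw [e1] at hbe hie ⊢
  exact hR θ hθ N w (w' t) _ (by omega) hbe hie

end Pool.Agent.V7H69.EM
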