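import Pool.Agent.V7H69.EM.GeT

/-!
# Images of convex sets with slices given by constraints on pinched maps
-/

set_option autoImplicit false

namespace Pool.Agent.V7H69.EM

open MeasureTheory Set Filter Topology
open scoped ENNReal InnerProductSpace
open Pool.Agent.R754.KG (E un sl Rv)
open Pool.Agent.R755.KF
open Pool.Agent.R755.KS
open Pool.Agent.N483.KM (Cy)
open Pool.Agent.V7H69.EL (PinB Ps)

/-- sets defined by a constraint on the values of a pinched map -/
def PCo (κ : ℝ) (r : ℕ) {m : ℕ} (K : Set (E m)) : Prop :=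
  ∃ (S : E m → E r) (D : Set (E r)), IsClosed D ∧ Convex ℝ D ∧ Continuous S ∧
    (∀ θ ∈ Du (rc D), ∃ (k : ℕ) (B : E m →ₗ[ℝ] E k), PinB κ B fun x => ⟪θ, S x⟫_ℝ) ∧
    K = {x | S x ∈ D}

/-- compact convex sets, such that the sets where `ρ` linear functionals have given values are of
this form -/
def Sli (κ : ℝ) (r ρ : ℕ) {m : ℕ} (K : Set (E m)) : Prop :=
  IsCompact K ∧ Convex ℝ K ∧ ∃ Φ : E m →ₗ[ℝ] E ρ, ∀ x₀ ∈ K, PCo κ r (K ∩ {x | Φ x = Φ x₀})

/-- coordinates in which a linear map to a space of dimension `r` depends only on at most `r`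
coordinates -/
theorem coords' {m : ℕ} {F : Type} [AddCommGroup F] [Module ℝ F] [FiniteDimensional ℝ F]
    (A : E m →ₗ[ℝ] F) : ∃ (N ρ : ℕ) (w : E N →ₗ[ℝ] E m)
    (w' : E ρ →ₗ[ℝ] E m) (e : (E N × E ρ) ≃ₗ[ℝ] E m), ρ ≤ Module.finrank ℝ F ∧
    (∀ x, A (w x) = 0) ∧ (∀ t, A (w' t) = 0 → t = 0) ∧ ∀ x t, e (x, t) = w x + w' t := by
  obtain ⟨W', hW⟩ := Submodule.exists_isCompl (LinearMap.ker A)
  let e1 : E (Module.finrank ℝ (LinearMap.ker A)) ≃ₗ[ℝ] LinearMap.ker A :=
    LinearEquiv.ofFinrankEq _ _ (by simp)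
  let e2 : E (Module.finrank ℝ W') ≃ₗ[ℝ] W' := LinearEquiv.ofFinrankEq _ _ (by simp)
  let e := (e1.prodCongr e2).trans (Submodule.prodEquivOfIsCompl _ _ hW)
  refine ⟨_, _, (LinearMap.ker A).subtype ∘ₗ e1.toLinearMap, W'.subtype ∘ₗ e2.toLinearMap, e,
    ?_, fun x => (e1 x).2, fun t ht => ?_, fun x t => ?_⟩
  · have h1 := Submodule.finrank_add_eq_of_isCompl hW
    have h2 := LinearMap.finrank_range_add_finrank_ker A
    have h3 : Module.finrank ℝ (LinearMap.range A) ≤ Module.finrank ℝ F :=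
      Submodule.finrank_le _
    omega
  · have h1 : ((e2 t : W') : E m) ∈ LinearMap.ker A := ht
    have h2 : ((e2 t : W') : E m) ∈ LinearMap.ker A ⊓ W' := ⟨h1, (e2 t).2⟩
    rw [hW.inf_eq_bot, Submodule.mem_bot] at h2
    have h3 : e2 t = 0 := Subtype.ext h2
    exact e2.map_eq_zero_iff.1 h3
  · rfl

theorem pco_cy {A : ℝ → ℝ} {Q ε κ : ℝ} {d p r m n : ℕ} (hκ : 1 ≤ κ) (HA : ∀ (m : ℕ)
    (K : Set (E m)), Ps κ 1 m K → ∀ δ : ℝ, 0 < δ → KM (A δ) δ (un K)) {K : Set (E m)}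
    (hK : PCo κ r K) (T : E m →ₗ[ℝ] E n) (hT : Function.Surjective T)
    (hε : ε ≤ (2 * Real.exp 2)⁻¹) (hd : 3 * r + 1 ≤ d) (hp : 3 * r + 1 ≤ p)
    (hb : Bornology.IsBounded K) (hi : (interior (T '' K)).Nonempty) :
    Cy A Q ε d p 7 n (T '' K) := by
  obtain ⟨S, D, h1, h2, h3, h4, rfl⟩ := hK
  exact pgen hκ HA h1 h2 h3 h4 T hT hε hd hp hb hi

/-- **Images.** -/
theorem sli_cy {A : ℝ → ℝ} {Q ε κ : ℝ} {d p r ρ m n : ℕ} (hκ : 1 ≤ κ) (HA : ∀ (m : ℕ)
    (K : Set (E m)), Ps κ 1 m K → ∀ δ : ℝ, 0 < δ → KM (A δ) δ (un K)) {K : Set (E m)}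
    (hK : Sli κ r ρ K) (T : E m →ₗ[ℝ] E n) (hT : Function.Surjective T)
    (hε : ε ≤ (2 * Real.exp 2)⁻¹) (hd : 3 * r + 1 ≤ d) (hp : 3 * r + 1 ≤ p) (hd1 : ρ ≤ d)
    (hp1 : ρ ≤ p) (hi : (interior (T '' K)).Nonempty) : Cy A Q ε d p 10 n (T '' K) := by
  obtain ⟨hc, hcv, Φ, hΦ⟩ := hK
  have hTc : Continuous T := T.continuous_of_finiteDimensional
  have hΦc : Continuous Φ := Φ.continuous_of_finiteDimensional
  obtain ⟨x₀, hx₀⟩ : K.Nonempty := by
    obtain ⟨y, hy⟩ := hi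
    obtain ⟨x₀, hx₀, -⟩ := interior_subset hy
    exact ⟨x₀, hx₀⟩
  -- the joint image and its span
  let TΦ : E m →ₗ[ℝ] (E n × E ρ) := T.prod Φ
  let L : Submodule ℝ (E n × E ρ) := Submodule.span ℝ ((fun x => TΦ x - TΦ x₀) '' K)
  have hmem : ∀ x ∈ K, TΦ x - TΦ x₀ ∈ L := fun x hx => Submodule.subset_span ⟨x, hx, rfl⟩
  let M := Module.finrank ℝ L
  have hML : M ≤ n + ρ := by
    have h1 := Submodule.finrank_le L
    rwa [Module.finrank_prod, finrank_euclideanSpace_fin, finrank_euclideanSpace_fin] at h1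
  let e : E M ≃ₗ[ℝ] L := LinearEquiv.ofFinrankEq _ _ (by simp [M])
  let P1 : E M →ₗ[ℝ] E n := (LinearMap.fst ℝ (E n) (E ρ)) ∘ₗ L.subtype ∘ₗ e.toLinearMap
  let P2 : E M →ₗ[ℝ] E ρ := (LinearMap.snd ℝ (E n) (E ρ)) ∘ₗ L.subtype ∘ₗ e.toLinearMap
  have hP1 : ∀ v, P1 v = (e v : E n × E ρ).1 := fun v => rfl
  have hP2 : ∀ v, P2 v = (e v : E n × E ρ).2 := fun v => rfl
  -- the body
  obtain ⟨G, hG⟩ : ∃ G : Set (E M), G = {v | ∃ x ∈ K, TΦ x - TΦ x₀ = (e v : E n × E ρ)} := ⟨_, rfl⟩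
  have hGx : ∀ x ∈ K, ∃ v ∈ G, (e v : E n × E ρ) = TΦ x - TΦ x₀ := by
    intro x hx
    refine ⟨e.symm ⟨_, hmem x hx⟩, ?_, ?_⟩
    · rw [hG]
      refine ⟨x, hx, ?_⟩
      rw [LinearEquiv.apply_symm_apply]
    · rw [LinearEquiv.apply_symm_apply]
  have hec : Continuous fun v => (e v : E n × E ρ) :=
    (L.subtype ∘ₗ e.toLinearMap).continuous_of_finiteDimensional
  have hGimg : (fun v => (e v : E n × E ρ)) '' G = (fun x => TΦ x - TΦ x₀) '' K := by
    ext z
    constructor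
    · rintro ⟨v, hv, rfl⟩
      rw [hG] at hv
      obtain ⟨x, hx, hxv⟩ := hv
      exact ⟨x, hx, hxv⟩
    · rintro ⟨x, hx, rfl⟩
      obtain ⟨v, hv, hv'⟩ := hGx x hx
      exact ⟨v, hv, hv'⟩
  have g1 : IsCompact G := by
    have h1 : IsCompact ((fun x => TΦ x - TΦ x₀) '' K) :=
      hc.image ((TΦ.continuous_of_finiteDimensional).sub continuous_const)
    have h2 : Topology.IsClosedEmbedding fun v => (e v : E n × E ρ) := by
      have h3 : LinearMap.ker (L.subtype ∘ₗ e.toLinearMap) = ⊥ := by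
        rw [LinearMap.ker_eq_bot]
        exact Subtype.val_injective.comp e.injective
      exact LinearMap.isClosedEmbedding_of_injective h3
    rw [← hGimg] at h1
    exact (h2.isCompact_iff).2 h1
  have g2 : Convex ℝ G := by
    rw [hG]
    rintro v ⟨x, hx, hxv⟩ v' ⟨x', hx', hxv'⟩ a b ha hb hab
    refine ⟨a • x + b • x', hcv hx hx' ha hb hab, ?_⟩
    have e1 : TΦ (a • x + b • x') - TΦ x₀ = a • (TΦ x - TΦ x₀) + b • (TΦ x' - TΦ x₀) := by
      have h2 : TΦ x₀ = a • TΦ x₀ + b • TΦ x₀ := by rw [← add_smul, hab, one_smul]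
      rw [map_add, map_smul, map_smul, smul_sub, smul_sub]
      conv_lhs => rw [h2]
      abel
    rw [e1, hxv, hxv', map_add, map_smul, map_smul]
    rfl
  have h0G : (0 : E M) ∈ G := by
    rw [hG]
    refine ⟨x₀, hx₀, ?_⟩
    rw [sub_self, map_zero]
    rfl
  have g3 : (interior G).Nonempty := by
    rw [g2.interior_nonempty_iff_affineSpan_eq_top]
    have h3 : insert (0 : E M) G = G := insert_eq_of_mem h0G
    have hspan : Submodule.span ℝ G = ⊤ := by
      have h4 : Submodule.map (L.subtype ∘ₗ e.toLinearMap) (Submodule.span ℝ G) = L := by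
        rw [Submodule.map_span]
        have h5 : (⇑(L.subtype ∘ₗ e.toLinearMap) '' G) = (fun x => TΦ x - TΦ x₀) '' K := hGimg
        rw [h5]
      refine eq_top_iff.2 fun v _ => ?_
      have h5 : (e v : E n × E ρ) ∈ Submodule.map (L.subtype ∘ₗ e.toLinearMap)
          (Submodule.span ℝ G) := by
        rw [h4]
        exact (e v).2
      obtain ⟨v', hv', hv''⟩ := h5
      have h6 : e v' = e v := Subtype.ext hv''
      rwa [← e.injective h6]
    rw [← h3]
    refine SetLike.coe_injective ?_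
    rw [affineSpan_insert_zero, hspan]
    rfl
  -- the projection
  have himg : (fun v => T x₀ + P1 v) '' G = T '' K := by
    ext y
    constructor
    · rintro ⟨v, hv, rfl⟩
      rw [hG] at hv
      obtain ⟨x, hx, hxv⟩ := hv
      refine ⟨x, hx, ?_⟩
      have h1 : T x - T x₀ = P1 v := by rw [hP1, ← hxv]; rfl
      change T x = T x₀ + P1 v
      rw [← h1]
      abel
    · rintro ⟨x, hx, rfl⟩
      obtain ⟨v, hv, hv'⟩ := hGx x hx
      refine ⟨v, hv, ?_⟩
      change T x₀ + P1 v = T x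
      rw [hP1, hv']
      change T x₀ + (T x - T x₀) = T x
      abel
  have hP1s : Function.Surjective P1 := by
    rw [← LinearMap.range_eq_top]
    refine Submodule.eq_top_of_nonempty_interior' _ ?_
    have h1 : (fun y => y - T x₀) '' (T '' K) ⊆ (LinearMap.range P1 : Set (E n)) := by
      rw [← himg]
      rintro _ ⟨_, ⟨v, -, rfl⟩, rfl⟩
      refine ⟨v, ?_⟩
      change P1 v = T x₀ + P1 v - T x₀
      abel
    obtain ⟨y, hy⟩ := hi
    have h2 : IsOpen ((fun y => y - T x₀) '' interior (T '' K)) :=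
      (Homeomorph.subRight (T x₀)).isOpenMap _ isOpen_interior
    exact ⟨y - T x₀, interior_maximal ((image_mono interior_subset).trans h1) h2 ⟨y, hy, rfl⟩⟩
  -- the fibration
  obtain ⟨N, j, w, w', ψ, hj, hw, hw', hψ⟩ := coords' P2
  rw [finrank_euclideanSpace_fin] at hj
  have hF := cb_pre ψ g1 g2 g3
  obtain ⟨t, ht0, ht⟩ := Pool.Agent.N348.KM.MXF.t_MXF N j (ψ ⁻¹' G) hF
  have hv : volume (sl (ψ ⁻¹' G) t) ≠ 0 := Pool.Agent.N483.KM.vol_ne_of_pos ht0
  have hint := int_of_vol (sl_conv hF t) hv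
  have h9 : Cy A Q ε d p 9 M G := by
    refine .ext 8 N j M _ ψ t (hj.trans hd1) g1 g2 g3 (large_of_max (eps_one hε) ht) ?_
    -- a point of the fibre
    obtain ⟨u₁, hu₁⟩ := hint
    have hu₀ : u₁ ∈ sl (ψ ⁻¹' G) t := interior_subset hu₁
    have hu₂ : ψ (u₁, t) ∈ G := hu₀
    rw [hψ, hG] at hu₂
    obtain ⟨x₁, hx₁, hx₁'⟩ := hu₂
    have hΦx1 : Φ x₁ = Φ x₀ + P2 (w' t) := by
      have h1 : Φ x₁ - Φ x₀ = (e (w u₁ + w' t) : E n × E ρ).2 := by rw [← hx₁']; rfl
      rw [← hP2, map_add, hw, zero_add] at h1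
      rw [← h1]
      abel
    -- the map `α` and a left inverse
    let α : E N →ₗ[ℝ] E n := P1 ∘ₗ w
    have hα : LinearMap.ker α = ⊥ := by
      rw [LinearMap.ker_eq_bot']
      intro u hu
      have h1 : (e (w u) : E n × E ρ) = 0 := Prod.ext hu (hw u)
      have h2 : e (w u) = 0 := Subtype.ext h1
      have h3 : w u = 0 := e.map_eq_zero_iff.1 h2
      have h4 : ψ (u, 0) = 0 := by rw [hψ, h3, map_zero, add_zero]
      have h5 := ψ.map_eq_zero_iff.1 h4
      exact (Prod.ext_iff.1 h5).1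
    obtain ⟨β, hβ⟩ := LinearMap.exists_leftInverse_of_injective α hα
    have hβ' : ∀ u, β (α u) = u := fun u => LinearMap.congr_fun hβ u
    have hβs : Function.Surjective (β ∘ₗ T) := by
      intro u
      obtain ⟨x, hx⟩ := hT (α u)
      refine ⟨x, ?_⟩
      rw [LinearMap.comp_apply, hx, hβ']
    -- the fibre
    have hfib : sl (ψ ⁻¹' G) t = (fun u : E N => -β (T x₀ + P1 (w' t)) +
        (LinearMap.id : E N →ₗ[ℝ] E N) u) ''
        ((β ∘ₗ T) '' (K ∩ {x | Φ x = Φ x₁})) := by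
      ext u
      constructor
      · intro hu
        have hu' : ψ (u, t) ∈ G := hu
        rw [hψ, hG] at hu'
        obtain ⟨x, hx, hxu⟩ := hu'
        have h1 : T x - T x₀ = P1 (w u + w' t) := by rw [hP1, ← hxu]; rfl
        have h2 : Φ x - Φ x₀ = P2 (w u + w' t) := by rw [hP2, ← hxu]; rfl
        rw [map_add, hw, zero_add] at h2
        refine ⟨β (T x), ⟨x, ⟨hx, ?_⟩, rfl⟩, ?_⟩
        · change Φ x = Φ x₁
          rw [hΦx1, ← h2]
          abel
        · change -β (T x₀ + P1 (w' t)) + β (T x) = u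
          have h3 : T x = T x₀ + P1 (w' t) + α u := by
            have h4 : α u = P1 (w u) := rfl
            rw [h4]
            rw [map_add] at h1
            have h5 : T x = T x₀ + (T x - T x₀) := by abel
            rw [h5, h1]
            abel
          rw [h3, map_add β (T x₀ + P1 (w' t)) (α u), hβ']
          abel
      · rintro ⟨_, ⟨x, ⟨hx, hxΦ⟩, rfl⟩, rfl⟩
        -- the point of `E M`
        obtain ⟨v, hv, hv'⟩ := hGx x hx
        obtain ⟨⟨u, s⟩, hus⟩ := ψ.surjective v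
        rw [hψ] at hus
        have h2 : P2 v = P2 (w' t) := by
          have h3 : P2 v = Φ x - Φ x₀ := by rw [hP2, hv']; rfl
          have h4 : Φ x = Φ x₁ := hxΦ
          rw [h3, h4, hΦx1]
          abel
        have h3 : s = t := by
          rw [← hus, map_add, hw, zero_add] at h2
          have h4 : P2 (w' (s - t)) = 0 := by rw [map_sub, map_sub, h2, sub_self]
          exact sub_eq_zero.1 (hw' _ h4)
        rw [h3] at hus
        have h4 : T x - T x₀ = P1 v := by rw [hP1, hv']; rfl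
        have h5 : -β (T x₀ + P1 (w' t)) + β (T x) = u := by
          have h6 : T x = T x₀ + P1 (w' t) + α u := by
            have h7 : α u = P1 (w u) := rfl
            rw [h7]
            rw [← hus, map_add] at h4
            have h8 : T x = T x₀ + (T x - T x₀) := by abel
            rw [h8, h4]
            abel
          rw [h6, map_add β (T x₀ + P1 (w' t)) (α u), hβ']
          abel
        change ψ (-β (T x₀ + P1 (w' t)) + β (T x), t) ∈ G
        rw [h5, hψ, hus]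
        exact hv
    rw [hfib]
    refine .image 7 N N _ LinearMap.id _ (by omega) Function.surjective_id ?_
    refine pco_cy hκ HA (hΦ x₁ hx₁) (β ∘ₗ T) hβs hε hd hp (hc.isBounded.subset inter_subset_left) ?_
    have h1 : (interior (sl (ψ ⁻¹' G) t)).Nonempty := ⟨u₁, hu₁⟩
    rw [hfib] at h1
    obtain ⟨u₂, hu₂⟩ := h1
    have h2 : IsOpen ((fun u => u - -β (T x₀ + P1 (w' t))) ''
        interior ((fun u : E N => -β (T x₀ + P1 (w' t)) + (LinearMap.id : E N →ₗ[ℝ] E N) u) ''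
        ((β ∘ₗ T) '' (K ∩ {x | Φ x = Φ x₁})))) :=
      (Homeomorph.subRight (-β (T x₀ + P1 (w' t)))).isOpenMap _ isOpen_interior
    refine ⟨_, interior_maximal ?_ h2 ⟨u₂, hu₂, rfl⟩⟩
    rintro _ ⟨u, hu, rfl⟩
    obtain ⟨z, hz, hz'⟩ := interior_subset hu
    have h3 : u - -β (T x₀ + P1 (w' t)) = z := by
      rw [← hz']
      change -β (T x₀ + P1 (w' t)) + z - -β (T x₀ + P1 (w' t)) = z
      abel
    change u - -β (T x₀ + P1 (w' t)) ∈ _
    rw [h3]
    exact hz
  have h10 := Cy.image 9 M n G P1 (T x₀) (by omega) hP1s h9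
  rwa [himg] at h10

end Pool.Agent.V7H69.EM
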