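import Pool.Agent.V7H69.EM.Sli

/-!
# The isoperimetric inequality for these images
-/

set_option autoImplicit false

namespace Pool.Agent.V7H69.EM

open MeasureTheory Set Filter Topology
open scoped ENNReal InnerProductSpace
open Pool.Agent.R754.KG (E un sl Rv)
open Pool.Agent.Y506.RG (Star)
open Pool.Agent.Y506.PV (ind)
open Pool.Agent.N483.KM (Cy cyR cclR)
open Pool.Agent.V7H69.EL (PinB Ps ps_km cvx_sq)

theorem pin_mono {κ κ' : ℝ} (hκ : 0 < κ) (h : κ ≤ κ') {m k : ℕ} {B : E m →ₗ[ℝ] E k} {f : E m → ℝ}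
    (hf : PinB κ B f) : PinB κ' B f := by
  have h1 : κ'⁻¹ ≤ κ⁻¹ := inv_anti₀ hκ h
  constructor
  · have h2 := hf.lower.add ((cvx_sq B).smul (show 0 ≤ κ⁻¹ - κ'⁻¹ by linarith))
    refine h2.congr fun x _ => ?_
    simp only [Pi.add_apply, smul_eq_mul]
    ring
  · have h2 := hf.upper.add ((cvx_sq B).smul (show 0 ≤ κ' - κ by linarith))
    refine h2.congr fun x _ => ?_
    simp only [Pi.add_apply, smul_eq_mul]
    ring

theorem sli_star (κ : ℝ) (hκ : 0 < κ) (r ρ : ℕ) : ∃ c : ℝ, 0 < c ∧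
    ∀ (m n : ℕ) (K : Set (E m)) (T : E m →ₗ[ℝ] E n) (w : E n), Sli κ r ρ K →
    Function.Surjective T → (interior (T '' K)).Nonempty →
    IsCompact ((fun x => w + T x) '' K) ∧ Convex ℝ ((fun x => w + T x) '' K) ∧
    (interior ((fun x => w + T x) '' K)).Nonempty ∧ Star c (ind ((fun x => w + T x) '' K)) := by
  obtain ⟨κ', hκ'⟩ : ∃ κ' : ℝ, κ' = max κ 1 := ⟨_, rfl⟩
  have h1 : 1 ≤ κ' := by rw [hκ']; exact le_max_right _ _
  have h2 : κ ≤ κ' := by rw [hκ']; exact le_max_left _ _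
  obtain ⟨A, hA, HA⟩ := ps_km κ' (by linarith) 1
  obtain ⟨d, hd⟩ : ∃ d, d = 3 * r + 1 + ρ := ⟨_, rfl⟩
  obtain ⟨c, hc, Hc⟩ := cyR cclR A 1 ((2 * Real.exp 2)⁻¹) one_pos (by positivity) d d 11
  refine ⟨c, hc, fun m n K T w hK hT hi => ?_⟩
  obtain ⟨g1, g2, Φ, g3⟩ := hK
  have h3 : Sli κ' r ρ K := by
    refine ⟨g1, g2, Φ, fun x₀ hx₀ => ?_⟩
    obtain ⟨S, D, q1, q2, q3, q4, q5⟩ := g3 x₀ hx₀
    refine ⟨S, D, q1, q2, q3, fun θ hθ => ?_, q5⟩
    obtain ⟨k, B, hB⟩ := q4 θ hθ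
    exact ⟨k, B, pin_mono hκ h2 hB⟩
  have h4 : Cy A 1 ((2 * Real.exp 2)⁻¹) d d 10 n (T '' K) :=
    sli_cy h1 HA h3 T hT le_rfl (by omega) (by omega) (by omega) (by omega) hi
  have h5 := Cy.image 10 n n _ LinearMap.id w (by omega) Function.surjective_id h4
  have e1 : (fun x : E n => w + (LinearMap.id : E n →ₗ[ℝ] E n) x) '' (T '' K) =
      (fun x => w + T x) '' K := by
    rw [image_image]
    rfl
  rw [e1] at h5
  exact Hc _ _ h5

end Pool.Agent.V7H69.EM
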