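import Mathlib

/-!
# Supporting functionals of the logarithm of a log-concave function
-/

set_option autoImplicit false

namespace Pool.Agent.V7H69.EM

open Set Filter Topology

variable {V : Type*} [NormedAddCommGroup V] [NormedSpace ℝ V]

/-- multiplicative form of log-concavity -/
def LC (φ : V → ℝ) : Prop := (∀ w, 0 ≤ φ w) ∧ ∀ w w' : V, ∀ t : ℝ, 0 < t → t < 1 →
  φ w ^ (1 - t) * φ w' ^ t ≤ φ ((1 - t) • w + t • w')

theorem LC.comb {φ : V → ℝ} (h : LC φ) {w w' : V} (hw : φ w ≠ 0) (hw' : φ w' ≠ 0) {t : ℝ}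
    (ht0 : 0 < t) (ht1 : t < 1) : φ ((1 - t) • w + t • w') ≠ 0 ∧
      (1 - t) * Real.log (φ w) + t * Real.log (φ w') ≤ Real.log (φ ((1 - t) • w + t • w')) := by
  have h1 : 0 < φ w := lt_of_le_of_ne (h.1 w) (Ne.symm hw)
  have h2 : 0 < φ w' := lt_of_le_of_ne (h.1 w') (Ne.symm hw')
  have h3 := h.2 w w' t ht0 ht1
  have h4 : 0 < φ w ^ (1 - t) * φ w' ^ t := by positivity
  refine ⟨(h4.trans_le h3).ne', ?_⟩
  have h5 := Real.log_le_log h4 h3
  rw [Real.log_mul (by positivity) (by positivity), Real.log_rpow h1, Real.log_rpow h2] at h5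
  exact h5

/-- the strict hypograph of the logarithm -/
def Hy (φ : V → ℝ) : Set (V × ℝ) := {z | φ z.1 ≠ 0 ∧ z.2 < Real.log (φ z.1)}

theorem LC.hy {φ : V → ℝ} (h : LC φ) : Convex ℝ (Hy φ) := by
  intro z hz z' hz' a b ha hb hab
  rcases ha.eq_or_lt with h' | ha
  · rw [← h', zero_add] at hab
    rw [← h', hab]; simpa using hz'
  rcases hb.eq_or_lt with h' | hb
  · rw [← h', add_zero] at hab
    rw [← h', hab]; simpa using hz
  have ha' : a = 1 - b := by linarith
  rw [ha']
  have hb1 : b < 1 := by linarith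
  obtain ⟨h1, h2⟩ := h.comb hz.1 hz'.1 hb hb1
  refine ⟨h1, ?_⟩
  show (1 - b) * z.2 + b * z'.2 < Real.log (φ ((1 - b) • z.1 + b • z'.1))
  refine lt_of_lt_of_le ?_ h2
  have h3 := mul_lt_mul_of_pos_left hz.2 (by linarith : 0 < 1 - b)
  have h4 := mul_lt_mul_of_pos_left hz'.2 hb
  linarith

/-- supporting functionals -/
theorem LC.supp {φ : V → ℝ} (h : LC φ) {e : V} {c : ℝ} (hc : 0 < c) (hn : ∀ᶠ w in 𝓝 e, c ≤ φ w) :
    ∃ g : V →L[ℝ] ℝ, ∀ w, φ w ≤ φ e * Real.exp (g w - g e) := by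
  have hce : c ≤ φ e := hn.self_of_nhds
  have hpe : 0 < φ e := hc.trans_le hce
  have hint : ∀ y < Real.log c, ((e, y) : V × ℝ) ∈ interior (Hy φ) := by
    intro y hy
    rw [mem_interior_iff_mem_nhds]
    have h1 : ∀ᶠ z : V × ℝ in 𝓝 (e, y), c ≤ φ z.1 ∧ z.2 < Real.log c := by
      refine Filter.Eventually.and ?_ ?_
      · exact (continuous_fst.tendsto ((e, y) : V × ℝ)).eventually hn
      · exact (continuous_snd.tendsto ((e, y) : V × ℝ)).eventually (gt_mem_nhds hy)
    filter_upwards [h1] with z hz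
    exact ⟨(hc.trans_le hz.1).ne', hz.2.trans_le (Real.log_le_log hc hz.1)⟩
  have hni : ((e, Real.log (φ e)) : V × ℝ) ∉ interior (Hy φ) := by
    intro h'
    exact lt_irrefl _ (interior_subset h').2
  have hcv := h.hy
  obtain ⟨f, hf⟩ := geometric_hahn_banach_open_point hcv.interior isOpen_interior hni
  have hfU : ∀ w ∈ Hy φ, f w ≤ f (e, Real.log (φ e)) := by
    intro w hw
    have h1 : w ∈ closure (interior (Hy φ)) := by
      rw [hcv.closure_interior_eq_closure_of_nonempty_interior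
        ⟨_, hint (Real.log c - 1) (by linarith)⟩]
      exact subset_closure hw
    have h2 : closure (interior (Hy φ)) ⊆ {w | f w ≤ f (e, Real.log (φ e))} :=
      closure_minimal (fun a ha => (hf a ha).le) (isClosed_le f.continuous continuous_const)
    exact h2 h1
  have hdec : ∀ (w : V) (y : ℝ), f (w, y) = f (w, 0) + y * f (0, 1) := by
    intro w y
    have e1 : ((w, y) : V × ℝ) = (w, 0) + y • (0, 1) := by
      ext <;> simp
    rw [e1, map_add, map_smul, smul_eq_mul]
  obtain ⟨b, hb⟩ : ∃ b, b = f (0, 1) := ⟨_, rfl⟩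
  have hb0 : 0 < b := by
    have h1 := hf _ (hint (Real.log c - 1) (by linarith))
    rw [hdec, hdec e (Real.log (φ e)), ← hb] at h1
    have h2 : Real.log c ≤ Real.log (φ e) := Real.log_le_log hc hce
    by_contra h3
    push Not at h3
    nlinarith
  refine ⟨-((1 / b) • f.comp (ContinuousLinearMap.inl ℝ V ℝ)), fun w => ?_⟩
  rcases eq_or_ne (φ w) 0 with hw | hw
  · rw [hw]
    positivity
  have hpw : 0 < φ w := lt_of_le_of_ne (h.1 w) (Ne.symm hw)
  have h1 : f (w, 0) + Real.log (φ w) * b ≤ f (e, 0) + Real.log (φ e) * b := by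
    refine le_of_forall_pos_le_add fun ε hε => ?_
    have h2 := hfU (w, Real.log (φ w) - ε / b) ⟨hw, by
      show Real.log (φ w) - ε / b < Real.log (φ w)
      have := div_pos hε hb0
      linarith⟩
    rw [hdec, hdec e (Real.log (φ e)), ← hb] at h2
    have h3 : (Real.log (φ w) - ε / b) * b = Real.log (φ w) * b - ε := by field_simp
    rw [h3] at h2
    linarith
  have h2 : Real.log (φ w) ≤ Real.log (φ e) + (f (e, 0) - f (w, 0)) / b := by
    rw [← sub_le_iff_le_add', le_div_iff₀ hb0]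
    linarith
  have h3 : ∀ w : V, (-((1 / b) • f.comp (ContinuousLinearMap.inl ℝ V ℝ))) w =
      -((1 / b) * f (w, 0)) := fun w => rfl
  have h4 := Real.exp_le_exp.2 h2
  rw [Real.exp_log hpw, Real.exp_add, Real.exp_log hpe] at h4
  refine h4.trans (le_of_eq ?_)
  rw [h3, h3]
  congr 2
  field_simp
  ring

end Pool.Agent.V7H69.EM
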